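import Pool.Agent.Lib.MP_66ef6b_al.Spec

/-!
# MP_66ef6b_al: module ALT (the alternating case)
-/

set_option autoImplicit false

namespace Pool.Agent.Lib.MP66ef6b

universe u

namespace AltM

/-- a finite subgroup above a given one, with many elements -/
theorem exists_big {G : Type u} [Group G] [Infinite G] (hG : LocFin G) (F : Subgroup G)
    (hF : Finite F) (m : ℕ) : ∃ F' : Subgroup G, Finite F' ∧ F ≤ F' ∧ m ≤ Nat.card F' := by
  classical
  obtain ⟨s, hs⟩ := Infinite.exists_subset_card_eq G m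
  have hfin : (F : Set G).Finite := hF
  let t : Finset G := hfin.toFinset ∪ s
  have ht := hG t
  refine ⟨Subgroup.closure (t : Set G), ht, ?_, ?_⟩
  · intro x hx
    apply Subgroup.subset_closure
    exact Finset.mem_coe.mpr (Finset.mem_union_left _ (hfin.mem_toFinset.mpr hx))
  · have h1 : (s : Set G) ⊆ (Subgroup.closure (t : Set G) : Set G) := by
      intro x hx
      exact Subgroup.subset_closure (Finset.mem_coe.mpr (Finset.mem_union_right _ hx))
    have h2 : (s : Set G).ncard ≤ (Subgroup.closure (t : Set G) : Set G).ncard :=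
      Set.ncard_le_ncard h1 ht
    rw [Set.ncard_coe_finset, hs] at h2
    exact h2

/-- A group with a faithful action on a finite set. -/
theorem card_le_factorial {Y : Type u} [Group Y] {P : Subgroup Y} [P.Normal] [Finite P]
    (hc : Subgroup.centralizer (P : Set Y) = ⊥) (E : Subgroup Y) :
    Nat.card E ≤ (Nat.card P).factorial := by
  have hinj : Function.Injective (fun e : E => (MulAut.conjNormal (H := P) (e : Y)).toEquiv) := by
    intro a b hab
    have h1 : ∀ q : P, (MulAut.conjNormal (H := P) (a : Y)) q = (MulAut.conjNormal (H := P) (b : Y)) q :=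
      fun q => congrArg (fun e : P ≃ P => e q) hab
    have h2 : (b : Y)⁻¹ * a ∈ Subgroup.centralizer (P : Set Y) := by
      rw [Subgroup.mem_centralizer_iff]
      intro q hq
      have h3 := congrArg (fun z : P => (z : Y)) (h1 ⟨q, hq⟩)
      simp only [MulAut.conjNormal_apply] at h3
      calc q * ((b : Y)⁻¹ * a) = (b : Y)⁻¹ * (b * q * (b : Y)⁻¹) * a := by group
        _ = (b : Y)⁻¹ * (a * q * (a : Y)⁻¹) * a := by rw [h3]
        _ = (b : Y)⁻¹ * a * q := by group
    rw [hc, Subgroup.mem_bot] at h2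
    have h4 : (a : Y) = b := by
      have := congrArg (fun z => (b : Y) * z) h2
      simpa using this
    exact Subtype.ext h4
  have h5 := Nat.card_le_card_of_injective _ hinj
  rwa [Nat.card_perm] at h5

theorem card_alt_le (n : ℕ) (hn : n ≤ 6) : Nat.card (alternatingGroup (Fin n)) ≤ 720 := by
  have h1 : Nat.card (alternatingGroup (Fin n)) ≤ Nat.card (Equiv.Perm (Fin n)) :=
    Nat.card_le_card_of_injective (fun x => (x : Equiv.Perm (Fin n))) Subtype.val_injective
  rw [Nat.card_perm, Nat.card_fin] at h1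
  refine h1.trans ?_
  calc n.factorial ≤ (6).factorial := Nat.factorial_le hn
    _ = 720 := by decide

end AltM

open AltM in
theorem specALT (hAuty : SpecAUTY.{u}) (hCyc : SpecCYC) (hTower : SpecTOWER.{u}) :
    SpecALT.{u} := by
  classical
  intro G _ _ _ hG F hF hvis
  set N := Nat.card F with hN
  have hN1 : 1 ≤ N := Nat.card_pos
  obtain ⟨F', hF', hFF', hcard'⟩ := exists_big hG F hF (N * (2 * N + 3))
  refine ⟨F', hF', ?_⟩
  intro E hE hFE
  obtain ⟨E₁, hE₁, hEE₁, htow⟩ := hTower G hG E hE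
  obtain ⟨E₂, hE₂, hE₁₂, hcard₂⟩ := exists_big hG E₁ hE₁ ((720).factorial + 1)
  have hEE₂ : E ≤ E₂ := hEE₁.trans hE₁₂
  obtain ⟨n, Y, hY, P, ⟨X, ρ, S, hX, hE₂X, hsurj, hker, hsoc, hPS, hconf⟩, ⟨iso⟩⟩ :=
    hvis E₂ hE₂ ((hFF'.trans hFE).trans hEE₂)
  have := hsoc.normal
  have : Finite Y := Finite.of_surjective ρ hsurj
  have hEX : E ≤ X := hEE₂.trans hE₂X
  -- the image of `E₂` has the same order
  have hcardimg : ∀ D : Subgroup G, D ≤ E₂ → Nat.card ((D.subgroupOf X).map ρ) = Nat.card D := by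
    intro D hD
    symm
    apply Nat.card_congr
    refine Equiv.ofBijective (fun d : D => (⟨ρ ⟨d, hE₂X (hD d.2)⟩,
      Subgroup.mem_map.mpr ⟨_, by simp [Subgroup.mem_subgroupOf], rfl⟩⟩ :
        ((D.subgroupOf X).map ρ))) ⟨?_, ?_⟩
    · intro a b hab
      have h1 : ρ ⟨a, hE₂X (hD a.2)⟩ = ρ ⟨b, hE₂X (hD b.2)⟩ := congrArg Subtype.val hab
      have h2 : ρ (⟨(a : G)⁻¹ * b, X.mul_mem (X.inv_mem (hE₂X (hD a.2))) (hE₂X (hD b.2))⟩ : X) = 1 := by
        have : (⟨(a : G)⁻¹ * b, X.mul_mem (X.inv_mem (hE₂X (hD a.2))) (hE₂X (hD b.2))⟩ : X)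
            = (⟨a, hE₂X (hD a.2)⟩ : X)⁻¹ * ⟨b, hE₂X (hD b.2)⟩ := rfl
        rw [this, map_mul, map_inv, h1, inv_mul_cancel]
      have h3 := hker _ (E₂.mul_mem (E₂.inv_mem (hD a.2)) (hD b.2)) h2
      have h4 : (a : G)⁻¹ * b = 1 := congrArg Subtype.val h3
      exact Subtype.ext (inv_mul_eq_one.mp h4)
    · rintro ⟨y, hy⟩
      obtain ⟨x, hx, rfl⟩ := Subgroup.mem_map.mp hy
      exact ⟨⟨x, Subgroup.mem_subgroupOf.mp hx⟩, rfl⟩
  -- `n ≥ 7`
  have hn : 7 ≤ n := by
    by_contra hlt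
    have h1 := card_le_factorial hsoc.cent ((E₂.subgroupOf X).map ρ)
    rw [hcardimg E₂ le_rfl] at h1
    have h2 : Nat.card P = Nat.card (alternatingGroup (Fin n)) := Nat.card_congr iso.toEquiv
    rw [h2] at h1
    have h3 := Nat.factorial_le (card_alt_le n (by omega))
    omega
  -- `E` lies in the preimage of `P`
  have hEP : ∀ e, ∀ he : e ∈ E, ρ ⟨e, hEX he⟩ ∈ P := by
    have hex : ∃ x, ∃ hx : x ∈ E, x ≠ 1 ∧ ρ ⟨x, hEX hx⟩ ∈ P := by
      by_contra hno
      push Not at hno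
      have h1 : (E.subgroupOf X).map ρ ⊓ P = ⊥ := by
        rw [eq_bot_iff]
        rintro y ⟨hy1, hy2⟩
        obtain ⟨x, hx, rfl⟩ := Subgroup.mem_map.mp hy1
        rw [Subgroup.mem_bot]
        by_contra hne
        have hxE : (x : G) ∈ E := Subgroup.mem_subgroupOf.mp hx
        have hx1 : (x : G) ≠ 1 := by
          intro h
          apply hne
          have : x = 1 := Subtype.ext h
          rw [this, map_one]
        exact hno x hxE hx1 hy2
      have h2 := hAuty Y P n hn hsoc ⟨iso⟩ _ h1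
      rw [hcardimg E hEE₂] at h2
      have h3 : Nat.card F' ≤ Nat.card E := by
        have := hE
        exact Nat.card_mono (Set.toFinite _) hFE
      have h4 : 5 ≤ N * (2 * N + 3) := by nlinarith
      omega
    obtain ⟨x, hx, hx1, hxP⟩ := hex
    have h5 := htow x hx hx1
    have h6 : Subgroup.closure {y | ∃ g ∈ E₁, y = g * x * g⁻¹} ≤ (P.comap ρ).map X.subtype := by
      rw [Subgroup.closure_le]
      rintro y ⟨g, hg, rfl⟩
      have hgX : g ∈ X := hE₂X (hE₁₂ hg)
      refine Subgroup.mem_map.mpr ⟨⟨g, hgX⟩ * ⟨x, hEX hx⟩ * (⟨g, hgX⟩)⁻¹, ?_, rfl⟩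
      rw [Subgroup.mem_comap, map_mul, map_mul, map_inv]
      exact hsoc.normal.conj_mem _ hxP _
    intro e he
    obtain ⟨z, hz, hze⟩ := Subgroup.mem_map.mp (h6 (h5 he))
    have : z = ⟨e, hEX he⟩ := Subtype.ext hze
    rw [← this]
    exact hz
  -- the new group and homomorphism
  let L : Subgroup G := (P.comap ρ).map X.subtype
  have hLX : ∀ x : L, (x : G) ∈ X := by
    rintro ⟨x, hx⟩
    obtain ⟨z, _, rfl⟩ := Subgroup.mem_map.mp hx
    exact z.2
  have hLP : ∀ x : L, ρ ⟨x, hLX x⟩ ∈ P := by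
    rintro ⟨x, hx⟩
    obtain ⟨z, hz, rfl⟩ := Subgroup.mem_map.mp hx
    exact hz
  have hmemL : ∀ x, ∀ hx : x ∈ X, ρ ⟨x, hx⟩ ∈ P → x ∈ L := by
    intro x hx hxP
    exact Subgroup.mem_map.mpr ⟨⟨x, hx⟩, hxP, rfl⟩
  let r : L →* P :=
    { toFun := fun x => ⟨ρ ⟨x, hLX x⟩, hLP x⟩
      map_one' := by
        apply Subtype.ext
        exact map_one ρ
      map_mul' := by
        intro a b
        apply Subtype.ext
        exact map_mul ρ ⟨a, hLX a⟩ ⟨b, hLX b⟩ }
  have hr : ∀ x : L, ((r x : P) : Y) = ρ ⟨x, hLX x⟩ := fun x => rfl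
  let ρ' : L →* Equiv.Perm (Fin n) := (alternatingGroup (Fin n)).subtype.comp (iso.toMonoidHom.comp r)
  have hρ' : ∀ x : L, ρ' x = ((iso (r x) : alternatingGroup (Fin n)) : Equiv.Perm (Fin n)) :=
    fun x => rfl
  have hLfin : Finite L := by
    have : Finite (P.comap ρ) := inferInstance
    exact Finite.of_surjective (fun z : P.comap ρ => (⟨((z : X) : G),
      Subgroup.mem_map.mpr ⟨z, z.2, rfl⟩⟩ : L)) (by
        rintro ⟨x, hx⟩
        obtain ⟨z, hz, rfl⟩ := Subgroup.mem_map.mp hx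
        exact ⟨⟨z, hz⟩, rfl⟩)
  have hEL : E ≤ L := fun e he => hmemL e (hEX he) (hEP e he)
  have hrsurj : Function.Surjective r := by
    rintro ⟨y, hy⟩
    obtain ⟨x, rfl⟩ := hsurj y
    exact ⟨⟨x, hmemL x x.2 hy⟩, rfl⟩
  have hker' : ∀ x : L, (x : G) ∈ E₂ → r x = 1 → x = 1 := by
    intro x hx h1
    have h2 : ρ ⟨x, hLX x⟩ = 1 := by rw [← hr x, h1]; rfl
    have h3 := hker _ hx h2
    exact Subtype.ext (congrArg (fun z : X => (z : G)) h3)
  have hρker : ∀ x : L, ρ' x = 1 ↔ r x = 1 := by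
    intro x
    rw [hρ']
    constructor
    · intro h
      have h1 : iso (r x) = 1 := Subtype.ext h
      exact (map_eq_one_iff iso iso.injective).mp h1
    · intro h
      rw [h, map_one]
      rfl
  refine ⟨L, n, ρ', hLfin, hEL, ?_, ?_, ?_⟩
  · -- range
    ext σ
    constructor
    · rintro ⟨x, rfl⟩
      rw [hρ']
      exact (iso (r x)).2
    · intro hσ
      obtain ⟨q, hq⟩ := iso.surjective ⟨σ, hσ⟩
      obtain ⟨x, hx⟩ := hrsurj q
      refine ⟨x, ?_⟩
      rw [hρ', hx, hq]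
  · intro x hx h1
    exact hker' x (hEE₂ hx) ((hρker x).mp h1)
  · -- no regular orbit
    intro ω
    by_contra hreg
    push Not at hreg
    -- hreg : ∀ x : L, x ∈ F' → x ≠ 1 → ρ' x ω ≠ ω
    have hF'L : F' ≤ L := hFE.trans hEL
    have hFL : F ≤ L := hFF'.trans hF'L
    have hFE₂ : F ≤ E₂ := (hFF'.trans hFE).trans hEE₂
    have hF'E₂ : F' ≤ E₂ := hFE.trans hEE₂
    -- the groups in `Perm (Fin n)`
    let Fn : Subgroup (Equiv.Perm (Fin n)) := (F.subgroupOf L).map ρ'
    let Sn : Subgroup (Equiv.Perm (Fin n)) :=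
      ((S.subgroupOf P).map iso.toMonoidHom).map (alternatingGroup (Fin n)).subtype
    have hFncard : Nat.card Fn = N := by
      symm
      apply Nat.card_congr
      refine Equiv.ofBijective (fun d : F => (⟨ρ' ⟨d, hFL d.2⟩,
        Subgroup.mem_map.mpr ⟨_, by simp [Subgroup.mem_subgroupOf], rfl⟩⟩ : Fn)) ⟨?_, ?_⟩
      · intro a b hab
        have h1 : ρ' ⟨a, hFL a.2⟩ = ρ' ⟨b, hFL b.2⟩ := congrArg (fun z : Fn => (z : Equiv.Perm (Fin n))) hab
        have h2 : ρ' ((⟨a, hFL a.2⟩ : L)⁻¹ * ⟨b, hFL b.2⟩) = 1 := by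
          rw [map_mul, map_inv, h1, inv_mul_cancel]
        have h3 := hker' _ (E₂.mul_mem (E₂.inv_mem (hFE₂ a.2)) (hFE₂ b.2)) ((hρker _).mp h2)
        have h4 : (a : G)⁻¹ * b = 1 := congrArg Subtype.val h3
        exact Subtype.ext (inv_mul_eq_one.mp h4)
      · rintro ⟨y, hy⟩
        obtain ⟨x, hx, rfl⟩ := Subgroup.mem_map.mp hy
        exact ⟨⟨x, Subgroup.mem_subgroupOf.mp hx⟩, rfl⟩
    have hFnA : Fn ≤ alternatingGroup (Fin n) := by
      rintro y hy
      obtain ⟨x, _, rfl⟩ := Subgroup.mem_map.mp hy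
      rw [hρ']
      exact (iso (r x)).2
    have hSnA : Sn ≤ alternatingGroup (Fin n) := by
      rintro y hy
      obtain ⟨x, _, rfl⟩ := Subgroup.mem_map.mp hy
      exact x.2
    have hcond : ∀ g ∈ alternatingGroup (Fin n), ∃ f ∈ Fn, f ≠ 1 ∧ g * f * g⁻¹ ∈ Sn := by
      intro g hg
      obtain ⟨q, hq⟩ := iso.surjective ⟨g, hg⟩
      obtain ⟨x, hxF, hx1, hxS⟩ := hconf (q : Y)
      have hxL : (x : G) ∈ L := hFL hxF
      have hxr : ((r ⟨x, hxL⟩ : P) : Y) = ρ x := rfl
      refine ⟨ρ' ⟨x, hxL⟩, Subgroup.mem_map.mpr ⟨_, hxF, rfl⟩, ?_, ?_⟩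
      · intro h1
        have h2 := hker' _ (hFE₂ hxF) ((hρker _).mp h1)
        apply hx1
        exact Subtype.ext (congrArg (fun z : L => (z : G)) h2)
      · have h3 : g * ρ' ⟨x, hxL⟩ * g⁻¹
            = ((iso (q * r ⟨x, hxL⟩ * q⁻¹) : alternatingGroup (Fin n)) : Equiv.Perm (Fin n)) := by
          rw [map_mul, map_mul, map_inv, hq, hρ']
          rfl
        rw [h3]
        refine Subgroup.mem_map.mpr ⟨_, Subgroup.mem_map.mpr ⟨_, ?_, rfl⟩, rfl⟩
        rw [Subgroup.mem_subgroupOf]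
        exact hxS
    -- the regular orbits
    have hidx : 2 * N + 3 ≤ Nat.card (F' ⧸ F.subgroupOf F') := by
      have h1 := Subgroup.card_mul_index (F.subgroupOf F')
      have h2 : Nat.card (F.subgroupOf F') = N :=
        Nat.card_congr (Subgroup.subgroupOfEquivOfLe hFF').toEquiv
      rw [h2] at h1
      have h3 : N * (2 * N + 3) ≤ N * (F.subgroupOf F').index := by rw [h1]; exact hcard'
      exact Nat.le_of_mul_le_mul_left h3 hN1
    have := hF'
    obtain ⟨emb⟩ : Nonempty (Fin (2 * N + 3) ↪ F' ⧸ F.subgroupOf F') := by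
      have : Fintype (F' ⧸ F.subgroupOf F') := Fintype.ofFinite _
      apply Function.Embedding.nonempty_of_card_le
      rw [Fintype.card_fin, ← Nat.card_eq_fintype_card]
      exact hidx
    have hreg2 : ∀ a b : F', ρ' ⟨a, hF'L a.2⟩ ω = ρ' ⟨b, hF'L b.2⟩ ω → a = b := by
      intro a b hab
      by_contra hne
      have h1 : ρ' ((⟨b, hF'L b.2⟩ : L)⁻¹ * ⟨a, hF'L a.2⟩) ω = ω := by
        rw [map_mul, map_inv, Equiv.Perm.mul_apply, hab]
        exact Equiv.symm_apply_apply _ _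
      refine hreg _ (F'.mul_mem (F'.inv_mem b.2) a.2) ?_ h1
      intro h2
      have h3 : (b : G)⁻¹ * a = 1 := congrArg Subtype.val h2
      exact hne (Subtype.ext (inv_mul_eq_one.mp h3).symm)
    have horb : ∃ c : Fin (2 * N + 3) → Fin n, ∀ a b, ∀ f ∈ Fn, f (c a) = c b → a = b ∧ f = 1 := by
      refine ⟨fun a => ρ' ⟨((emb a).out : F')⁻¹, hF'L (F'.inv_mem (emb a).out.2)⟩ ω, ?_⟩
      intro a b f hf hab
      obtain ⟨x, hx, rfl⟩ := Subgroup.mem_map.mp hf
      have hxF : (x : G) ∈ F := Subgroup.mem_subgroupOf.mp hx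
      have h1 : ρ' (⟨((⟨x, hFF' hxF⟩ * ((emb a).out)⁻¹ : F') : G), hF'L (Subtype.prop _)⟩ : L) ω
          = ρ' (⟨((((emb b).out)⁻¹ : F') : G), hF'L (Subtype.prop _)⟩ : L) ω := by
        rw [← Equiv.Perm.mul_apply, ← map_mul] at hab
        exact hab
      have h2 := hreg2 _ _ h1
      -- x * a⁻¹ = b⁻¹
      have h3 : ((emb b).out : F')⁻¹ * (emb a).out = ⟨x, hFF' hxF⟩ := by
        rw [← h2]; group
      have h4 : emb a = emb b := by
        rw [← Quotient.out_eq' (emb a), ← Quotient.out_eq' (emb b)]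
        symm
        apply QuotientGroup.eq.mpr
        rw [h3]
        exact hxF
      have h5 : a = b := emb.injective h4
      refine ⟨h5, ?_⟩
      subst h5
      rw [inv_mul_cancel] at h3
      have h6 : x = 1 := by
        have := congrArg (fun z : F' => (z : G)) h3
        exact Subtype.ext this.symm
      rw [h6, map_one]
    have hfinal := hCyc n N Fn Sn hFncard hFnA hSnA hcond horb
    apply hPS
    intro q hq
    have h1 : ((iso ⟨q, hq⟩ : alternatingGroup (Fin n)) : Equiv.Perm (Fin n)) ∈ Sn := by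
      rw [hfinal]; exact (iso ⟨q, hq⟩).2
    obtain ⟨y, hy, hyq⟩ := Subgroup.mem_map.mp h1
    obtain ⟨z, hz, hzy⟩ := Subgroup.mem_map.mp hy
    have h2 : y = iso ⟨q, hq⟩ := Subtype.ext hyq
    have h3 : z = ⟨q, hq⟩ := iso.injective (by rw [← h2]; exact hzy)
    rw [h3, Subgroup.mem_subgroupOf] at hz
    exact hz

end Pool.Agent.Lib.MP66ef6b
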