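import Pool.Agent.Lib.MP_66ef6b_al.Defs

/-!
# MP_66ef6b_al: specifications of the modules

Text with all proofs: `/team-store/MP_66ef6b_al_FINITETYPE.md`. Module `XYZ` proves
`theorem specXYZ : SpecXYZ.{u}` in the file `Xyz.lean`; it may take other Specs as hypotheses.
-/

set_option autoImplicit false

namespace Pool.Agent.Lib.MP66ef6b

universe u

/-! ## Finite groups -/

/-- MIN: minimal normal subgroups of a finite group are elementary abelian or direct products of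
conjugate non-abelian simple groups. -/
def SpecMIN : Prop :=
  ∀ (K : Type u) [Group K] [Finite K] (X : Subgroup K), X.Normal → X ≠ ⊥ →
    ∃ Z : Subgroup K, Z.Normal ∧ Z ≤ X ∧ Z ≠ ⊥ ∧
      ((∃ p : ℕ, p.Prime ∧ (∀ z ∈ Z, z ^ p = 1) ∧ ∀ z ∈ Z, ∀ w ∈ Z, z * w = w * z) ∨
        ∃ (J : Type u) (_ : Finite J) (_ : MulAction K J) (Q : J → Subgroup K) (π : J → K → K),
          (∀ i j : J, ∃ k : K, k • i = j) ∧ SimpleFam Q ∧ Coords Z Q π)

/-- DICH: the dichotomy (a) / (c). -/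
def SpecDICH : Prop :=
  ∀ (K : Type u) [Group K] (J : Type u) [MulAction K J] (X Z M : Subgroup K)
    (Q : J → Subgroup K) (π : J → K → K), Z.Normal → Z ≤ X →
    (∀ M' : Subgroup K, M < M' → X ≤ M') → Coords Z Q π →
      IsProd Z π (M ⊓ Z) ∨ IsSubdirect Q π (M ⊓ Z)

/-- PART: existence of partners in case (c). -/
def SpecPART : Prop :=
  ∀ (K : Type u) [Group K] (J : Type u) [Finite J] [MulAction K J] (Z R : Subgroup K)
    (Q : J → Subgroup K) (π : J → K → K), Coords Z Q π → SimpleFam Q → R ≤ Z →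
    IsSubdirect Q π R → ∀ j, ¬ Q j ≤ R → ∃ (i : J) (θ : K → K), Partner Q π R j i θ

/-- POSA: position 1, case (a). -/
def SpecPOSA : Prop :=
  ∀ (K : Type u) [Group K] [Finite K] (J : Type u) [Finite J] [MulAction K J]
    (Z F M : Subgroup K) (Q : J → Subgroup K) (π : J → K → K), Z.Normal → Coords Z Q π →
    SimpleFam Q → (∀ f ∈ F, ∃ u ∈ Z, ∃ m ∈ M, f = u * m) → IsProd Z π (M ⊓ Z) →
    ∀ j : J, ¬ Q j ≤ M → (∀ f ∈ F, f • j = j → f = 1) →
      ∃ z ∈ Z, ∀ f ∈ F, f ≠ 1 → z⁻¹ * f * z ∉ M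

/-- POSC: position 1, case (c). -/
def SpecPOSC : Prop :=
  ∀ (K : Type u) [Group K] [Finite K] (J : Type u) [Finite J] [MulAction K J]
    (Z F M : Subgroup K) (Q : J → Subgroup K) (π : J → K → K), Z.Normal → Coords Z Q π →
    SimpleFam Q → (∀ f ∈ F, ∃ u ∈ Z, ∃ m ∈ M, f = u * m) →
    (∀ j : J, ¬ Q j ≤ M → ∃ (i : J) (θ : K → K), Partner Q π (M ⊓ Z) j i θ) →
    ∀ j : J, ¬ Q j ≤ M → (∀ f ∈ F, f • j = j → f = 1) →
      ∃ z ∈ Z, ∀ f ∈ F, f ≠ 1 → z⁻¹ * f * z ∉ M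

/-- COUNT: counting bad elements. -/
def SpecCOUNT : Prop :=
  ∀ (K : Type u) [Group K] [Finite K] (Q F : Subgroup K) (Bad : K → K → Prop),
    (∀ f ∈ F, f ≠ 1 → ∃ q ∈ Q, f * q ≠ q * f) →
    (∀ H : Subgroup K, H < Q → Nat.card F * Nat.card H ≤ Nat.card Q) →
    (∀ f ∈ F, f ≠ 1 → ∀ q ∈ Q, ∀ r ∈ Q, Bad f q → Bad f r → q⁻¹ * f * q = r⁻¹ * f * r) →
    ∃ q ∈ Q, ∀ f ∈ F, f ≠ 1 → ¬ Bad f q

/-- LARGE: a simple group with many automorphisms has no subgroups of small index. -/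
def SpecLARGE : Prop :=
  ∀ (K : Type u) [Group K] [Finite K] (Q E : Subgroup K) (N : ℕ), IsSimpleGroup Q →
    (∀ e ∈ E, ∀ q ∈ Q, e * q * e⁻¹ ∈ Q) → (∀ e ∈ E, (∀ q ∈ Q, e * q = q * e) → e = 1) →
    N.factorial.factorial < Nat.card E → ∀ H : Subgroup K, H < Q → N * Nat.card H ≤ Nat.card Q

/-- POS2: position 2. -/
def SpecPOS2 : Prop :=
  ∀ (K : Type u) [Group K] [Finite K] (J : Type u) [Finite J] [MulAction K J]
    (X Z F E M : Subgroup K) (Q : J → Subgroup K) (π : J → K → K), X.Normal → Z.Normal → Z ≤ X →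
    F ≤ E → E ≤ X → Coords Z Q π → SimpleFam Q → Conf F M →
    (∀ x ∈ X, ∃ u ∈ Z, ∃ m ∈ M, x = u * m) →
    (IsProd Z π (M ⊓ Z) ∨ ∀ j : J, ¬ Q j ≤ M → ∃ (i : J) (θ : K → K),
      Partner Q π (M ⊓ Z) j i θ) →
    (∀ x ∈ X, ∀ j : J, x • j = j) → ∀ j : J, ¬ Q j ≤ M →
    (∀ e ∈ E, (∀ q ∈ Q j, e * q = q * e) → e = 1) → (Nat.card F).factorial.factorial < Nat.card E →
    ∃ (Y : Type u) (_ : Group Y) (P : Subgroup Y), Visible F E Y P ∧ Nonempty (Q j ≃* P)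

/-- CASE1: the case of an elementary abelian subgroup `Z`. -/
def SpecCASE1 : Prop :=
  ∀ (K : Type u) [Group K] [Finite K] (X Z F E M : Subgroup K) (p : ℕ), X.Normal → Z.Normal →
    Z ≤ X → F ≤ E → E ≤ X → p.Prime → (∀ z ∈ Z, z ^ p = 1) →
    (∀ z ∈ Z, ∀ w ∈ Z, z * w = w * z) → Conf F M → (∀ x ∈ X, ∃ u ∈ Z, ∃ m ∈ M, x = u * m) →
    M.normalCore = ⊥ → (∀ W : Subgroup K, W ≤ X → NormBy X W → W ⊓ E ≠ ⊥ → E ≤ W) → DataI F E

/-- FG: the main result on finite groups. -/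
def SpecFG : Prop :=
  ∀ (K : Type u) [Group K] [Finite K] (F E E₂ X M : Subgroup K), X.Normal → F ≤ E → E ≤ E₂ →
    E₂ ≤ X → (∀ W : Subgroup K, W.Normal → W ⊓ E₂ ≠ ⊥ → X ≤ W) →
    (∀ W : Subgroup K, W ≤ X → NormBy X W → W ⊓ E ≠ ⊥ → E ≤ W) → ¬ X ≤ M → Conf F M →
    (∀ M' : Subgroup K, M < M' → X ≤ M') →
    (∀ M' : Subgroup K, ¬ X ≤ M' → Conf F M' → M'.normalCore = ⊥) →
    (Nat.card F).factorial.factorial < Nat.card E →
    DataI F E ∨ ∃ (Y : Type u) (_ : Group Y) (P : Subgroup Y), Visible F E Y P ∧ CompFactor K P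

/-- QUOT: choice of `M` and passage to the quotient by its core. -/
def SpecQUOT : Prop :=
  ∀ (K : Type u) [Group K] [Finite K] (F E E₂ X M₀ : Subgroup K), X.Normal → F ≤ E → E ≤ E₂ →
    E₂ ≤ X → (∀ W : Subgroup K, W.Normal → W ⊓ E₂ ≠ ⊥ → X ≤ W) →
    (∀ W : Subgroup K, W ≤ X → NormBy X W → W ⊓ E ≠ ⊥ → E ≤ W) → ¬ X ≤ M₀ → Conf F M₀ →
    ∃ (K' : Type u) (_ : Group K') (_ : Finite K') (φ : K →* K') (M : Subgroup K'),
      Function.Surjective φ ∧ φ.ker ⊓ E₂ = ⊥ ∧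
      (∀ W : Subgroup K', W.Normal → W ⊓ E₂.map φ ≠ ⊥ → X.map φ ≤ W) ∧
      (∀ W : Subgroup K', W ≤ X.map φ → NormBy (X.map φ) W → W ⊓ E.map φ ≠ ⊥ →
        E.map φ ≤ W) ∧ ¬ X.map φ ≤ M ∧ Conf (F.map φ) M ∧
      (∀ M' : Subgroup K', M < M' → X.map φ ≤ M') ∧
      ∀ M' : Subgroup K', ¬ X.map φ ≤ M' → Conf (F.map φ) M' → M'.normalCore = ⊥

/-- TRA1: transport from quotients. -/
def SpecTRA1 : Prop :=
  ∀ (K K' : Type u) [Group K] [Group K'] [Finite K] (F E : Subgroup K) (φ : K →* K'),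
    Function.Surjective φ → φ.ker ⊓ E = ⊥ → F ≤ E →
    (DataI (F.map φ) (E.map φ) → DataI F E) ∧
    (∀ (Y : Type u) [Group Y] (P : Subgroup Y), Visible (F.map φ) (E.map φ) Y P →
      Visible F E Y P) ∧
    ∀ (P : Type u) [Group P], CompFactor K' P → CompFactor K P

/-- TRA2: transport from subgroups. -/
def SpecTRA2 : Prop :=
  ∀ (G : Type u) [Group G] (K F E : Subgroup G), E ≤ K → F ≤ E →
    (DataI (F.subgroupOf K) (E.subgroupOf K) → DataI F E) ∧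
    ∀ (Y : Type u) [Group Y] (P : Subgroup Y), Visible (F.subgroupOf K) (E.subgroupOf K) Y P →
      Visible F E Y P

/-! ## Locally finite groups -/

/-- TOWER. -/
def SpecTOWER : Prop :=
  ∀ (G : Type u) [Group G] [IsSimpleGroup G], LocFin G → ∀ E : Subgroup G, Finite E →
    ∃ E' : Subgroup G, Finite E' ∧ E ≤ E' ∧
      ∀ x ∈ E, x ≠ 1 → E ≤ Subgroup.closure {y | ∃ g ∈ E', y = g * x * g⁻¹}

/-- LOCAL: the local alternative; `P` is a cofinal property of finite subgroups. -/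
def SpecLOCAL : Prop :=
  ∀ (G : Type u) [Group G] [IsSimpleGroup G] [Infinite G], LocFin G → ∀ F H : Subgroup G,
    Finite F → H ≠ ⊤ → Conf F H → ∀ P : Subgroup G → Prop,
    (∀ E : Subgroup G, Finite E → ∃ K : Subgroup G, Finite K ∧ E ≤ K ∧ P K) →
    ∀ E : Subgroup G, Finite E → F ≤ E →
      DataI F E ∨ ∃ (K : Subgroup G) (Y : Type u) (_ : Group Y) (T : Subgroup Y),
        P K ∧ Visible F E Y T ∧ CompFactor K T

/-- ULIM: ultralimits of confined subgroups. -/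
def SpecULIM : Prop :=
  ∀ (G : Type u) [Group G] [Nontrivial G], LocFin G → ∀ F : Subgroup G, Finite F →
    (∀ E : Subgroup G, Finite E → F ≤ E → ∃ X S : Subgroup G, E ≤ X ∧
      (∀ x ∈ X, ∃ f ∈ F, f ≠ 1 ∧ x * f * x⁻¹ ∈ S) ∧ ∀ e ∈ E, e ≠ 1 → ∃ x ∈ X, x * e * x⁻¹ ∉ S) →
    FiniteType G

/-- BACK: the almost simple case and the alternating case imply finite type. -/
def SpecBACK : Prop :=
  ∀ (G : Type u) [Group G] [Nontrivial G], LocFin G →
    (AlmostSimpleType G → FiniteType G) ∧ (AltType G → FiniteType G)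

/-- ULTA: ultraproduct of the affine actions. -/
def SpecULTA : Prop :=
  ∀ (G : Type u) [Group G] [IsSimpleGroup G], LocFin G → ∀ F : Subgroup G, Finite F →
    (∀ E : Subgroup G, Finite E → F ≤ E → DataI F E) → AffineType G

/-- OUT: from almost simple to simple quotients. -/
def SpecOUT : Prop :=
  ∀ (G : Type u) [Group G] [IsSimpleGroup G], LocFin G →
    (∃ E : Subgroup G, Finite E ∧ NotInOut E) → AlmostSimpleType G → SimpleType G

/-! ## Alternating groups -/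

/-- AUTN: the order of the automorphism group of `Alt(n)`. -/
def SpecAUTN : Prop :=
  ∀ n : ℕ, 7 ≤ n → Nat.card (MulAut (alternatingGroup (Fin n))) ≤ n.factorial

/-- AUTY: almost simple groups with alternating socle. -/
def SpecAUTY : Prop :=
  ∀ (Y : Type u) [Group Y] [Finite Y] (Q : Subgroup Y) (n : ℕ), 7 ≤ n → IsSocle Q →
    Nonempty (Q ≃* alternatingGroup (Fin n)) → ∀ E : Subgroup Y, E ⊓ Q = ⊥ → Nat.card E ≤ 2

/-- CYC: if `F ≤ Alt(n)` has at least `2 |F| + 3` regular orbits, then `Alt(n)` has no proper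
subgroup which meets all conjugates of `F` non-trivially. -/
def SpecCYC : Prop :=
  ∀ (n N : ℕ) (F S : Subgroup (Equiv.Perm (Fin n))), Nat.card F = N →
    F ≤ alternatingGroup (Fin n) → S ≤ alternatingGroup (Fin n) →
    (∀ g ∈ alternatingGroup (Fin n), ∃ f ∈ F, f ≠ 1 ∧ g * f * g⁻¹ ∈ S) →
    (∃ c : Fin (2 * N + 3) → Fin n, ∀ a b, ∀ f ∈ F, f (c a) = c b → a = b ∧ f = 1) →
    S = alternatingGroup (Fin n)

/-- ALT: the alternating case. -/
def SpecALT : Prop :=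
  ∀ (G : Type u) [Group G] [IsSimpleGroup G] [Infinite G], LocFin G → ∀ F : Subgroup G,
    Finite F → (∀ E : Subgroup G, Finite E → F ≤ E → ∃ (n : ℕ) (Y : Type u) (_ : Group Y)
      (P : Subgroup Y), Visible F E Y P ∧ Nonempty (P ≃* alternatingGroup (Fin n))) →
    AltType G

/-- MAIN. -/
def SpecMAIN : Prop :=
  ∀ (G : Type u) [Group G] [IsSimpleGroup G] [Infinite G], LocFin G →
    (FiniteType G ↔ AffineType G ∨ AlmostSimpleType G) ∧
    ((∃ E : Subgroup G, Finite E ∧ NotInOut E) → (AlmostSimpleType G ↔ SimpleType G)) ∧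
    (LocAlt G → (FiniteType G ↔ AffineType G ∨ AltType G))

end Pool.Agent.Lib.MP66ef6b
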