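import Pool.Agent.Lib.MP_66ef6b_al.Defs
import Pool.Agent.Lib.MP_66ef6b_al.Spec

section
/-!
# MP_66ef6b_al: basic facts on coordinates
-/
set_option autoImplicit false

namespace Pool.Agent.Lib.MP66ef6b

universe u

variable {K : Type u} [Group K] {Z : Subgroup K} {J : Type u} [MulAction K J]
  {Q : J → Subgroup K} {π : J → K → K}

namespace Coords

theorem one (h : Coords Z Q π) (j : J) : π j 1 = 1 := by
  have h1 := h.mul j 1 Z.one_mem 1 Z.one_mem
  rw [mul_one] at h1
  exact (mul_eq_left.mp h1.symm)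

theorem inv (h : Coords Z Q π) (j : J) {z : K} (hz : z ∈ Z) : π j z⁻¹ = (π j z)⁻¹ := by
  have h1 := h.mul j z⁻¹ (Z.inv_mem hz) z hz
  rw [inv_mul_cancel, h.one] at h1
  exact (eq_inv_of_mul_eq_one_left h1.symm)

theorem memZ (h : Coords Z Q π) (j : J) {z : K} (hz : z ∈ Z) : π j z ∈ Z :=
  h.le j (h.mem j z hz)

/-- Elements of `Z` act on `Q j` through their coordinate. -/
theorem conjZ (h : Coords Z Q π) (j : J) {z q : K} (hz : z ∈ Z) (hq : q ∈ Q j) :
    z * q * z⁻¹ = π j z * q * (π j z)⁻¹ := by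
  have hqZ := h.le j hq
  have hz' := Z.inv_mem hz
  have hp := h.memZ j hz
  refine h.ext _ (Z.mul_mem (Z.mul_mem hz hqZ) hz') _
    (Z.mul_mem (Z.mul_mem hp hqZ) (Z.inv_mem hp)) fun i => ?_
  rw [h.mul i _ (Z.mul_mem hz hqZ) _ hz', h.mul i _ hz _ hqZ, h.inv i hz,
    h.mul i _ (Z.mul_mem hp hqZ) _ (Z.inv_mem hp), h.mul i _ hp _ hqZ, h.inv i hp]
  by_cases hij : i = j
  · subst hij
    rw [h.self i _ (h.mem i z hz)]
  · rw [h.other i j hij q hq, h.other i j hij _ (h.mem j z hz)]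
    simp

theorem conjZ_mem (h : Coords Z Q π) (j : J) {z q : K} (hz : z ∈ Z) (hq : q ∈ Q j) :
    z * q * z⁻¹ ∈ Q j := by
  rw [h.conjZ j hz hq]
  exact (Q j).mul_mem ((Q j).mul_mem (h.mem j z hz) hq) ((Q j).inv_mem (h.mem j z hz))

/-- Elements of different `Q i` commute. -/
theorem comm (h : Coords Z Q π) {i j : J} (hij : i ≠ j) {a b : K} (ha : a ∈ Q i)
    (hb : b ∈ Q j) : a * b = b * a := by
  have h1 := h.conjZ j (h.le i ha) hb
  rw [h.other j i (Ne.symm hij) a ha, one_mul, inv_one, mul_one] at h1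
  exact mul_inv_eq_iff_eq_mul.mp h1

omit [MulAction K J] in
theorem exists_ne_one (hs : SimpleFam Q) (j : J) : ∃ q ∈ Q j, q ≠ 1 := by
  obtain ⟨-, a, ha, b, -, hab⟩ := hs j
  refine ⟨a, ha, ?_⟩
  rintro rfl
  exact hab (by simp)

/-- `Z` acts trivially on the set of factors. -/
theorem smul_eq (h : Coords Z Q π) (hs : SimpleFam Q) {z : K} (hz : z ∈ Z) (j : J) :
    z • j = j := by
  by_contra hne
  obtain ⟨q, hq, hq1⟩ := exists_ne_one hs j
  have h1 : z * q * z⁻¹ ∈ Q (z • j) := h.conjQ z j q hq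
  have h2 : z * q * z⁻¹ ∈ Q j := h.conjZ_mem j hz hq
  have h3 : z * q * z⁻¹ = 1 := by
    rw [← h.self _ _ h2]
    exact h.other _ _ (Ne.symm hne) _ h1
  apply hq1
  rw [mul_inv_eq_one] at h3
  exact (mul_eq_left.mp h3)

/-- `Q j` is trivial only if `j` does not occur: an element of `Q j ⊓ Q i` is trivial. -/
theorem eq_one_of_mem (h : Coords Z Q π) {i j : J} (hij : i ≠ j) {a : K} (ha : a ∈ Q i)
    (hb : a ∈ Q j) : a = 1 := by
  rw [← h.self _ _ hb]
  exact h.other _ _ (Ne.symm hij) _ ha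

/-- Some `Q j` is not contained in `M` if `Z` is not. -/
theorem exists_not_le (h : Coords Z Q π) {M : Subgroup K} (hM : ¬ Z ≤ M) :
    ∃ j, ¬ Q j ≤ M := by
  by_contra hc
  push Not at hc
  exact hM (h.gen.trans (iSup_le hc))

end Coords

/-- The properties of `M` are inherited by its conjugates. -/
theorem Conf.conj {F M : Subgroup K} (h : Conf F M) (c : K) :
    Conf F (M.map (MulAut.conj c).toMonoidHom) := by
  intro k
  obtain ⟨f, hf, hf1, hk⟩ := h (c⁻¹ * k)
  refine ⟨f, hf, hf1, ⟨_, hk, ?_⟩⟩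
  simp only [MulEquiv.coe_toMonoidHom, MulAut.conj_apply]
  group

theorem mem_conj {M : Subgroup K} {c x : K} :
    x ∈ M.map (MulAut.conj c).toMonoidHom ↔ c⁻¹ * x * c ∈ M := by
  constructor
  · rintro ⟨y, hy, rfl⟩
    simp only [MulEquiv.coe_toMonoidHom, MulAut.conj_apply]
    have : c⁻¹ * (c * y * c⁻¹) * c = y := by group
    rwa [this]
  · intro h
    refine ⟨_, h, ?_⟩
    simp only [MulEquiv.coe_toMonoidHom, MulAut.conj_apply]
    group

end Pool.Agent.Lib.MP66ef6b
end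

section
/-!
# MP_66ef6b_al: CASE1, the case of an elementary abelian subgroup
-/
set_option autoImplicit false

namespace Pool.Agent.Lib.MP66ef6b

universe u

namespace Case1M

/-! ### Affine actions -/

section Affine

variable {V : Type u} [AddCommGroup V]

/-- The range of `f v - v` for an affine map `f` with a fixed point. -/
theorem range_eq (f : V → V) (A : V →+ V) (hA : ∀ v w : V, f (v + w) = f v + A w) (v₀ : V)
    (h0 : f v₀ = v₀) :
    (Set.range fun v : V => f v - v) = ((A - AddMonoidHom.id V).range : Set V) := by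
  ext w
  constructor
  · rintro ⟨v, rfl⟩
    refine ⟨v - v₀, ?_⟩
    have h1 := hA v₀ (v - v₀)
    rw [h0, add_sub_cancel] at h1
    simp only [AddMonoidHom.sub_apply, AddMonoidHom.id_apply]
    rw [h1]
    abel
  · rintro ⟨v, rfl⟩
    refine ⟨v₀ + v, ?_⟩
    have h1 := hA v₀ v
    rw [h0] at h1
    simp only [AddMonoidHom.sub_apply, AddMonoidHom.id_apply]
    rw [h1]
    abel

theorem card_fix [Finite V] (f : V → V) (A : V →+ V) (hA : ∀ v w : V, f (v + w) = f v + A w)
    (v₀ : V) (h0 : f v₀ = v₀) :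
    Nat.card {v : V // f v = v} = Nat.card (A - AddMonoidHom.id V).ker := by
  refine Nat.card_congr
    { toFun := fun v => ⟨v.1 - v₀, ?_⟩
      invFun := fun w => ⟨v₀ + w.1, ?_⟩
      left_inv := fun v => by ext; simp
      right_inv := fun w => by ext; simp }
  · have h1 := hA v₀ (v.1 - v₀)
    rw [h0, add_sub_cancel, v.2] at h1
    rw [AddMonoidHom.mem_ker]
    simp only [AddMonoidHom.sub_apply, AddMonoidHom.id_apply]
    rw [sub_eq_zero]
    exact (eq_sub_of_add_eq' h1.symm)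
  · have h2 := w.2
    rw [AddMonoidHom.mem_ker] at h2
    simp only [AddMonoidHom.sub_apply, AddMonoidHom.id_apply] at h2
    rw [sub_eq_zero] at h2
    rw [hA, h0, h2]

theorem card_range_mul [Finite V] (B : V →+ V) :
    Nat.card B.range * Nat.card B.ker = Nat.card V := by
  rw [AddSubgroup.card_eq_card_quotient_mul_card_addSubgroup B.ker,
    Nat.card_congr (QuotientAddGroup.quotientKerEquivRange B).toEquiv]

theorem prime_le [Finite V] {p : ℕ} (hp : p.Prime) (hV : ∀ v : V, p • v = 0) (H : AddSubgroup V)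
    {b : V} (hb : b ∈ H) (hb0 : b ≠ 0) : p ≤ Nat.card H := by
  have : Fact p.Prime := ⟨hp⟩
  have h1 : addOrderOf b = p := addOrderOf_eq_prime (hV b) hb0
  have h2 : AddSubgroup.zmultiples b ≤ H := by
    rw [AddSubgroup.zmultiples_le]
    exact hb
  calc p = Nat.card (AddSubgroup.zmultiples b) := by rw [Nat.card_zmultiples, h1]
    _ ≤ Nat.card H := AddSubgroup.card_le_of_le h2

end Affine

/-- The counting argument. -/
theorem small {K : Type u} [Group K] [Finite K] (X F : Subgroup K) {V : Type u} [AddCommGroup V]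
    [Finite V] [MulAction X V]
    (hA : ∀ g : X, ∃ A : V →+ V, ∀ v w : V, g • (v + w) = g • v + A w)
    (hcov : ∀ v : V, ∃ x : X, (x : K) ∈ F ∧ x ≠ 1 ∧ x • v = v) :
    ∃ x : X, (x : K) ∈ F ∧ x ≠ 1 ∧ ∃ v₀ : V, x • v₀ = v₀ ∧
      (Set.range fun v : V => x • v - v).ncard ≤ Nat.card F := by
  classical
  have := Fintype.ofFinite X
  have := Fintype.ofFinite V
  by_contra hc
  push Not at hc
  set S : Finset X := Finset.univ.filter fun x : X => (x : K) ∈ F ∧ x ≠ 1 with hS
  have hScard : S.card ≤ Nat.card F := by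
    have h1 : Nat.card S ≤ Nat.card F :=
      Nat.card_le_card_of_injective
        (fun x : S => (⟨(x.1 : K), ((Finset.mem_filter.mp x.2).2).1⟩ : F)) fun x y hxy => by
          ext
          exact congrArg (fun z : F => (z : K)) hxy
    rwa [Nat.card_eq_fintype_card, Fintype.card_coe] at h1
  have hfix : ∀ x ∈ S, (Finset.univ.filter fun v : V => x • v = v).card * (Nat.card F + 1) ≤
      Fintype.card V := by
    intro x hx
    obtain ⟨hxF, hx1⟩ := (Finset.mem_filter.mp hx).2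
    rcases Finset.eq_empty_or_nonempty (Finset.univ.filter fun v : V => x • v = v) with h | h
    · rw [h]; simp
    obtain ⟨v₀, hv₀⟩ := h
    have h0 : x • v₀ = v₀ := (Finset.mem_filter.mp hv₀).2
    obtain ⟨A, hA'⟩ := hA x
    have h2 := hc x hxF hx1 v₀ h0
    rw [range_eq (fun v => x • v) A hA' v₀ h0] at h2
    have h3 := card_fix (fun v : V => x • v) A hA' v₀ h0
    have h4 := card_range_mul (A - AddMonoidHom.id V)
    rw [← h3] at h4
    have h5 : Nat.card {v : V // x • v = v} =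
        (Finset.univ.filter fun v : V => x • v = v).card := by
      rw [Nat.card_eq_fintype_card, Fintype.card_subtype]
    rw [h5, Nat.card_eq_fintype_card (α := V)] at h4
    rw [← h4, mul_comm]
    refine Nat.mul_le_mul_right _ ?_
    have h6 : ((A - AddMonoidHom.id V).range : Set V).ncard =
        Nat.card (A - AddMonoidHom.id V).range := rfl
    omega
  have hcov' : Fintype.card V ≤ ∑ x ∈ S, (Finset.univ.filter fun v : V => x • v = v).card := by
    rw [← Finset.card_univ]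
    refine le_trans (Finset.card_le_card ?_) Finset.card_biUnion_le
    intro v _
    obtain ⟨x, hxF, hx1, hxv⟩ := hcov v
    rw [Finset.mem_biUnion]
    exact ⟨x, by simp [hS, hxF, hx1], by simp [hxv]⟩
  have h7 : Fintype.card V * (Nat.card F + 1) ≤ Nat.card F * Fintype.card V := by
    calc Fintype.card V * (Nat.card F + 1)
        ≤ (∑ x ∈ S, (Finset.univ.filter fun v : V => x • v = v).card) * (Nat.card F + 1) :=
          Nat.mul_le_mul_right _ hcov'
      _ = ∑ x ∈ S, (Finset.univ.filter fun v : V => x • v = v).card * (Nat.card F + 1) :=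
          Finset.sum_mul _ _ _
      _ ≤ ∑ _x ∈ S, Fintype.card V := Finset.sum_le_sum hfix
      _ = S.card * Fintype.card V := by rw [Finset.sum_const, smul_eq_mul]
      _ ≤ Nat.card F * Fintype.card V := Nat.mul_le_mul_right _ hScard
  have h8 : 0 < Fintype.card V := Fintype.card_pos
  nlinarith

/-! ### The affine space `Z / R` -/

section Space

variable {K : Type u} [Group K] {X Z M : Subgroup K}

theorem normal_of_comm (hab : ∀ z ∈ Z, ∀ w ∈ Z, z * w = w * z) : (M.subgroupOf Z).Normal := by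
  constructor
  intro n hn g
  have : g * n * g⁻¹ = n := by
    apply Subtype.ext
    simp only [Subgroup.coe_mul, Subgroup.coe_inv]
    rw [hab g g.2 n n.2]
    group
  rw [this]
  exact hn

theorem space (hXZ : ∀ x ∈ X, ∀ z ∈ Z, x * z * x⁻¹ ∈ Z) (hZX : Z ≤ X)
    (hab : ∀ z ∈ Z, ∀ w ∈ Z, z * w = w * z) (hM : ∀ x ∈ X, ∃ u ∈ Z, ∃ m ∈ M, x = u * m)
    {p : ℕ} (hp : ∀ z ∈ Z, z ^ p = 1) :
    ∃ (V : Type u) (_ : AddCommGroup V) (_ : MulAction X V) (mk : Z → V),
      Function.Surjective mk ∧ (∀ (x : X) (v w : Z), x • mk v = mk w ↔ (w : K)⁻¹ * x * v ∈ M) ∧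
      (∀ v : V, p • v = 0) ∧
      ∀ g : X, ∃ A : V →+ V, ∀ v w : V, g • (v + w) = g • v + A w := by
  classical
  have hN : (M.subgroupOf Z).Normal := normal_of_comm hab
  let W := Z ⧸ M.subgroupOf Z
  let mk : Z → Additive W := fun z => Additive.ofMul (QuotientGroup.mk z)
  have hmk : ∀ v w : Z, mk v = mk w ↔ (v : K)⁻¹ * w ∈ M := by
    intro v w
    change (QuotientGroup.mk v : W) = QuotientGroup.mk w ↔ _
    rw [QuotientGroup.eq, Subgroup.mem_subgroupOf]
    simp
  have hmul : ∀ v w : Z, mk (v * w) = mk v + mk w := fun v w => rfl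
  have hsurj : Function.Surjective mk := fun q => Quotient.inductionOn' q fun z => ⟨z, rfl⟩
  let instV : AddCommGroup (Additive W) :=
    { (inferInstance : AddGroup (Additive W)) with
      add_comm := by
        intro a b
        obtain ⟨v, rfl⟩ := hsurj a
        obtain ⟨w, rfl⟩ := hsurj b
        change mk (v * w) = mk (w * v)
        congr 1
        exact Subtype.ext (hab v v.2 w w.2) }
  have hex : ∀ (x : X) (v : Z), ∃ w : Z, (w : K)⁻¹ * x * v ∈ M := by
    intro x v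
    obtain ⟨u, hu, m, hm, h⟩ := hM (x * v) (X.mul_mem x.2 (hZX v.2))
    refine ⟨⟨u, hu⟩, ?_⟩
    rw [mul_assoc, h]
    simpa using hm
  choose c hc using hex
  have hsurj' := hsurj
  choose out hout using hsurj'
  let act : X → Additive W → Additive W := fun x q => mk (c x (out q))
  have hact : ∀ (x : X) (v w : Z), act x (mk v) = mk w ↔ (w : K)⁻¹ * x * v ∈ M := by
    intro x v w
    have h1 : ((v : Z) : K)⁻¹ * (out (mk v) : Z) ∈ M := (hmk _ _).mp (hout (mk v)).symm
    have h2 := hc x (out (mk v))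
    change mk (c x (out (mk v))) = mk w ↔ _
    rw [hmk]
    have h3 : ((c x (out (mk v)) : Z) : K)⁻¹ * x * v ∈ M := by
      have := M.mul_mem h2 (M.inv_mem h1)
      convert this using 1
      group
    constructor
    · intro h
      have := M.mul_mem (M.inv_mem h) h3
      convert this using 1
      group
    · intro h
      have := M.mul_mem h3 (M.inv_mem h)
      convert this using 1
      group
  let instA : MulAction X (Additive W) :=
    { smul := act
      one_smul := by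
        intro q
        obtain ⟨v, rfl⟩ : ∃ v, mk v = q := ⟨out q, hout q⟩
        change act 1 (mk v) = mk v
        rw [hact]
        simp
      mul_smul := by
        intro x y q
        obtain ⟨v, rfl⟩ : ∃ v, mk v = q := ⟨out q, hout q⟩
        change act (x * y) (mk v) = act x (act y (mk v))
        have h1 : act y (mk v) = mk (c y v) := (hact _ _ _).mpr (hc y v)
        have h2 : act x (mk (c y v)) = mk (c x (c y v)) := (hact _ _ _).mpr (hc x (c y v))
        rw [h1, h2, hact]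
        have := M.mul_mem (hc x (c y v)) (hc y v)
        convert this using 1
        simp only [Subgroup.coe_mul]
        group }
  refine ⟨Additive W, instV, instA, mk, fun q => ⟨out q, hout q⟩, hact, ?_, ?_⟩
  · intro q
    obtain ⟨v, rfl⟩ : ∃ v, mk v = q := ⟨out q, hout q⟩
    have h1 : ∀ n : ℕ, mk (v ^ n) = n • mk v := by
      intro n
      induction n with
      | zero => simp; rfl
      | succ n ih => rw [pow_succ, hmul, ih, succ_nsmul]
    rw [← h1]
    have : v ^ p = 1 := Subtype.ext (by simpa using hp v v.2)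
    rw [this]
    rfl
  · intro g
    let φ : Z →* Z :=
      { toFun := fun z => ⟨g * z * (g : K)⁻¹, hXZ g g.2 z z.2⟩
        map_one' := by ext; simp
        map_mul' := by
          intro a b
          ext
          simp }
    have hφ : M.subgroupOf Z ≤ (M.subgroupOf Z).comap φ := by
      intro r hr
      rw [Subgroup.mem_comap, Subgroup.mem_subgroupOf]
      rw [Subgroup.mem_subgroupOf] at hr
      change (g : K) * r * (g : K)⁻¹ ∈ M
      obtain ⟨u, hu, m, hm, h⟩ := hM g g.2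
      have h1 : m * r * m⁻¹ ∈ M := M.mul_mem (M.mul_mem hm hr) (M.inv_mem hm)
      have h2 : (g : K) * r * (g : K)⁻¹ = u * (m * r * m⁻¹) * u⁻¹ := by
        rw [h]; group
      have h3 : m * r * m⁻¹ ∈ Z := by
        have h4 : m * r * m⁻¹ = u⁻¹ * ((g : K) * r * (g : K)⁻¹) * u := by rw [h2]; group
        rw [h4]
        exact Z.mul_mem (Z.mul_mem (Z.inv_mem hu) (hXZ g g.2 r r.2)) hu
      rw [h2, hab u hu _ h3]
      simpa using h1
    refine ⟨MonoidHom.toAdditive (QuotientGroup.map _ _ φ hφ), ?_⟩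
    intro a b
    obtain ⟨v, rfl⟩ : ∃ v, mk v = a := ⟨out a, hout a⟩
    obtain ⟨w, rfl⟩ : ∃ v, mk v = b := ⟨out b, hout b⟩
    have h1 : (MonoidHom.toAdditive (QuotientGroup.map _ _ φ hφ)) (mk w) = mk (φ w) := rfl
    rw [h1]
    have h2 : act g (mk v) = mk (c g v) := (hact _ _ _).mpr (hc g v)
    change act g (mk (v * w)) = act g (mk v) + mk (φ w)
    rw [h2]
    change act g (mk (v * w)) = mk (c g v * φ w)
    rw [hact]
    have h3 : ((c g v * φ w : Z) : K)⁻¹ * g * ((v * w : Z) : K) = ((c g v : Z) : K)⁻¹ * g * v := by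
      have h4 : ((c g v * φ w : Z) : K) = (c g v : K) * (g * w * (g : K)⁻¹) := rfl
      rw [h4, hab _ (c g v).2 _ (hXZ g g.2 w w.2)]
      have h5 : ((v * w : Z) : K) = w * v := by
        rw [← hab v v.2 w w.2]; rfl
      rw [h5]
      group
    rw [h3]
    exact hc g v

end Space

end Case1M

open Case1M

/-- CASE1: the case of an elementary abelian subgroup `Z`. -/
theorem specCASE1 : SpecCASE1.{u} := by
  intro K _ _ X Z F E M p hX hZ hZX hFE hEX hp hpZ hab hConf hXM hcore hT2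
  -- `F` and `E` are not trivial
  have hE1 : E ≠ ⊥ := by
    rintro rfl
    obtain ⟨f, hf, hf1, -⟩ := hConf 1
    exact hf1 (by simpa using hFE hf)
  -- the choice of the conjugate
  obtain ⟨c, hc⟩ : ∃ c : K, ∀ x ∈ E, (∀ y ∈ X, y * x * y⁻¹ ∈
      M.map (MulAut.conj c).toMonoidHom) → x = 1 := by
    by_contra hcon
    push Not at hcon
    apply hE1
    rw [eq_bot_iff, ← hcore]
    intro e he c
    obtain ⟨x, hxE, hx, hx1⟩ := hcon c⁻¹
    let W : Subgroup K :=
      { carrier := {w | w ∈ X ∧ ∀ y ∈ X, y * w * y⁻¹ ∈ M.map (MulAut.conj c⁻¹).toMonoidHom}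
        one_mem' := ⟨X.one_mem, fun y _ => by simp⟩
        mul_mem' := by
          intro a b ha hb
          refine ⟨X.mul_mem ha.1 hb.1, fun y hy => ?_⟩
          have := Subgroup.mul_mem _ (ha.2 y hy) (hb.2 y hy)
          convert this using 1
          group
        inv_mem' := by
          intro a ha
          refine ⟨X.inv_mem ha.1, fun y hy => ?_⟩
          have := Subgroup.inv_mem _ (ha.2 y hy)
          convert this using 1
          group }
    have hW : E ≤ W := by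
      refine hT2 W (fun w hw => hw.1) ?_ ?_
      · intro x hx w hw
        refine ⟨X.mul_mem (X.mul_mem hx hw.1) (X.inv_mem hx), fun y hy => ?_⟩
        have := hw.2 (y * x) (X.mul_mem hy hx)
        convert this using 1
        group
      · intro h
        apply hx1
        have : x ∈ W ⊓ E := ⟨⟨hEX hxE, hx⟩, hxE⟩
        rw [h] at this
        simpa using this
    have h1 := (hW he).2 1 X.one_mem
    rw [mem_conj] at h1
    convert h1 using 1
    group
  set M' := M.map (MulAut.conj c).toMonoidHom with hM'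
  have hConf' : Conf F M' := hConf.conj c
  have hXM' : ∀ x ∈ X, ∃ u ∈ Z, ∃ m ∈ M', x = u * m := by
    intro x hx
    obtain ⟨u, hu, m, hm, h⟩ := hXM (c⁻¹ * x * c) (by simpa using hX.conj_mem x hx c⁻¹)
    refine ⟨c * u * c⁻¹, hZ.conj_mem u hu c, c * m * c⁻¹, ?_, ?_⟩
    · rw [hM', mem_conj]
      convert hm using 1
      group
    · have : x = c * (c⁻¹ * x * c) * c⁻¹ := by group
      rw [this, h]
      group
  obtain ⟨V, instV, instA, mk, hsurj, hsmul, hpV, hA⟩ :=
    space (fun x _ z hz => hZ.conj_mem z hz x) hZX hab hXM' hpZ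
  have : Finite V := Finite.of_surjective mk hsurj
  have hcov : ∀ v : V, ∃ x : X, (x : K) ∈ F ∧ x ≠ 1 ∧ x • v = v := by
    intro v
    obtain ⟨z, rfl⟩ := hsurj v
    obtain ⟨f, hf, hf1, h⟩ := hConf' (z : K)⁻¹
    refine ⟨⟨f, hEX (hFE hf)⟩, hf, fun h1 => hf1 (congrArg Subtype.val h1), ?_⟩
    rw [hsmul]
    simpa using h
  have hmove : ∀ x : X, (x : K) ∈ F → x ≠ 1 → ∃ v : V, x • v ≠ v := by
    intro x hx hx1
    by_contra hcon
    push Not at hcon
    apply hx1
    apply Subtype.ext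
    refine hc x (hFE hx) fun y hy => ?_
    obtain ⟨u, hu, m, hm, h⟩ := hXM' y⁻¹ (X.inv_mem hy)
    have h1 := (hsmul x ⟨u, hu⟩ ⟨u, hu⟩).mp (hcon _)
    have h2 : y = m⁻¹ * u⁻¹ := by rw [← inv_inv y, h]; group
    have h3 := M'.mul_mem (M'.mul_mem (M'.inv_mem hm) h1) hm
    rw [h2]
    convert h3 using 1
    group
  obtain ⟨x, hxF, hx1, v₀, hv₀, hcard⟩ := small X F hA hcov
  refine ⟨X, p, V, instV, instA, hEX, hp, ?_, hpV, hA, hmove, hcov, x, hxF, hx1,
    Set.toFinite _, hcard⟩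
  obtain ⟨A, hA'⟩ := hA x
  rw [range_eq (fun v => x • v) A hA' v₀ hv₀] at hcard
  obtain ⟨v, hv⟩ := hmove x hxF hx1
  refine le_trans (prime_le hp hpV (A - AddMonoidHom.id V).range (b := x • v - v) ?_ ?_) hcard
  · have : x • v - v ∈ ((A - AddMonoidHom.id V).range : Set V) := by
      rw [← range_eq (fun v => x • v) A hA' v₀ hv₀]
      exact ⟨v, rfl⟩
    exact this
  · rwa [sub_ne_zero]

end Pool.Agent.Lib.MP66ef6b
end

section
/-!
# MP_66ef6b_al: module COUNT
-/
set_option autoImplicit false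

namespace Pool.Agent.Lib.MP66ef6b

universe u

namespace CountM

theorem card_filter {K : Type u} [Group K] [Fintype K] [DecidableEq K] (Q : Subgroup K)
    [DecidablePred fun q => q ∈ Q] : (Finset.univ.filter fun q => q ∈ Q).card = Nat.card Q := by
  rw [Nat.card_eq_fintype_card, ← Fintype.card_subtype]

/-- A set of elements of `Q` on which `q⁻¹ f q` is constant has at most `|H|` elements for the
proper subgroup `H = Q ∩ C(f)` of `Q`. -/
theorem card_bad {K : Type u} [Group K] [Finite K] (Q : Subgroup K) (f : K)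
    (hf : ∃ q ∈ Q, f * q ≠ q * f) (B : Set K) (hB : B ⊆ Q)
    (hc : ∀ q ∈ B, ∀ r ∈ B, q⁻¹ * f * q = r⁻¹ * f * r) :
    ∃ H : Subgroup K, H < Q ∧ B.ncard ≤ Nat.card H := by
  obtain ⟨q₀, hq₀, hne⟩ := hf
  let H : Subgroup K := Q ⊓ Subgroup.centralizer {f}
  have hlt : H < Q := by
    refine lt_of_le_of_ne inf_le_left fun h => ?_
    have h1 : q₀ ∈ H := by rw [h]; exact hq₀
    have h2 := (Subgroup.mem_centralizer_iff.mp h1.2) f rfl
    exact hne h2
  refine ⟨H, hlt, ?_⟩
  rcases B.eq_empty_or_nonempty with rfl | ⟨r, hr⟩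
  · simp
  have hsub : (fun q : K => q * r⁻¹) '' B ⊆ (H : Set K) := by
    rintro _ ⟨q, hq, rfl⟩
    refine ⟨Q.mul_mem (hB hq) (Q.inv_mem (hB hr)), ?_⟩
    refine Subgroup.mem_centralizer_iff.mpr fun f' hf' => ?_
    rw [Set.mem_singleton_iff.mp hf']
    have h1 := hc q hq r hr
    have h2 : f * q = q * (r⁻¹ * f * r) := by rw [← h1]; group
    calc f * (q * r⁻¹) = (f * q) * r⁻¹ := by group
      _ = q * (r⁻¹ * f * r) * r⁻¹ := by rw [h2]
      _ = q * r⁻¹ * f := by group
  calc B.ncard = ((fun q : K => q * r⁻¹) '' B).ncard :=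
        (Set.ncard_image_of_injective B (mul_left_injective r⁻¹)).symm
    _ ≤ (H : Set K).ncard := Set.ncard_le_ncard hsub (Set.toFinite _)
    _ = Nat.card H := rfl

end CountM

open CountM in
theorem specCOUNT : SpecCOUNT.{u} := by
  intro K _ _ Q F Bad hF hH hBad
  classical
  have := Fintype.ofFinite K
  by_contra hcon
  push Not at hcon
  set Fs : Finset K := Finset.univ.filter fun f => f ∈ F ∧ f ≠ 1 with hFs
  set Qs : Finset K := Finset.univ.filter fun q => q ∈ Q with hQs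
  have hQc : Qs.card = Nat.card Q := by
    rw [hQs, card_filter]
  have hFc : Fs.card + 1 = Nat.card F := by
    have h1 : (insert 1 Fs) = Finset.univ.filter fun f => f ∈ F := by
      ext x
      simp only [hFs, Finset.mem_insert, Finset.mem_filter, Finset.mem_univ, true_and]
      constructor
      · rintro (rfl | ⟨h, -⟩)
        · exact F.one_mem
        · exact h
      · intro h
        by_cases hx : x = 1
        · exact Or.inl hx
        · exact Or.inr ⟨h, hx⟩
    have h2 : (1 : K) ∉ Fs := by simp [hFs]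
    rw [← Finset.card_insert_of_notMem h2, h1, card_filter]
  have hcover : Qs ⊆ Fs.biUnion fun f => Qs.filter fun q => Bad f q := by
    intro q hq
    have hq' : q ∈ Q := (Finset.mem_filter.mp hq).2
    obtain ⟨f, hf, hf1, hb⟩ := hcon q hq'
    exact Finset.mem_biUnion.mpr ⟨f, Finset.mem_filter.mpr ⟨Finset.mem_univ _, hf, hf1⟩,
      Finset.mem_filter.mpr ⟨hq, hb⟩⟩
  have hle : ∀ f ∈ Fs, Nat.card F * (Qs.filter fun q => Bad f q).card ≤ Nat.card Q := by
    intro f hf
    obtain ⟨hfF, hf1⟩ := (Finset.mem_filter.mp hf).2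
    obtain ⟨H, hHQ, hc⟩ := card_bad Q f (hF f hfF hf1)
      ((Qs.filter fun q => Bad f q : Finset K) : Set K)
      (fun q hq => by
        have := Finset.mem_filter.mp (Finset.mem_coe.mp hq)
        exact (Finset.mem_filter.mp this.1).2)
      (fun q hq r hr => by
        have h1 := Finset.mem_filter.mp (Finset.mem_coe.mp hq)
        have h2 := Finset.mem_filter.mp (Finset.mem_coe.mp hr)
        exact hBad f hfF hf1 q (Finset.mem_filter.mp h1.1).2 r (Finset.mem_filter.mp h2.1).2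
          h1.2 h2.2)
    rw [Set.ncard_coe_finset] at hc
    exact (Nat.mul_le_mul_left _ hc).trans (hH H hHQ)
  have h1 : Nat.card Q ≤ ∑ f ∈ Fs, (Qs.filter fun q => Bad f q).card := by
    rw [← hQc]
    exact (Finset.card_le_card hcover).trans Finset.card_biUnion_le
  have h2 : Nat.card F * Nat.card Q ≤ Fs.card * Nat.card Q := by
    calc Nat.card F * Nat.card Q ≤ Nat.card F * ∑ f ∈ Fs, (Qs.filter fun q => Bad f q).card :=
          Nat.mul_le_mul_left _ h1
      _ = ∑ f ∈ Fs, Nat.card F * (Qs.filter fun q => Bad f q).card := Finset.mul_sum _ _ _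
      _ ≤ ∑ f ∈ Fs, Nat.card Q := Finset.sum_le_sum hle
      _ = Fs.card * Nat.card Q := by rw [Finset.sum_const, smul_eq_mul]
  have h3 : 0 < Nat.card Q := Nat.card_pos
  have h4 := Nat.le_of_mul_le_mul_right h2 h3
  omega

end Pool.Agent.Lib.MP66ef6b
end

section
/-! # CYC: subgroups of alternating groups meeting all conjugates of a subgroup with many regular
orbits -/
set_option autoImplicit false

namespace Pool.Agent.Lib.MP66ef6b

universe u

namespace CycM

open Equiv Equiv.Perm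

variable {α : Type} [DecidableEq α] [Fintype α]

/-- a 3-cycle in a product of two conjugates -/
theorem half {F S : Subgroup (Perm α)} {N : ℕ} (hN : Nat.card F = N)
    (hS : ∀ g ∈ alternatingGroup α, ∃ f ∈ F, f ≠ 1 ∧ g * f * g⁻¹ ∈ S)
    {ι : Type} (c : ι → α) (hc : ∀ a b, ∀ f ∈ F, f (c a) = c b → a = b ∧ f = 1)
    (x y : ι) (d : Fin N → ι) (hd : Function.Injective d) (hxy : x ≠ y) (hdx : ∀ i, d i ≠ x)
    (hdy : ∀ i, d i ≠ y) :
    ∃ a ∈ S, ∃ f ∈ F, (∃ j, a (c x) = c (d j)) ∧ ∀ z, a z ≠ z → z = c x ∨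
      ∃ u, (u = y ∨ ∃ i, u = d i) ∧ (z = c u ∨ z = f (c u)) := by
  classical
  have hcc : ∀ a b, c a = c b → a = b := fun a b h => (hc a b 1 F.one_mem h).1
  set h : Fin N → Perm α := fun i => swap (c y) (c x) * swap (c x) (c (d i)) with hh
  have hhA : ∀ i, (h i)⁻¹ ∈ alternatingGroup α := by
    intro i
    apply (alternatingGroup α).inv_mem
    exact mul_mem_alternatingGroup_of_isSwap
      ⟨_, _, fun e => hxy (hcc _ _ e).symm, rfl⟩ ⟨_, _, fun e => hdx i (hcc _ _ e).symm, rfl⟩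
  choose f hfF hf1 hfS using fun i => hS (h i)⁻¹ (hhA i)
  -- pigeonhole
  obtain ⟨i, j, hij, hfij⟩ : ∃ i j, i ≠ j ∧ f i = f j := by
    have := Fintype.ofFinite F
    set t : Finset (Perm α) := (Finset.univ.image (fun f : F => (f : Perm α))).erase 1 with ht
    have h1mem : (1 : Perm α) ∈ Finset.univ.image (fun f : F => (f : Perm α)) :=
      Finset.mem_image.mpr ⟨1, Finset.mem_univ _, rfl⟩
    have hcard : t.card < (Finset.univ : Finset (Fin N)).card := by
      rw [ht, Finset.card_erase_of_mem h1mem,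
        Finset.card_image_of_injective _ Subtype.val_injective, Finset.card_univ, Finset.card_univ,
        Fintype.card_fin, ← hN, Nat.card_eq_fintype_card]
      have : 0 < Fintype.card F := Fintype.card_pos
      omega
    obtain ⟨i, -, j, -, hij, hfij⟩ := Finset.exists_ne_map_eq_of_card_lt_of_maps_to hcard
      (f := f) (fun i _ => by
        rw [ht, Finset.mem_coe, Finset.mem_erase]
        exact ⟨hf1 i, Finset.mem_image.mpr ⟨⟨f i, hfF i⟩, Finset.mem_univ _, rfl⟩⟩)
    exact ⟨i, j, hij, hfij⟩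
  have hsi := hfS i
  have hsj := hfS j
  rw [← hfij] at hsj
  have hfne := hf1 i
  have hfm := hfF i
  set φ := f i with hφ
  rw [inv_inv] at hsi hsj
  -- notation
  have hno : ∀ u v, φ (c u) ≠ c v := fun u v e => hfne (hc u v φ hfm e).2
  have hYX : c y ≠ c x := fun e => hxy (hcc _ _ e).symm
  have hPX : c (d i) ≠ c x := fun e => hdx i (hcc _ _ e)
  have hPY : c (d i) ≠ c y := fun e => hdy i (hcc _ _ e)
  have hQX : c (d j) ≠ c x := fun e => hdx j (hcc _ _ e)
  have hQY : c (d j) ≠ c y := fun e => hdy j (hcc _ _ e)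
  have hPQ : c (d i) ≠ c (d j) := fun e => hij (hd (hcc _ _ e))
  have e0 : ∀ P : α, P ≠ c x → P ≠ c y →
      swap (c y) (c x) * swap (c x) P = swap (c y) P * swap (c y) (c x) := by
    intro P h1 h2
    rw [mul_swap_eq_swap_mul, swap_apply_right, swap_apply_of_ne_of_ne h2 h1]
  have e1 : h i * (h j)⁻¹ = swap (c y) (c (d i)) * swap (c y) (c (d j)) := by
    calc h i * (h j)⁻¹ = (swap (c y) (c x) * swap (c x) (c (d i))) * swap (c x) (c (d j)) *
          swap (c y) (c x) := by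
          show swap (c y) (c x) * swap (c x) (c (d i)) *
            (swap (c y) (c x) * swap (c x) (c (d j)))⁻¹ = _
          rw [mul_inv_rev, swap_inv, swap_inv]
          simp only [mul_assoc]
      _ = swap (c y) (c (d i)) * (swap (c y) (c x) * swap (c x) (c (d j))) *
          swap (c y) (c x) := by
          rw [e0 _ hPX hPY]
          simp only [mul_assoc]
      _ = swap (c y) (c (d i)) * swap (c y) (c (d j)) * (swap (c y) (c x) * swap (c y) (c x)) := by
          rw [e0 _ hQX hQY]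
          simp only [mul_assoc]
      _ = _ := by rw [swap_mul_self, mul_one]
  have e2 : (h i)⁻¹ * h j = swap (c x) (c (d i)) * swap (c x) (c (d j)) := by
    show (swap (c y) (c x) * swap (c x) (c (d i)))⁻¹ *
      (swap (c y) (c x) * swap (c x) (c (d j))) = _
    rw [mul_inv_rev, swap_inv, swap_inv, mul_assoc, swap_mul_self_mul]
  have e3 : φ * (swap (c y) (c (d i)) * swap (c y) (c (d j))) =
      swap (φ (c y)) (φ (c (d i))) * swap (φ (c y)) (φ (c (d j))) * φ := by
    rw [← mul_assoc, mul_swap_eq_swap_mul φ (c y) (c (d i)), mul_assoc,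
      mul_swap_eq_swap_mul φ (c y) (c (d j)), ← mul_assoc]
  set k := swap (φ (c y)) (φ (c (d i))) * swap (φ (c y)) (φ (c (d j))) with hk
  have hfix : ∀ u, h i (φ (c u)) = φ (c u) := by
    intro u
    show swap (c y) (c x) (swap (c x) (c (d i)) (φ (c u))) = _
    rw [swap_apply_of_ne_of_ne (hno _ _) (hno _ _), swap_apply_of_ne_of_ne (hno _ _) (hno _ _)]
  have e4 : h i * k = k * h i := by
    rw [hk, ← mul_assoc, mul_swap_eq_swap_mul (h i) (φ (c y)) (φ (c (d i))), mul_assoc,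
      mul_swap_eq_swap_mul (h i) (φ (c y)) (φ (c (d j))), hfix, hfix, hfix, ← mul_assoc]
  have e5 : (h i)⁻¹ * φ * h i * ((h j)⁻¹ * φ * h j)⁻¹ =
      k * (swap (c x) (c (d i)) * swap (c x) (c (d j))) := by
    calc (h i)⁻¹ * φ * h i * ((h j)⁻¹ * φ * h j)⁻¹
        = (h i)⁻¹ * (φ * (h i * (h j)⁻¹)) * φ⁻¹ * h j := by group
      _ = (h i)⁻¹ * (k * φ) * φ⁻¹ * h j := by rw [e1, e3]
      _ = (h i)⁻¹ * (k * h i) * ((h i)⁻¹ * h j) := by group
      _ = (h i)⁻¹ * (h i * k) * ((h i)⁻¹ * h j) := by rw [e4]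
      _ = k * (swap (c x) (c (d i)) * swap (c x) (c (d j))) := by rw [e2]; group
  refine ⟨_, S.mul_mem hsi (S.inv_mem hsj), φ, hfm, ⟨j, ?_⟩, ?_⟩
  · rw [e5]
    show swap (φ (c y)) (φ (c (d i))) (swap (φ (c y)) (φ (c (d j)))
      (swap (c x) (c (d i)) (swap (c x) (c (d j)) (c x)))) = _
    rw [swap_apply_left, swap_apply_of_ne_of_ne hQX hPQ.symm,
      swap_apply_of_ne_of_ne (hno _ _).symm (hno _ _).symm,
      swap_apply_of_ne_of_ne (hno _ _).symm (hno _ _).symm]
  · intro z hz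
    rw [e5] at hz
    by_contra hcon
    push Not at hcon
    obtain ⟨hzx, hzu⟩ := hcon
    apply hz
    show swap (φ (c y)) (φ (c (d i))) (swap (φ (c y)) (φ (c (d j)))
      (swap (c x) (c (d i)) (swap (c x) (c (d j)) z))) = z
    have z1 := hzu y (Or.inl rfl)
    have z2 := hzu (d i) (Or.inr ⟨i, rfl⟩)
    have z3 := hzu (d j) (Or.inr ⟨j, rfl⟩)
    rw [swap_apply_of_ne_of_ne hzx z3.1, swap_apply_of_ne_of_ne hzx z2.1,
      swap_apply_of_ne_of_ne z1.2 z3.2, swap_apply_of_ne_of_ne z1.2 z2.2]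

omit [Fintype α] in
/-- commutator of two permutations whose supports have one common point -/
theorem comm_eq (a b : Perm α) (x : α) (ha : a x ≠ x) (hb : b x ≠ x)
    (h : ∀ z, z ≠ x → a z = z ∨ b z = z) :
    a * b * a⁻¹ * b⁻¹ = swap x (a x) * swap (b x) (a x) := by
  have hbb : b (b x) ≠ b x := fun e => hb (b.injective e)
  have haa : a (a x) ≠ a x := fun e => ha (a.injective e)
  have hab : a (b x) = b x := (h _ hb).resolve_right hbb
  have hba : b (a x) = a x := (h _ ha).resolve_left haa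
  have hne : b x ≠ a x := by
    intro e
    rw [e] at hab
    exact haa hab
  have key : a * b = swap x (a x) * swap (b x) (a x) * (b * a) := by
    ext z
    show a (b z) = swap x (a x) (swap (b x) (a x) (b (a z)))
    by_cases hzx : z = x
    · subst hzx
      rw [hab, hba, swap_apply_right, swap_apply_of_ne_of_ne hb hne]
    · rcases h z hzx with hz | hz
      · rw [hz]
        by_cases hbz : b z = z
        · have h1 : z ≠ a x := by
            rintro rfl
            exact haa hz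
          have h2 : z ≠ b x := by
            rintro rfl
            exact hbb hbz
          rw [hbz, hz, swap_apply_of_ne_of_ne h2 h1, swap_apply_of_ne_of_ne hzx h1]
        · by_cases hbx : b z = x
          · rw [hbx, swap_apply_of_ne_of_ne hb.symm ha.symm, swap_apply_left]
          · have h1 : a (b z) = b z := (h _ hbx).resolve_right fun e => hbz (b.injective e)
            have h2 : b z ≠ b x := fun e => hzx (b.injective e)
            have h3 : b z ≠ a x := by
              intro e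
              apply hbz
              apply b.injective
              rw [e, hba]
            rw [h1, swap_apply_of_ne_of_ne h2 h3, swap_apply_of_ne_of_ne hbx h3]
      · rw [hz]
        by_cases haz : a z = z
        · have h1 : z ≠ a x := by
            rintro rfl
            exact haa haz
          have h2 : z ≠ b x := by
            rintro rfl
            exact hbb hz
          rw [haz, hz, swap_apply_of_ne_of_ne h2 h1, swap_apply_of_ne_of_ne hzx h1]
        · by_cases hax : a z = x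
          · rw [hax, swap_apply_left, swap_apply_right]
          · have h1 : b (a z) = a z := (h _ hax).resolve_left fun e => haz (a.injective e)
            have h2 : a z ≠ a x := fun e => hzx (a.injective e)
            have h3 : a z ≠ b x := by
              intro e
              apply haz
              apply a.injective
              rw [e, hab]
            rw [h1, swap_apply_of_ne_of_ne h3 h2, swap_apply_of_ne_of_ne hax h2]
  rw [key]
  group

theorem three {F S : Subgroup (Perm α)} {N : ℕ} (hN : Nat.card F = N)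
    (hS : ∀ g ∈ alternatingGroup α, ∃ f ∈ F, f ≠ 1 ∧ g * f * g⁻¹ ∈ S)
    (c : Fin (2 * N + 3) → α) (hc : ∀ a b, ∀ f ∈ F, f (c a) = c b → a = b ∧ f = 1) :
    ∃ t ∈ S, t.IsThreeCycle ∧ (∃ j, j ≠ 0 ∧ t (c 0) = c j) ∧ ∀ z, (∀ j, z ≠ c j) → t z = z := by
  have hcc : ∀ a b, c a = c b → a = b := fun a b h => (hc a b 1 F.one_mem h).1
  set o0 : Fin (2 * N + 3) := ⟨0, by omega⟩ with ho0
  set o1 : Fin (2 * N + 3) := ⟨1, by omega⟩ with ho1
  set o2 : Fin (2 * N + 3) := ⟨2, by omega⟩ with ho2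
  set d : Fin N → Fin (2 * N + 3) := fun i => ⟨3 + i, by omega⟩ with hd
  set d' : Fin N → Fin (2 * N + 3) := fun i => ⟨3 + N + i, by omega⟩ with hd'
  have h00 : (0 : Fin (2 * N + 3)) = o0 := rfl
  rw [h00]
  have hdv : ∀ i, (d i : ℕ) = 3 + i := fun i => rfl
  have hdv' : ∀ i, (d' i : ℕ) = 3 + N + i := fun i => rfl
  obtain ⟨a, haS, f, hf, ⟨j, haj⟩, ha⟩ := half hN hS c hc o0 o1 d
    (fun i j e => by
      have := congrArg Fin.val e
      rw [hdv, hdv] at this
      exact Fin.ext (by omega))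
    (fun e => by have := congrArg Fin.val e; simp [ho0, ho1] at this)
    (fun i e => by have := congrArg Fin.val e; rw [hdv] at this; simp [ho0] at this)
    (fun i e => by have := congrArg Fin.val e; rw [hdv] at this; simp [ho1] at this; omega)
  obtain ⟨b, hbS, f', hf', ⟨l, hbl⟩, hb⟩ := half hN hS c hc o0 o2 d'
    (fun i j e => by
      have := congrArg Fin.val e
      rw [hdv', hdv'] at this
      exact Fin.ext (by omega))
    (fun e => by have := congrArg Fin.val e; simp [ho0, ho2] at this)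
    (fun i e => by have := congrArg Fin.val e; rw [hdv'] at this; simp [ho0] at this)
    (fun i e => by have := congrArg Fin.val e; rw [hdv'] at this; simp [ho2] at this; omega)
  have hj0 : d j ≠ o0 := by
    intro e
    have := congrArg Fin.val e
    rw [hdv] at this
    simp [ho0] at this
  have hl0 : d' l ≠ o0 := by
    intro e
    have := congrArg Fin.val e
    rw [hdv'] at this
    simp [ho0] at this
  have hjl : d j ≠ d' l := by
    intro e
    have := congrArg Fin.val e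
    rw [hdv, hdv'] at this
    have := j.2
    omega
  have ha0 : a (c o0) ≠ c o0 := by
    rw [haj]
    exact fun e => hj0 (hcc _ _ e)
  have hb0 : b (c o0) ≠ c o0 := by
    rw [hbl]
    exact fun e => hl0 (hcc _ _ e)
  have hdisj : ∀ z, z ≠ c o0 → a z = z ∨ b z = z := by
    intro z hz
    by_contra hcon
    push Not at hcon
    obtain ⟨u, hu, huz⟩ := (ha z hcon.1).resolve_left hz
    obtain ⟨v, hv, hvz⟩ := (hb z hcon.2).resolve_left hz
    have huv : u ≠ v := by
      intro e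
      have := congrArg Fin.val e
      rcases hu with rfl | ⟨i, rfl⟩ <;> rcases hv with rfl | ⟨k, rfl⟩
      · simp [ho1, ho2] at this
      · rw [hdv'] at this
        simp [ho1] at this
        omega
      · rw [hdv] at this
        simp [ho2] at this
        omega
      · rw [hdv, hdv'] at this
        have := i.2
        omega
    rcases huz with huz | huz <;> rcases hvz with hvz | hvz
    · exact huv (hcc _ _ (huz.symm.trans hvz))
    · exact huv (hc v u f' hf' (hvz.symm.trans huz)).1.symm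
    · exact huv (hc u v f hf (huz.symm.trans hvz)).1
    · refine huv (hc u v (f'⁻¹ * f) (F.mul_mem (F.inv_mem hf') hf) ?_).1
      show f'⁻¹ (f (c u)) = c v
      rw [← huz, hvz]
      exact f'.symm_apply_apply _
  have hkey := comm_eq a b (c o0) ha0 hb0 hdisj
  refine ⟨a * b * a⁻¹ * b⁻¹, S.mul_mem (S.mul_mem (S.mul_mem haS hbS) (S.inv_mem haS))
    (S.inv_mem hbS), ?_, ⟨d j, hj0, ?_⟩, ?_⟩
  · rw [hkey, swap_comm (c o0), swap_comm (b (c o0))]
    apply isThreeCycle_swap_mul_swap_same ha0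
    · rw [haj, hbl]
      exact fun e => hjl (hcc _ _ e)
    · exact hb0.symm
  · rw [hkey, haj, hbl]
    show swap (c o0) (c (d j)) (swap (c (d' l)) (c (d j)) (c o0)) = _
    rw [swap_apply_of_ne_of_ne (fun e => hl0 (hcc _ _ e).symm) (fun e => hj0 (hcc _ _ e).symm),
      swap_apply_left]
  · intro z hz
    rw [hkey, haj, hbl]
    show swap (c o0) (c (d j)) (swap (c (d' l)) (c (d j)) z) = z
    rw [swap_apply_of_ne_of_ne (hz _) (hz _), swap_apply_of_ne_of_ne (hz _) (hz _)]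

/-- the same for any tuple of points -/
theorem three' {F S : Subgroup (Perm α)} {N : ℕ} (hN : Nat.card F = N)
    (hS : ∀ g ∈ alternatingGroup α, ∃ f ∈ F, f ≠ 1 ∧ g * f * g⁻¹ ∈ S)
    (c : Fin (2 * N + 3) → α) (hc : ∀ a b, ∀ f ∈ F, f (c a) = c b → a = b ∧ f = 1)
    (hn : 2 * N + 5 ≤ Nat.card α) (p : Fin (2 * N + 3) → α) (hp : Function.Injective p) :
    ∃ t ∈ S, t.IsThreeCycle ∧ (∃ j, j ≠ 0 ∧ t (p 0) = p j) ∧ ∀ z, (∀ j, z ≠ p j) → t z = z := by
  have hcc : Function.Injective c := fun a b h => (hc a b 1 F.one_mem h).1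
  obtain ⟨g, hg⟩ : ∃ g : alternatingGroup α, ∀ a, (g : Perm α) (c a) = p a := by
    have h1 := alternatingGroup.isMultiplyPretransitive α
    have h2 : MulAction.IsMultiplyPretransitive (alternatingGroup α) α (2 * N + 3) :=
      MulAction.isMultiplyPretransitive_of_le (n := Nat.card α - 2) (by omega) (Nat.sub_le _ _)
    obtain ⟨g, hg⟩ := MulAction.exists_smul_eq (alternatingGroup α)
      (⟨c, hcc⟩ : Fin (2 * N + 3) ↪ α) ⟨p, hp⟩
    refine ⟨g, fun a => ?_⟩
    exact DFunLike.congr_fun hg a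
  have hconj : ∀ h ∈ F.map (MulAut.conj (g : Perm α)).toMonoidHom, ∃ f ∈ F,
      h = (g : Perm α) * f * (g : Perm α)⁻¹ := by
    rintro _ ⟨f, hf, rfl⟩
    exact ⟨f, hf, rfl⟩
  refine three (F := F.map (MulAut.conj (g : Perm α)).toMonoidHom) ?_ ?_ p ?_
  · rw [← hN]
    exact Nat.card_congr (Subgroup.equivMapOfInjective F _
      (MulAut.conj (g : Perm α)).injective).toEquiv.symm
  · intro k hk
    obtain ⟨f, hf, hf1, hfS⟩ := hS (k * g) ((alternatingGroup α).mul_mem hk g.2)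
    refine ⟨_, ⟨f, hf, rfl⟩, ?_, ?_⟩
    · intro h0
      apply hf1
      exact (MulAut.conj (g : Perm α)).injective (h0.trans (map_one _).symm)
    · have h1 : k * ((g : Perm α) * f * (g : Perm α)⁻¹) * k⁻¹ =
          k * (g : Perm α) * f * (k * (g : Perm α))⁻¹ := by group
      rw [← h1] at hfS
      exact hfS
  · intro a b h hh hab
    obtain ⟨f, hf, rfl⟩ := hconj h hh
    have h1 : f (c a) = c b := by
      apply (g : Perm α).injective
      rw [hg b, ← hab]
      show (g : Perm α) (f (c a)) = (g : Perm α) (f ((g : Perm α)⁻¹ (p a)))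
      congr 2
      rw [← hg a]
      exact ((g : Perm α).symm_apply_apply _).symm
    obtain ⟨h2, h3⟩ := hc a b f hf h1
    refine ⟨h2, ?_⟩
    rw [h3]
    simp

/-- the same: all other points in a given set -/
theorem three'' {F S : Subgroup (Perm α)} {N : ℕ} (hN : Nat.card F = N)
    (hS : ∀ g ∈ alternatingGroup α, ∃ f ∈ F, f ≠ 1 ∧ g * f * g⁻¹ ∈ S)
    (c : Fin (2 * N + 3) → α) (hc : ∀ a b, ∀ f ∈ F, f (c a) = c b → a = b ∧ f = 1)
    (hn : 2 * N + 5 ≤ Nat.card α) (x : α) (D : Set α) (hx : x ∉ D) (hD : 2 * N + 2 ≤ D.ncard) :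
    ∃ t ∈ S, t.IsThreeCycle ∧ t x ∈ D ∧ ∀ z, z ≠ x → z ∉ D → t z = z := by
  have h1 : Nonempty (Fin (2 * N + 2) ↪ D) := by
    have := Fintype.ofFinite D
    rw [Function.Embedding.nonempty_iff_card_le, Fintype.card_fin, ← Nat.card_eq_fintype_card,
      Nat.card_coe_set_eq]
    exact hD
  obtain ⟨e⟩ := h1
  have hp0 : ∀ j : Fin (2 * N + 3), j ≠ 0 →
      (Fin.cons x (fun i => (e i : α)) : Fin (2 * N + 2 + 1) → α) j ∈ D := by
    intro j hj
    obtain ⟨i, rfl⟩ := Fin.exists_succ_eq.mpr hj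
    rw [Fin.cons_succ]
    exact (e i).2
  obtain ⟨t, ht, ht3, ⟨j, hj, htj⟩, htz⟩ := three' hN hS c hc hn
    (Fin.cons x (fun i => (e i : α)) : Fin (2 * N + 2 + 1) → α) (by
      rw [Fin.cons_injective_iff]
      refine ⟨?_, fun a b h => e.injective (Subtype.ext h)⟩
      rintro ⟨i, hi⟩
      exact hx (hi ▸ (e i).2))
  refine ⟨t, ht, ht3, ?_, ?_⟩
  · have h2 := hp0 j hj
    rw [← htj] at h2
    exact h2
  · intro z hzx hzD
    apply htz
    intro j hj
    by_cases hj0 : j = 0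
    · apply hzx
      rw [hj, hj0]
      rfl
    · apply hzD
      rw [hj]
      exact hp0 j hj0

end CycM

open CycM Equiv Equiv.Perm Pointwise in
theorem specCYC : SpecCYC := by
  intro n N F S hN hF hSA hS ⟨c, hc⟩
  have hcc : Function.Injective c := fun a b h => (hc a b 1 F.one_mem h).1
  -- sizes
  have hN2 : 2 ≤ N := by
    obtain ⟨f, hf, hf1, -⟩ := hS 1 (Subgroup.one_mem _)
    rw [← hN]
    have : F ≠ ⊥ := by
      intro h
      rw [h, Subgroup.mem_bot] at hf
      exact hf1 hf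
    exact Subgroup.one_lt_card_iff_ne_bot F |>.mpr this
  have hn : N * (2 * N + 3) ≤ n := by
    have h1 : Nat.card (F × Fin (2 * N + 3)) ≤ Nat.card (Fin n) := by
      apply Nat.card_le_card_of_injective (fun q : F × Fin (2 * N + 3) => (q.1 : Perm (Fin n)) (c q.2))
      rintro ⟨f, a⟩ ⟨f', b⟩ h
      simp only at h
      have h2 : ((f' : Perm (Fin n))⁻¹ * f) (c a) = c b := by
        show (f' : Perm (Fin n))⁻¹ ((f : Perm (Fin n)) (c a)) = c b
        rw [h]
        exact (f' : Perm (Fin n)).symm_apply_apply _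
      obtain ⟨h3, h4⟩ := hc a b _ (F.mul_mem (F.inv_mem f'.2) f.2) h2
      have h5 : f = f' := by
        apply Subtype.ext
        rw [inv_mul_eq_one] at h4
        exact h4.symm
      rw [h3, h5]
    rw [Nat.card_prod, hN, Nat.card_fin, Nat.card_fin] at h1
    exact h1
  have hn2 : 4 * N + 6 ≤ n := by nlinarith
  have hn5 : 2 * N + 5 ≤ Nat.card (Fin n) := by rw [Nat.card_fin]; omega
  have key := fun x D hx hD => three'' hN hS c hc hn5 x D hx hD
  -- small complements of orbits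
  have horb : ∀ x : Fin n, ((MulAction.orbit S x)ᶜ).ncard ≤ 2 * N + 1 := by
    intro x
    by_contra hcon
    push Not at hcon
    obtain ⟨t, ht, -, htx, -⟩ := key x (MulAction.orbit S x)ᶜ
      (fun h => h (MulAction.mem_orbit_self x)) hcon
    exact htx ⟨⟨t, ht⟩, rfl⟩
  have htrans : MulAction.IsPretransitive S (Fin n) := by
    refine ⟨fun x y => ?_⟩
    by_contra hcon
    have h1 : MulAction.orbit S y ⊆ (MulAction.orbit S x)ᶜ := by
      intro z hz hz'
      apply hcon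
      have h2 : MulAction.orbit S z = MulAction.orbit S y := MulAction.orbit_eq_iff.mpr hz
      have h3 : MulAction.orbit S z = MulAction.orbit S x := MulAction.orbit_eq_iff.mpr hz'
      have h4 : y ∈ MulAction.orbit S x := by
        rw [← h3, h2]
        exact MulAction.mem_orbit_self y
      exact h4
    have h2 := Set.ncard_le_ncard h1 (Set.toFinite _)
    have h3 := horb x
    have h4 := horb y
    have h5 := Set.ncard_add_ncard_compl (MulAction.orbit S y)
    rw [Nat.card_fin] at h5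
    omega
  -- primitivity
  have hprim : MulAction.IsPreprimitive S (Fin n) := by
    refine ⟨fun {B} hB => ?_⟩
    by_contra hcon
    rw [MulAction.IsTrivialBlock] at hcon
    push Not at hcon
    obtain ⟨hB1, hB2⟩ := hcon
    obtain ⟨x, hx, y, hy, hxy⟩ := hB1
    have hdvd := hB.ncard_dvd_card ⟨x, hx⟩
    have hsum := Set.ncard_add_ncard_compl B
    have hpos : 0 < (Bᶜ).ncard := by
      rw [Set.ncard_pos]
      rw [Set.nonempty_compl]
      exact hB2
    have hge : 2 * N + 2 ≤ (Bᶜ).ncard := by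
      obtain ⟨k, hk⟩ := hdvd
      rw [Nat.card_fin] at hk hsum
      have hk2 : 2 ≤ k := by
        rcases k with _ | _ | k
        · omega
        · omega
        · omega
      have : B.ncard * 2 ≤ B.ncard * k := Nat.mul_le_mul_left _ hk2
      omega
    obtain ⟨t, ht, -, htx, htz⟩ := key x Bᶜ (fun h => h hx) hge
    have hty : t y = y := htz y hxy.symm (fun h => h hy)
    apply htx
    have h1 : (⟨t, ht⟩ : S) • B = (1 : S) • B := by
      by_contra hne
      have h2 := hB hne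
      rw [Set.disjoint_left] at h2
      refine h2 (a := y) ⟨y, hy, hty⟩ ?_
      rw [one_smul]
      exact hy
    rw [one_smul] at h1
    have h2 : (⟨t, ht⟩ : S) • x ∈ (⟨t, ht⟩ : S) • B := Set.smul_mem_smul_set hx
    rw [h1] at h2
    exact h2
  -- Jordan
  obtain ⟨t, ht, ht3, -⟩ := three hN hS c hc
  exact le_antisymm hSA (alternatingGroup_le_of_isPreprimitive_of_isThreeCycle_mem hprim ht3 ht)

end Pool.Agent.Lib.MP66ef6b
end

section
/-!
# MP_66ef6b_al: module DICH (the dichotomy (a) / (c))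
-/
set_option autoImplicit false

namespace Pool.Agent.Lib.MP66ef6b

universe u

namespace DichM

variable {K : Type u} [Group K] {Z : Subgroup K} {J : Type u} [MulAction K J]
  {Q : J → Subgroup K} {π : J → K → K}

/-- The subgroup `M R#`. -/
def prodGrp (h : Coords Z Q π) (hZ : Z.Normal) (M : Subgroup K) : Subgroup K where
  carrier := {x | ∃ m ∈ M, ∃ z ∈ Z, (∀ j, ∃ r ∈ M ⊓ Z, π j z = π j r) ∧ x = m * z}
  one_mem' := ⟨1, M.one_mem, 1, Z.one_mem, fun j => ⟨1, (M ⊓ Z).one_mem, rfl⟩, by simp⟩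
  mul_mem' := by
    rintro _ _ ⟨m, hm, z, hz, hr, rfl⟩ ⟨m', hm', z', hz', hr', rfl⟩
    have hc : m'⁻¹ * z * m' ∈ Z := by
      have := hZ.conj_mem z hz m'⁻¹
      simpa using this
    refine ⟨m * m', M.mul_mem hm hm', (m'⁻¹ * z * m') * z', Z.mul_mem hc hz', fun j => ?_, by group⟩
    obtain ⟨r, ⟨hrM, hrZ⟩, hr⟩ := hr (m' • j)
    obtain ⟨r', ⟨hrM', hrZ'⟩, hr'⟩ := hr' j
    have hrc : m'⁻¹ * r * m' ∈ Z := by
      have := hZ.conj_mem r hrZ m'⁻¹
      simpa using this
    refine ⟨(m'⁻¹ * r * m') * r', ⟨M.mul_mem (M.mul_mem (M.mul_mem (M.inv_mem hm') hrM) hm') hrM',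
      Z.mul_mem hrc hrZ'⟩, ?_⟩
    have h1 := h.conj m'⁻¹ (m' • j) z hz
    have h2 := h.conj m'⁻¹ (m' • j) r hrZ
    rw [inv_smul_smul, inv_inv] at h1 h2
    rw [h.mul j _ hc _ hz', h.mul j _ hrc _ hrZ', hr', h1, h2, hr]
  inv_mem' := by
    rintro _ ⟨m, hm, z, hz, hr, rfl⟩
    have hc : m * z⁻¹ * m⁻¹ ∈ Z := hZ.conj_mem _ (Z.inv_mem hz) m
    refine ⟨m⁻¹, M.inv_mem hm, m * z⁻¹ * m⁻¹, hc, fun j => ?_, by group⟩
    obtain ⟨r, ⟨hrM, hrZ⟩, hr⟩ := hr (m⁻¹ • j)
    have hrc : m * r⁻¹ * m⁻¹ ∈ Z := hZ.conj_mem _ (Z.inv_mem hrZ) m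
    refine ⟨m * r⁻¹ * m⁻¹, ⟨M.mul_mem (M.mul_mem hm (M.inv_mem hrM)) (M.inv_mem hm), hrc⟩, ?_⟩
    have h1 := h.conj m (m⁻¹ • j) z⁻¹ (Z.inv_mem hz)
    have h2 := h.conj m (m⁻¹ • j) r⁻¹ (Z.inv_mem hrZ)
    rw [smul_inv_smul] at h1 h2
    rw [h1, h2, h.inv _ hz, h.inv _ hrZ, hr]

theorem mem_prodGrp {h : Coords Z Q π} {hZ : Z.Normal} {M : Subgroup K} {x : K} :
    x ∈ prodGrp h hZ M ↔
      ∃ m ∈ M, ∃ z ∈ Z, (∀ j, ∃ r ∈ M ⊓ Z, π j z = π j r) ∧ x = m * z := Iff.rfl

theorem mk_mem {h : Coords Z Q π} {hZ : Z.Normal} {M : Subgroup K} {m z : K} (hm : m ∈ M)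
    (hz : z ∈ Z) (hr : ∀ j, ∃ r ∈ M ⊓ Z, π j z = π j r) : m * z ∈ prodGrp h hZ M :=
  ⟨m, hm, z, hz, hr, rfl⟩

theorem left_case (h : Coords Z Q π) (hZ : Z.Normal) (M : Subgroup K)
    (hT : prodGrp h hZ M ≤ M) (z : K) (hz : z ∈ Z) :
    z ∈ M ⊓ Z ↔ ∀ j, π j z ∈ M ⊓ Z := by
  have key : ∀ z ∈ Z, (∀ j, ∃ r ∈ M ⊓ Z, π j z = π j r) → z ∈ M ⊓ Z := by
    intro z hz hr
    have h1 : (1 : K) * z ∈ prodGrp h hZ M := mk_mem M.one_mem hz hr
    rw [one_mul] at h1
    exact Subgroup.mem_inf.2 ⟨hT h1, hz⟩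
  constructor
  · intro hzR j
    apply key _ (h.memZ j hz)
    intro i
    by_cases hij : i = j
    · subst hij
      exact ⟨z, hzR, h.self i _ (h.mem i z hz)⟩
    · exact ⟨1, (M ⊓ Z).one_mem, by rw [h.other i j hij _ (h.mem j z hz), h.one]⟩
  · intro hzR
    exact key z hz fun j => ⟨π j z, hzR j, (h.self j _ (h.mem j z hz)).symm⟩

end DichM

open DichM in
theorem specDICH : SpecDICH.{u} := by
  intro K _ J _ X Z M Q π hZ hZX hM h
  by_cases hT : prodGrp h hZ M ≤ M
  · left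
    exact left_case h hZ M hT
  · right
    have hlt : M < M ⊔ prodGrp h hZ M := by
      exact lt_of_le_of_ne le_sup_left fun he => hT (le_sup_right.trans he.ge)
    have hle : M ⊔ prodGrp h hZ M ≤ prodGrp h hZ M := by
      refine sup_le (fun m hm => ?_) le_rfl
      have h1 : m * 1 ∈ prodGrp h hZ M :=
        mk_mem hm Z.one_mem (fun j => ⟨1, (M ⊓ Z).one_mem, rfl⟩)
      rwa [mul_one] at h1
    intro j q hq
    have hqZ := h.le j hq
    have hq1 : q ∈ prodGrp h hZ M := hle (hM _ hlt (hZX hqZ))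
    obtain ⟨m, hm, z, hz, hr, hqm⟩ := mem_prodGrp.1 hq1
    obtain ⟨r, hrMZ, hr⟩ := hr j
    obtain ⟨hrM, hrZ⟩ := Subgroup.mem_inf.1 hrMZ
    have hmZ : m ∈ Z := by
      have : m = q * z⁻¹ := by rw [hqm]; group
      rw [this]
      exact Z.mul_mem hqZ (Z.inv_mem hz)
    refine ⟨m * r, ⟨M.mul_mem hm hrM, Z.mul_mem hmZ hrZ⟩, ?_⟩
    rw [h.mul j _ hmZ _ hrZ, ← hr, ← h.mul j _ hmZ _ hz, ← hqm, h.self j q hq]

end Pool.Agent.Lib.MP66ef6b
end

section
/-!
# MP_66ef6b_al, module FG: assembly of the result on finite groups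
-/
set_option autoImplicit false

namespace Pool.Agent.Lib.MP66ef6b

universe u

namespace FgM

variable {K : Type u} [Group K]

/-- The conjugate of `M` by `c`. -/
abbrev cj (M : Subgroup K) (c : K) : Subgroup K := M.map (MulAut.conj c).toMonoidHom

theorem m1_conj {X M : Subgroup K} (hX : X.Normal) (M1 : ∀ M' : Subgroup K, M < M' → X ≤ M')
    (c : K) : ∀ M' : Subgroup K, cj M c < M' → X ≤ M' := by
  intro M' hM'
  obtain ⟨hle, y, hy, hyM⟩ := SetLike.lt_iff_le_and_exists.mp hM'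
  have h1 : M < cj M' c⁻¹ := by
    refine SetLike.lt_iff_le_and_exists.mpr ⟨fun x hx => ?_, c⁻¹ * y * c, ?_, ?_⟩
    · rw [mem_conj, inv_inv]
      exact hle ⟨x, hx, rfl⟩
    · rw [mem_conj]
      have : c⁻¹⁻¹ * (c⁻¹ * y * c) * c⁻¹ = y := by group
      rwa [this]
    · intro h
      exact hyM (mem_conj.mpr h)
  intro x hx
  have h2 := M1 _ h1 (hX.conj_mem x hx c⁻¹)
  rw [mem_conj] at h2
  have : c⁻¹⁻¹ * (c⁻¹ * x * c⁻¹⁻¹) * c⁻¹ = x := by group
  rwa [this] at h2

theorem factor {X Z M : Subgroup K} (hZ : Z.Normal) (hZM : ¬ Z ≤ M)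
    (M1 : ∀ M' : Subgroup K, M < M' → X ≤ M') : ∀ x ∈ X, ∃ u ∈ Z, ∃ m ∈ M, x = u * m := by
  intro x hx
  have h1 : M < Z ⊔ M := lt_of_le_of_ne le_sup_right fun h => hZM (by rw [h]; exact le_sup_left)
  have h2 := M1 _ h1 hx
  rw [Subgroup.mem_sup_of_normal_left] at h2
  obtain ⟨u, hu, m, hm, h⟩ := h2
  exact ⟨u, hu, m, hm, h.symm⟩

end FgM

open FgM

theorem specFG (hMIN : SpecMIN.{u}) (hDICH : SpecDICH.{u}) (hPART : SpecPART.{u})
    (hPOSA : SpecPOSA.{u}) (hPOSC : SpecPOSC.{u}) (hPOS2 : SpecPOS2.{u})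
    (hCASE1 : SpecCASE1.{u}) : SpecFG.{u} := by
  intro K _ _ F E E₂ X M hXn hFE hEE₂ hE₂X T1 T2 hXM hconf M1 M0 hbig
  have hX1 : X ≠ ⊥ := by
    rintro rfl
    exact hXM bot_le
  obtain ⟨Z, hZn, hZX, hZ1, hZ⟩ := hMIN K X hXn hX1
  have hcore : M.normalCore = ⊥ := M0 M hXM hconf
  have hZM : ¬ Z ≤ M := fun h => hZ1 (le_bot_iff.mp (hcore ▸ Subgroup.normal_le_normalCore.mpr h))
  have hEX : E ≤ X := hEE₂.trans hE₂X
  rcases hZ with ⟨p, hp, hzp, hzc⟩ | ⟨J, _, _, Q, π, htr, hs, hc⟩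
  · exact Or.inl (hCASE1 K X Z F E M p hXn hZn hZX hFE hEX hp hzp hzc hconf
      (factor hZn hZM M1) hcore T2)
  -- conjugate `M`
  have hmove : ∀ j : J, ∃ c : K, ¬ Q j ≤ cj M c := by
    intro j
    obtain ⟨i, hi⟩ := hc.exists_not_le hZM
    obtain ⟨c, rfl⟩ := htr i j
    refine ⟨c, fun h => hi fun q hq => ?_⟩
    have h1 := h (hc.conjQ c i q hq)
    rw [mem_conj] at h1
    have : c⁻¹ * (c * q * c⁻¹) * c = q := by group
    rwa [this] at h1
  have hZc : ∀ j c, ¬ Q j ≤ cj M c → ¬ Z ≤ cj M c := fun j c h h' => h ((hc.le j).trans h')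
  have hpart : ∀ c, IsProd Z π (cj M c ⊓ Z) ∨ ∀ j : J, ¬ Q j ≤ cj M c → ∃ (i : J) (θ : K → K),
      Partner Q π (cj M c ⊓ Z) j i θ := by
    intro c
    rcases hDICH K J X Z (cj M c) Q π hZn hZX (m1_conj hXn M1 c) hc with h | h
    · exact Or.inl h
    · exact Or.inr fun j hj => hPART K J Z (cj M c ⊓ Z) Q π hc hs inf_le_right h j
        fun h' => hj (h'.trans inf_le_left)
  by_cases htriv : ∀ x ∈ X, ∀ j : J, x • j = j
  · -- position 2
    have hex : ∃ j : J, ∀ e ∈ E, (∀ q ∈ Q j, e * q = q * e) → e = 1 := by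
      by_contra hcon
      push Not at hcon
      have h1 : ∀ j : J, ∀ e ∈ E, ∀ q ∈ Q j, e * q = q * e := by
        intro j
        obtain ⟨e, he, heq, he1⟩ := hcon j
        have hW : E ≤ X ⊓ Subgroup.centralizer (Q j : Set K) := by
          refine T2 _ inf_le_left ?_ ?_
          · rintro x hx w ⟨hwX, hw⟩
            refine ⟨X.mul_mem (X.mul_mem hx hwX) (X.inv_mem hx), ?_⟩
            change w ∈ Subgroup.centralizer (Q j : Set K) at hw
            change x * w * x⁻¹ ∈ Subgroup.centralizer (Q j : Set K)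
            rw [Subgroup.mem_centralizer_iff] at hw ⊢
            intro q hq
            have hxq : x⁻¹ * q * x ∈ Q j := by
              have h2 := hc.conjQ x⁻¹ j q hq
              rwa [htriv _ (X.inv_mem hx) j, inv_inv] at h2
            have h3 := hw _ hxq
            calc q * (x * w * x⁻¹) = x * ((x⁻¹ * q * x) * w) * x⁻¹ := by group
              _ = x * (w * (x⁻¹ * q * x)) * x⁻¹ := by rw [h3]
              _ = x * w * x⁻¹ * q := by group
          · intro hbot
            apply he1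
            rw [← Subgroup.mem_bot, ← hbot]
            exact ⟨⟨hEX he, Subgroup.mem_centralizer_iff.mpr fun q hq => (heq q hq).symm⟩, he⟩
        intro e' he' q hq
        exact ((Subgroup.mem_centralizer_iff.mp (hW he').2) q hq).symm
      -- `E` centralises `Z`
      have h2 : E ≤ Subgroup.centralizer (Z : Set K) := by
        intro e he
        rw [Subgroup.mem_centralizer_iff]
        intro z hz
        have h3 : (⨆ j, Q j) ≤ Subgroup.centralizer ({e} : Set K) := by
          refine iSup_le fun j q hq => ?_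
          rw [Subgroup.mem_centralizer_iff]
          rintro _ rfl
          exact h1 j _ he q hq
        have h4 := Subgroup.mem_centralizer_iff.mp (h3 (hc.gen hz)) e rfl
        exact h4.symm
      have hCn : (Subgroup.centralizer (Z : Set K)).Normal := by
        constructor
        intro w hw k
        rw [Subgroup.mem_centralizer_iff] at hw ⊢
        intro z hz
        have hz' : k⁻¹ * z * k ∈ Z := by
          have := hZn.conj_mem z hz k⁻¹
          rwa [inv_inv] at this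
        have h3 := hw _ hz'
        calc z * (k * w * k⁻¹) = k * ((k⁻¹ * z * k) * w) * k⁻¹ := by group
          _ = k * (w * (k⁻¹ * z * k)) * k⁻¹ := by rw [h3]
          _ = k * w * k⁻¹ * z := by group
      obtain ⟨f, hf, hf1, -⟩ := hconf 1
      have h5 : X ≤ Subgroup.centralizer (Z : Set K) := by
        refine T1 _ hCn fun hbot => hf1 ?_
        rw [← Subgroup.mem_bot, ← hbot]
        exact ⟨h2 (hFE hf), hEE₂ (hFE hf)⟩
      obtain ⟨j, -⟩ := hc.exists_not_le hZM
      obtain ⟨-, a, ha, b, hb, hab⟩ := hs j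
      exact hab ((Subgroup.mem_centralizer_iff.mp (h5 (hZX (hc.le j ha)))) b (hc.le j hb)).symm
    obtain ⟨j, hj⟩ := hex
    obtain ⟨c, hcj⟩ := hmove j
    obtain ⟨Y, _, P, hV, ⟨e⟩⟩ := hPOS2 K J X Z F E (cj M c) Q π hXn hZn hZX hFE hEX hc hs
      (hconf.conj c) (factor hZn (hZc j c hcj) (m1_conj hXn M1 c)) (hpart c) htriv j hcj hj hbig
    refine Or.inr ⟨Y, _, P, hV, Q j, ⊥, inferInstance, ?_, ⟨(QuotientGroup.quotientBot).trans e⟩⟩
    refine Subgroup.IsSubnormal.step _ Z (hc.le j) hZn.isSubnormal ?_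
    constructor
    intro q hq z
    rw [Subgroup.mem_subgroupOf] at hq ⊢
    exact hc.conjZ_mem j z.2 hq
  · -- position 1
    exfalso
    push Not at htriv
    obtain ⟨x, hx, j, hxj⟩ := htriv
    have hSt : ¬ X ≤ MulAction.stabilizer K j := fun h => hxj (h hx)
    have hconf' : Conf F (MulAction.stabilizer K j) := by
      intro k
      by_contra hcon
      push Not at hcon
      have hfree : ∀ f ∈ F, f • (k⁻¹ • j) = k⁻¹ • j → f = 1 := by
        intro f hf hfj
        by_contra hf1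
        apply hcon f hf hf1
        rw [MulAction.mem_stabilizer_iff, mul_smul, mul_smul, hfj, smul_inv_smul]
      obtain ⟨c, hcj⟩ := hmove (k⁻¹ • j)
      have hfac : ∀ f ∈ F, ∃ u ∈ Z, ∃ m ∈ cj M c, f = u * m := fun f hf =>
        factor hZn (hZc _ c hcj) (m1_conj hXn M1 c) f (hEX (hFE hf))
      have hz : ∃ z ∈ Z, ∀ f ∈ F, f ≠ 1 → z⁻¹ * f * z ∉ cj M c := by
        rcases hpart c with h | h
        · exact hPOSA K J Z F (cj M c) Q π hZn hc hs hfac h _ hcj hfree
        · exact hPOSC K J Z F (cj M c) Q π hZn hc hs hfac h _ hcj hfree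
      obtain ⟨z, -, hz⟩ := hz
      obtain ⟨f, hf, hf1, hfM⟩ := hconf.conj c z⁻¹
      rw [inv_inv] at hfM
      exact hz f hf hf1 hfM
    have h1 := M0 _ hSt hconf'
    have h2 : Z ≤ (MulAction.stabilizer K j).normalCore :=
      Subgroup.normal_le_normalCore.mpr fun z hz => hc.smul_eq hs hz j
    exact hZ1 (le_bot_iff.mp (h1 ▸ h2))

end Pool.Agent.Lib.MP66ef6b
end

section
/-!
# MP_66ef6b_al, module LOCAL: the local alternative
-/
set_option autoImplicit false

namespace Pool.Agent.Lib.MP66ef6b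

universe u

theorem DataI.mono {G : Type u} [Group G] {F E E' : Subgroup G} (h : DataI F E') (hE : E ≤ E') :
    DataI F E := by
  obtain ⟨X, p, V, iV, iA, hX, rest⟩ := h
  exact ⟨X, p, V, iV, iA, hE.trans hX, rest⟩

theorem Visible.mono {G : Type u} [Group G] {F E E' : Subgroup G} {Y : Type u} [Group Y]
    {Q : Subgroup Y} (h : Visible F E' Y Q) (hE : E ≤ E') : Visible F E Y Q := by
  obtain ⟨X, ρ, S, hf, hX, hs, hi, rest⟩ := h
  exact ⟨X, ρ, S, hf, hE.trans hX, hs, fun x hx => hi x (hE hx), rest⟩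

/-- Finite subgroups of an infinite locally finite group can be enlarged. -/
theorem exists_big {G : Type u} [Group G] [Infinite G] (hG : LocFin G) (E : Subgroup G)
    [Finite E] (n : ℕ) : ∃ E' : Subgroup G, Finite E' ∧ E ≤ E' ∧ n < Nat.card E' := by
  classical
  obtain ⟨s, hs⟩ := Infinite.exists_subset_card_eq G (n + 1)
  have hEf : (E : Set G).Finite := Set.toFinite _
  have hfin : Finite (Subgroup.closure ((s ∪ hEf.toFinset : Finset G) : Set G)) := hG _
  refine ⟨Subgroup.closure ((s ∪ hEf.toFinset : Finset G) : Set G), hfin, ?_, ?_⟩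
  · intro x hx
    apply Subgroup.subset_closure
    simp [hx]
  · have h1 : (s : Set G) ⊆ (Subgroup.closure ((s ∪ hEf.toFinset : Finset G) : Set G) : Set G) := by
      intro x hx
      apply Subgroup.subset_closure
      simp only [Finset.coe_union, Set.mem_union]
      exact Or.inl hx
    have h2 : (s : Set G).ncard ≤
        (Subgroup.closure ((s ∪ hEf.toFinset : Finset G) : Set G) : Set G).ncard :=
      Set.ncard_le_ncard h1 (Set.toFinite _)
    rw [Set.ncard_coe_finset, hs] at h2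
    have h3 : (Subgroup.closure ((s ∪ hEf.toFinset : Finset G) : Set G) : Set G).ncard =
        Nat.card (Subgroup.closure ((s ∪ hEf.toFinset : Finset G) : Set G)) := rfl
    omega

theorem specLOCAL (hFG : SpecFG.{u}) (hQUOT : SpecQUOT.{u}) (hTRA1 : SpecTRA1.{u})
    (hTRA2 : SpecTRA2.{u}) (hTOWER : SpecTOWER.{u}) : SpecLOCAL.{u} := by
  intro G _ _ _ hG F H hFf hH hconf P hP E hEf hFE
  obtain ⟨E₁, hE₁f, hEE₁, hbig⟩ := exists_big hG E (Nat.card F).factorial.factorial
  obtain ⟨E₂, hE₂f, hE₁₂, hT₁⟩ := hTOWER G hG E₁ hE₁f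
  obtain ⟨E₃, hE₃f, hE₂₃, hT₂⟩ := hTOWER G hG E₂ hE₂f
  obtain ⟨K, hKf, hE₃K, hPK⟩ := hP E₃ hE₃f
  have hE₂K : E₂ ≤ K := hE₂₃.trans hE₃K
  have hE₁K : E₁ ≤ K := hE₁₂.trans hE₂K
  have hFE₁ : F ≤ E₁ := hFE.trans hEE₁
  have hFK : F ≤ K := hFE₁.trans hE₁K
  set X : Subgroup K := Subgroup.normalClosure (E₂.subgroupOf K : Set K) with hXdef
  have hXn : X.Normal := Subgroup.normalClosure_normal
  have hE₂X : E₂.subgroupOf K ≤ X := Subgroup.subset_normalClosure
  have T1 : ∀ W : Subgroup K, W.Normal → W ⊓ E₂.subgroupOf K ≠ ⊥ → X ≤ W := by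
    intro W hW hne
    obtain ⟨⟨x, hx⟩, hx1'⟩ := Subgroup.ne_bot_iff_exists_ne_one.mp hne
    have hx1 : x ≠ 1 := fun h => hx1' (Subtype.ext h)
    have h1 := hT₂ (x : K) (Subgroup.mem_subgroupOf.mp hx.2) fun h => hx1 (Subtype.ext h)
    have h2 : E₂ ≤ W.map K.subtype := by
      refine h1.trans ((Subgroup.closure_le _).mpr ?_)
      rintro _ ⟨g, hg, rfl⟩
      exact ⟨⟨g, hE₃K hg⟩ * (x : K) * (⟨g, hE₃K hg⟩)⁻¹, hW.conj_mem _ hx.1 _, rfl⟩
    refine Subgroup.normalClosure_le_normal ?_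
    intro y hy
    obtain ⟨w, hw, hwy⟩ := h2 (Subgroup.mem_subgroupOf.mp hy)
    have : w = y := Subtype.ext hwy
    rwa [← this]
  have T2 : ∀ W : Subgroup K, W ≤ X → NormBy X W → W ⊓ E₁.subgroupOf K ≠ ⊥ →
      E₁.subgroupOf K ≤ W := by
    intro W hWX hW hne
    obtain ⟨⟨x, hx⟩, hx1'⟩ := Subgroup.ne_bot_iff_exists_ne_one.mp hne
    have hx1 : x ≠ 1 := fun h => hx1' (Subtype.ext h)
    have h1 := hT₁ (x : K) (Subgroup.mem_subgroupOf.mp hx.2) fun h => hx1 (Subtype.ext h)
    have h2 : E₁ ≤ W.map K.subtype := by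
      refine h1.trans ((Subgroup.closure_le _).mpr ?_)
      rintro _ ⟨g, hg, rfl⟩
      refine ⟨⟨g, hE₂K hg⟩ * (x : K) * (⟨g, hE₂K hg⟩)⁻¹, hW _ (hE₂X ?_) _ hx.1, rfl⟩
      exact Subgroup.mem_subgroupOf.mpr hg
    intro y hy
    obtain ⟨w, hw, hwy⟩ := h2 (Subgroup.mem_subgroupOf.mp hy)
    have : w = y := Subtype.ext hwy
    rwa [← this]
  -- a conjugate of `H` not containing `E₂`
  obtain ⟨f₀, hf₀, hf₀1, -⟩ := hconf 1
  have hc : ∃ c : G, ¬ E₂ ≤ H.map (MulAut.conj c).toMonoidHom := by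
    by_contra hcon
    push Not at hcon
    have h1 : E₂ ≤ H.normalCore := by
      intro e he b
      have h2 := mem_conj.mp (hcon b⁻¹ he)
      rwa [inv_inv] at h2
    rcases (inferInstance : H.normalCore.Normal).eq_bot_or_eq_top with h | h
    · apply hf₀1
      rw [← Subgroup.mem_bot, ← h]
      exact h1 (hE₁₂ (hFE₁ hf₀))
    · exact hH (top_le_iff.mp (h ▸ Subgroup.normalCore_le H))
  obtain ⟨c, hc⟩ := hc
  set M₀ : Subgroup K := (H.map (MulAut.conj c).toMonoidHom).subgroupOf K with hM₀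
  have hXM₀ : ¬ X ≤ M₀ := by
    intro h
    apply hc
    intro e he
    have h1 : (⟨e, hE₂K he⟩ : K) ∈ M₀ := h (hE₂X (Subgroup.mem_subgroupOf.mpr he))
    exact Subgroup.mem_subgroupOf.mp h1
  have hconf₀ : Conf (F.subgroupOf K) M₀ := by
    intro k
    obtain ⟨f, hf, hf1, hfM⟩ := hconf.conj c (k : G)
    refine ⟨⟨f, hFK hf⟩, Subgroup.mem_subgroupOf.mpr hf, fun h => hf1 (congrArg Subtype.val h), ?_⟩
    exact Subgroup.mem_subgroupOf.mpr hfM
  have hF' : F.subgroupOf K ≤ E₁.subgroupOf K := fun x hx => hFE₁ hx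
  have hE' : E₁.subgroupOf K ≤ E₂.subgroupOf K := fun x hx => hE₁₂ hx
  obtain ⟨K', _, _, φ, M, hφs, hφk, T1', T2', hXM, hcM, M1, M0⟩ :=
    hQUOT K (F.subgroupOf K) (E₁.subgroupOf K) (E₂.subgroupOf K) X M₀ hXn hF' hE' hE₂X T1 T2
      hXM₀ hconf₀
  have hk₁ : φ.ker ⊓ E₁.subgroupOf K = ⊥ := by
    rw [eq_bot_iff, ← hφk]
    exact inf_le_inf_left _ hE'
  have hXn' : (X.map φ).Normal := hXn.map φ hφs
  have hcardE : Nat.card E₁ ≤ Nat.card ((E₁.subgroupOf K).map φ) := by
    let g : E₁ → (E₁.subgroupOf K).map φ := fun e =>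
      ⟨φ ⟨e, hE₁K e.2⟩, ⟨_, Subgroup.mem_subgroupOf.mpr e.2, rfl⟩⟩
    refine Nat.card_le_card_of_injective g ?_
    intro a b hab
    have h1 : φ ⟨a, hE₁K a.2⟩ = φ ⟨b, hE₁K b.2⟩ := congrArg Subtype.val hab
    have h2 : (⟨a, hE₁K a.2⟩ : K) * (⟨b, hE₁K b.2⟩ : K)⁻¹ ∈ φ.ker ⊓ E₁.subgroupOf K := by
      refine ⟨?_, ?_⟩
      · change _ ∈ φ.ker
        rw [MonoidHom.mem_ker, map_mul, map_inv, h1, mul_inv_cancel]
      · exact Subgroup.mem_subgroupOf.mpr (E₁.mul_mem a.2 (E₁.inv_mem b.2))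
    rw [hk₁, Subgroup.mem_bot, mul_inv_eq_one] at h2
    exact Subtype.ext (congrArg (fun x : K => (x : G)) h2)
  have hcardF : Nat.card ((F.subgroupOf K).map φ) ≤ Nat.card F := by
    have h1 : Nat.card ((F.subgroupOf K).map φ) ≤ Nat.card (F.subgroupOf K) := by
      refine Nat.card_le_card_of_surjective
        (fun x : F.subgroupOf K => (⟨φ x, ⟨_, x.2, rfl⟩⟩ : (F.subgroupOf K).map φ)) ?_
      rintro ⟨_, y, hy, rfl⟩
      exact ⟨⟨y, hy⟩, rfl⟩
    refine h1.trans ?_
    refine Nat.card_le_card_of_injective (fun x : F.subgroupOf K => (⟨x, x.2⟩ : F)) ?_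
    intro a b hab
    exact Subtype.ext (Subtype.ext (congrArg (fun x : F => (x : G)) hab))
  have hbig' : (Nat.card ((F.subgroupOf K).map φ)).factorial.factorial <
      Nat.card ((E₁.subgroupOf K).map φ) :=
    lt_of_le_of_lt (Nat.factorial_le (Nat.factorial_le hcardF)) (lt_of_lt_of_le hbig hcardE)
  have key := hFG K' ((F.subgroupOf K).map φ) ((E₁.subgroupOf K).map φ)
    ((E₂.subgroupOf K).map φ) (X.map φ) M hXn' (Subgroup.map_mono hF') (Subgroup.map_mono hE')
    (Subgroup.map_mono hE₂X) T1' T2' hXM hcM M1 M0 hbig'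
  obtain ⟨tr1, tr2, tr3⟩ := hTRA1 K K' (F.subgroupOf K) (E₁.subgroupOf K) φ hφs hk₁ hF'
  obtain ⟨ta, tb⟩ := hTRA2 G K F E₁ hE₁K hFE₁
  rcases key with h | ⟨Y, _, T, hV, hcf⟩
  · exact Or.inl ((ta (tr1 h)).mono hEE₁)
  · exact Or.inr ⟨K, Y, _, T, hPK, (tb Y T (tr2 Y T hV)).mono hEE₁, tr3 T hcf⟩

end Pool.Agent.Lib.MP66ef6b
end

section
/-!
# MIN: minimal normal subgroups
-/
set_option autoImplicit false

namespace Pool.Agent.Lib.MP66ef6b

universe u

namespace MinM

variable {K : Type u} [Group K]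

/-- the conjugate of a subgroup -/
def cj (k : K) (P : Subgroup K) : Subgroup K := P.map (MulAut.conj k).toMonoidHom

theorem mem_cj {k x : K} {P : Subgroup K} : x ∈ cj k P ↔ k⁻¹ * x * k ∈ P := mem_conj

theorem cj_one (P : Subgroup K) : cj 1 P = P := by
  ext x; simp [mem_cj]

theorem cj_mul (k l : K) (P : Subgroup K) : cj (k * l) P = cj k (cj l P) := by
  ext x; simp [mem_cj, mul_assoc]

/-- the conjugates of `Q` -/
abbrev Jt (Q : Subgroup K) : Type u := {P : Subgroup K // ∃ k : K, P = cj k Q}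

/-- the action on the conjugates of `Q` -/
def act (Q : Subgroup K) : MulAction K (Jt Q) where
  smul k P := ⟨cj k P.1, by obtain ⟨l, hl⟩ := P.2; exact ⟨k * l, by rw [hl, cj_mul]⟩⟩
  one_smul P := Subtype.ext (cj_one P.1)
  mul_smul k l P := Subtype.ext (cj_mul k l P.1)

/-- `P` is a minimal non-trivial subgroup of `Z` normalised by `Z`. -/
structure MinIn (Z P : Subgroup K) : Prop where
  le : P ≤ Z
  ne : P ≠ ⊥
  norm : NormBy Z P
  min : ∀ R : Subgroup K, R ≤ P → R ≠ ⊥ → NormBy Z R → R = P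

theorem cj_inv_cj (k : K) (P : Subgroup K) : cj k⁻¹ (cj k P) = P := by
  rw [← cj_mul, inv_mul_cancel, cj_one]

theorem cj_cj_inv (k : K) (P : Subgroup K) : cj k (cj k⁻¹ P) = P := by
  rw [← cj_mul, mul_inv_cancel, cj_one]

theorem cj_bot (k : K) : cj k (⊥ : Subgroup K) = ⊥ := by
  ext x
  simp only [mem_cj, Subgroup.mem_bot]
  constructor
  · intro h
    have : x = k * (k⁻¹ * x * k) * k⁻¹ := by group
    rw [this, h]; simp
  · rintro rfl; simp

theorem cj_ne_bot {k : K} {P : Subgroup K} (h : P ≠ ⊥) : cj k P ≠ ⊥ := by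
  intro hc
  apply h
  rw [← cj_inv_cj k P, hc, cj_bot]

theorem normBy_cj {Z P : Subgroup K} (hZ : Z.Normal) (h : NormBy Z P) (k : K) :
    NormBy Z (cj k P) := by
  intro x hx w hw
  rw [mem_cj] at hw ⊢
  have h1 : k⁻¹ * x * k ∈ Z := by
    have := hZ.conj_mem x hx k⁻¹
    rwa [inv_inv] at this
  have h2 := h _ h1 _ hw
  have h3 : k⁻¹ * x * k * (k⁻¹ * w * k) * (k⁻¹ * x * k)⁻¹ = k⁻¹ * (x * w * x⁻¹) * k := by group
  rwa [h3] at h2

theorem cj_mono {k : K} {P R : Subgroup K} (h : P ≤ R) : cj k P ≤ cj k R :=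
  Subgroup.map_mono h

theorem cj_le {Z : Subgroup K} (hZ : Z.Normal) {P : Subgroup K} (h : P ≤ Z) (k : K) :
    cj k P ≤ Z := by
  intro x hx
  rw [mem_cj] at hx
  have := hZ.conj_mem _ (h hx) k
  have h2 : k * (k⁻¹ * x * k) * k⁻¹ = x := by group
  rwa [h2] at this

theorem MinIn.cj {Z P : Subgroup K} (hZ : Z.Normal) (h : MinIn Z P) (k : K) :
    MinIn Z (cj k P) where
  le := cj_le hZ h.le k
  ne := cj_ne_bot h.ne
  norm := normBy_cj hZ h.norm k
  min R hR hR1 hR2 := by
    have h1 : MinM.cj k⁻¹ R = P := by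
      refine h.min _ ?_ (cj_ne_bot hR1) (normBy_cj hZ hR2 _)
      have := cj_mono (k := k⁻¹) hR
      rwa [cj_inv_cj] at this
    rw [← h1, cj_cj_inv]

theorem MinIn.comm {Z P R : Subgroup K} (h : MinIn Z P) (h' : MinIn Z R) (hne : P ≠ R)
    {a b : K} (ha : a ∈ P) (hb : b ∈ R) : a * b = b * a := by
  have hbot : P ⊓ R = ⊥ := by
    by_contra hc
    have hn : NormBy Z (P ⊓ R) := fun x hx w hw =>
      ⟨h.norm x hx w hw.1, h'.norm x hx w hw.2⟩
    have h1 := h.min _ inf_le_left hc hn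
    have h2 := h'.min _ inf_le_right hc hn
    exact hne (h1.symm.trans h2)
  have h1 : a * b * a⁻¹ * b⁻¹ ∈ P ⊓ R := by
    refine ⟨?_, R.mul_mem (h'.norm a (h.le ha) b hb) (R.inv_mem hb)⟩
    have := P.mul_mem ha (h.norm b (h'.le hb) a⁻¹ (P.inv_mem ha))
    simpa [mul_assoc] using this
  rw [hbot, Subgroup.mem_bot] at h1
  have h2 : a * b = (a * b * a⁻¹ * b⁻¹) * (b * a) := by group
  rw [h2, h1, one_mul]

/-- minimal normal subgroups -/
structure MinN (Z : Subgroup K) : Prop where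
  normal : Z.Normal
  ne : Z ≠ ⊥
  min : ∀ R : Subgroup K, R ≤ Z → R ≠ ⊥ → R.Normal → R = Z

theorem exists_minN [Finite K] (X : Subgroup K) (hX : X.Normal) (hX1 : X ≠ ⊥) :
    ∃ Z : Subgroup K, Z ≤ X ∧ MinN Z := by
  have hfin : ({R : Subgroup K | R ≤ X ∧ R ≠ ⊥ ∧ R.Normal}).Finite := Set.toFinite _
  obtain ⟨Z, hZ⟩ := hfin.exists_minimal ⟨X, le_rfl, hX1, hX⟩
  refine ⟨Z, hZ.prop.1, hZ.prop.2.2, hZ.prop.2.1, fun R h1 h2 h3 => ?_⟩
  exact le_antisymm h1 (hZ.le_of_le ⟨h1.trans hZ.prop.1, h2, h3⟩ h1)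

theorem exists_minIn [Finite K] (Z : Subgroup K) (hZ1 : Z ≠ ⊥) :
    ∃ P : Subgroup K, MinIn Z P := by
  have hfin : ({R : Subgroup K | R ≤ Z ∧ R ≠ ⊥ ∧ NormBy Z R}).Finite := Set.toFinite _
  obtain ⟨P, hP⟩ := hfin.exists_minimal ⟨Z, le_rfl, hZ1, fun x hx w hw =>
    Z.mul_mem (Z.mul_mem hx hw) (Z.inv_mem hx)⟩
  refine ⟨P, hP.prop.1, hP.prop.2.1, hP.prop.2.2, fun R h1 h2 h3 => ?_⟩
  exact le_antisymm h1 (hP.le_of_le ⟨h1.trans hP.prop.1, h2, h3⟩ h1)

theorem abelian_case [Finite K] {Z : Subgroup K} (hZ : MinN Z)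
    (hc : ∀ z ∈ Z, ∀ w ∈ Z, z * w = w * z) :
    ∃ p : ℕ, p.Prime ∧ (∀ z ∈ Z, z ^ p = 1) ∧ ∀ z ∈ Z, ∀ w ∈ Z, z * w = w * z := by
  have hcard : Nat.card Z ≠ 1 := fun h => hZ.ne (Subgroup.card_eq_one.mp h)
  obtain ⟨p, hp, hpd⟩ := Nat.exists_prime_and_dvd hcard
  haveI : Fact p.Prime := ⟨hp⟩
  obtain ⟨x, hx⟩ := exists_prime_orderOf_dvd_card' p hpd
  let T : Subgroup K :=
    { carrier := {z | z ∈ Z ∧ z ^ p = 1}
      mul_mem' := by
        rintro a b ⟨ha, ha1⟩ ⟨hb, hb1⟩
        refine ⟨Z.mul_mem ha hb, ?_⟩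
        have hcom : Commute a b := hc a ha b hb
        rw [hcom.mul_pow, ha1, hb1, one_mul]
      one_mem' := ⟨Z.one_mem, one_pow _⟩
      inv_mem' := by
        rintro a ⟨ha, ha1⟩
        exact ⟨Z.inv_mem ha, by rw [inv_pow, ha1, inv_one]⟩ }
  have hT : T = Z := by
    refine hZ.min T (fun z hz => hz.1) ?_ ⟨?_⟩
    · intro hbot
      have h1 : (x : K) ∈ T := by
        refine ⟨x.2, ?_⟩
        have := pow_orderOf_eq_one x
        rw [hx] at this
        exact_mod_cast congrArg Subtype.val this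
      rw [hbot, Subgroup.mem_bot] at h1
      have h2 : x = 1 := Subtype.ext h1
      rw [h2, orderOf_one] at hx
      exact hp.ne_one hx.symm
    · rintro z ⟨hz, hz1⟩ k
      refine ⟨hZ.normal.conj_mem z hz k, ?_⟩
      rw [conj_pow, hz1]; simp
  refine ⟨p, hp, fun z hz => ?_, hc⟩
  rw [← hT] at hz
  exact hz.2

/-- the centre of a non-abelian minimal normal subgroup is trivial -/
theorem centre {Z : Subgroup K} (hZ : MinN Z) (hc : ¬ ∀ z ∈ Z, ∀ w ∈ Z, z * w = w * z)
    {z : K} (hz : z ∈ Z) (h : ∀ w ∈ Z, z * w = w * z) : z = 1 := by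
  by_contra hne
  apply hc
  let T : Subgroup K :=
    { carrier := {z | z ∈ Z ∧ ∀ w ∈ Z, z * w = w * z}
      mul_mem' := by
        rintro a b ⟨ha, ha1⟩ ⟨hb, hb1⟩
        refine ⟨Z.mul_mem ha hb, fun w hw => ?_⟩
        rw [mul_assoc, hb1 w hw, ← mul_assoc, ha1 w hw, mul_assoc]
      one_mem' := ⟨Z.one_mem, fun w _ => by simp⟩
      inv_mem' := by
        rintro a ⟨ha, ha1⟩
        refine ⟨Z.inv_mem ha, fun w hw => ?_⟩
        have := ha1 w hw
        calc a⁻¹ * w = a⁻¹ * (w * a) * a⁻¹ := by group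
          _ = a⁻¹ * (a * w) * a⁻¹ := by rw [this]
          _ = w * a⁻¹ := by group }
  have hT : T = Z := by
    refine hZ.min T (fun z hz => hz.1) ?_ ⟨?_⟩
    · intro hbot
      have h1 : z ∈ T := ⟨hz, h⟩
      rw [hbot, Subgroup.mem_bot] at h1
      exact hne h1
    · rintro a ⟨ha, ha1⟩ k
      refine ⟨hZ.normal.conj_mem a ha k, fun w hw => ?_⟩
      have h1 := ha1 (k⁻¹ * w * k) (by
        have := hZ.normal.conj_mem w hw k⁻¹
        rwa [inv_inv] at this)
      calc k * a * k⁻¹ * w = k * (a * (k⁻¹ * w * k)) * k⁻¹ := by group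
        _ = k * ((k⁻¹ * w * k) * a) * k⁻¹ := by rw [h1]
        _ = w * (k * a * k⁻¹) := by group
  intro a ha w hw
  rw [← hT] at ha
  exact ha.2 w hw

open Classical in
/-- the coordinate of `z` in `Q` -/
noncomputable def co (Q : Subgroup K) (z : K) : K :=
  if h : ∃ q ∈ Q, ∀ x ∈ Q, z * x * z⁻¹ = q * x * q⁻¹ then h.choose else 1

theorem co_spec {Q : Subgroup K} {z : K}
    (h : ∃ q ∈ Q, ∀ x ∈ Q, z * x * z⁻¹ = q * x * q⁻¹) :
    co Q z ∈ Q ∧ ∀ x ∈ Q, z * x * z⁻¹ = co Q z * x * (co Q z)⁻¹ := by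
  unfold co
  rw [dif_pos h]
  exact h.choose_spec

end MinM

theorem specMIN : SpecMIN.{u} := by
  intro K _ _ X hX hX1
  obtain ⟨Z, hZX, hZ⟩ := MinM.exists_minN X hX hX1
  refine ⟨Z, hZ.normal, hZX, hZ.ne, ?_⟩
  by_cases hc : ∀ z ∈ Z, ∀ w ∈ Z, z * w = w * z
  · exact Or.inl (MinM.abelian_case hZ hc)
  right
  obtain ⟨Q, hQ⟩ := MinM.exists_minIn Z hZ.ne
  letI : MulAction K (MinM.Jt Q) := MinM.act Q
  have hsm : ∀ (k : K) (j : MinM.Jt Q), (k • j).1 = MinM.cj k j.1 := fun k j => rfl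
  have hJ : ∀ j : MinM.Jt Q, MinM.MinIn Z j.1 := by
    rintro ⟨P, k, rfl⟩
    exact hQ.cj hZ.normal k
  have hcomm : ∀ i j : MinM.Jt Q, i ≠ j → ∀ a ∈ i.1, ∀ b ∈ j.1, a * b = b * a :=
    fun i j hij a ha b hb => (hJ i).comm (hJ j) (fun h => hij (Subtype.ext h)) ha hb
  have hsup : (⨆ j : MinM.Jt Q, j.1) = Z := by
    refine hZ.min _ (iSup_le fun j => (hJ j).le) ?_ ⟨fun x hx k => ?_⟩
    · intro hb
      have : Q ≤ ⊥ := by
        rw [← hb]
        exact le_iSup (fun j : MinM.Jt Q => j.1) ⟨Q, 1, (MinM.cj_one Q).symm⟩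
      exact hQ.ne (le_bot_iff.mp this)
    · refine Subgroup.iSup_induction (fun j : MinM.Jt Q => j.1)
        (C := fun x => k * x * k⁻¹ ∈ ⨆ j : MinM.Jt Q, j.1) hx ?_ ?_ ?_
      · intro j x hx
        refine (le_iSup (fun j : MinM.Jt Q => j.1) (k • j)) ?_
        change k * x * k⁻¹ ∈ (k • j).1
        rw [hsm, MinM.mem_cj]
        have : k⁻¹ * (k * x * k⁻¹) * k = x := by group
        rwa [this]
      · simp
      · intro x y hx hy
        have : k * (x * y) * k⁻¹ = (k * x * k⁻¹) * (k * y * k⁻¹) := by group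
        rw [this]
        exact Subgroup.mul_mem _ hx hy
  -- an element commuting with all the factors commutes with `Z`
  have hcen : ∀ z : K, (∀ j : MinM.Jt Q, ∀ x ∈ j.1, z * x = x * z) → ∀ w ∈ Z, z * w = w * z := by
    intro z hz w hw
    rw [← hsup] at hw
    refine Subgroup.iSup_induction (fun j : MinM.Jt Q => j.1)
        (C := fun x => z * x = x * z) hw ?_ ?_ ?_
    · intro j x hx
      exact hz j x hx
    · simp
    · intro x y hx hy
      rw [← mul_assoc, hx, mul_assoc, hy, mul_assoc]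
  have hcen1 : ∀ j : MinM.Jt Q, ∀ q ∈ j.1, (∀ x ∈ j.1, q * x = x * q) → q = 1 := by
    intro j q hq h
    refine MinM.centre hZ hc ((hJ j).le hq) (hcen q fun i x hx => ?_)
    by_cases hij : j = i
    · subst hij; exact h x hx
    · exact hcomm j i hij q hq x hx
  have hex : ∀ j : MinM.Jt Q, ∀ z ∈ Z, ∃ q ∈ j.1, ∀ x ∈ j.1, z * x * z⁻¹ = q * x * q⁻¹ := by
    intro j z hz
    rw [← hsup] at hz
    refine Subgroup.iSup_induction (fun j : MinM.Jt Q => j.1)
      (C := fun z => ∃ q ∈ j.1, ∀ x ∈ j.1, z * x * z⁻¹ = q * x * q⁻¹) hz ?_ ?_ ?_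
    · intro i z hz
      by_cases hij : i = j
      · subst hij; exact ⟨z, hz, fun x _ => rfl⟩
      · refine ⟨1, j.1.one_mem, fun x hx => ?_⟩
        rw [hcomm i j hij z hz x hx]; simp
    · exact ⟨1, j.1.one_mem, fun x _ => rfl⟩
    · rintro z w ⟨q, hq, hq1⟩ ⟨r, hr, hr1⟩
      refine ⟨q * r, j.1.mul_mem hq hr, fun x hx => ?_⟩
      have h1 : z * w * x * (z * w)⁻¹ = z * (w * x * w⁻¹) * z⁻¹ := by group
      rw [h1, hr1 x hx, hq1 _ (j.1.mul_mem (j.1.mul_mem hr hx) (j.1.inv_mem hr))]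
      group
  have hco : ∀ j : MinM.Jt Q, ∀ z ∈ Z, MinM.co j.1 z ∈ j.1 ∧
      ∀ x ∈ j.1, z * x * z⁻¹ = MinM.co j.1 z * x * (MinM.co j.1 z)⁻¹ :=
    fun j z hz => MinM.co_spec (hex j z hz)
  have huni : ∀ j : MinM.Jt Q, ∀ z ∈ Z, ∀ q ∈ j.1, (∀ x ∈ j.1, z * x * z⁻¹ = q * x * q⁻¹) →
      MinM.co j.1 z = q := by
    intro j z hz q hq h
    obtain ⟨h1, h2⟩ := hco j z hz
    have h3 : q⁻¹ * MinM.co j.1 z = 1 := by
      refine hcen1 j _ (j.1.mul_mem (j.1.inv_mem hq) h1) fun x hx => ?_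
      have h4 := (h2 x hx).symm.trans (h x hx)
      calc q⁻¹ * MinM.co j.1 z * x
          = q⁻¹ * (MinM.co j.1 z * x * (MinM.co j.1 z)⁻¹) * MinM.co j.1 z := by group
        _ = q⁻¹ * (q * x * q⁻¹) * MinM.co j.1 z := by rw [h4]
        _ = x * (q⁻¹ * MinM.co j.1 z) := by group
    exact (eq_of_inv_mul_eq_one h3).symm
  have hmul : ∀ j : MinM.Jt Q, ∀ z ∈ Z, ∀ w ∈ Z,
      MinM.co j.1 (z * w) = MinM.co j.1 z * MinM.co j.1 w := by
    intro j z hz w hw
    obtain ⟨h1, h2⟩ := hco j z hz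
    obtain ⟨h3, h4⟩ := hco j w hw
    refine huni j _ (Z.mul_mem hz hw) _ (j.1.mul_mem h1 h3) fun x hx => ?_
    have h5 : z * w * x * (z * w)⁻¹ = z * (w * x * w⁻¹) * z⁻¹ := by group
    rw [h5, h4 x hx, h2 _ (j.1.mul_mem (j.1.mul_mem h3 hx) (j.1.inv_mem h3))]
    group
  have hself : ∀ j : MinM.Jt Q, ∀ q ∈ j.1, MinM.co j.1 q = q := fun j q hq =>
    huni j q ((hJ j).le hq) q hq fun x _ => rfl
  have hother : ∀ i j : MinM.Jt Q, i ≠ j → ∀ q ∈ j.1, MinM.co i.1 q = 1 := by
    intro i j hij q hq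
    refine huni i q ((hJ j).le hq) 1 i.1.one_mem fun x hx => ?_
    rw [hcomm j i (Ne.symm hij) q hq x hx]; simp
  refine ⟨MinM.Jt Q, inferInstance, inferInstance, fun j => j.1, fun j z => MinM.co j.1 z,
    ?_, ?_, ?_⟩
  · rintro ⟨P, k, rfl⟩ ⟨R, l, rfl⟩
    refine ⟨l * k⁻¹, Subtype.ext ?_⟩
    rw [hsm]
    rw [← MinM.cj_mul, inv_mul_cancel_right]
  · intro j
    constructor
    · have hnt : Nontrivial j.1 := (Subgroup.nontrivial_iff_ne_bot _).mpr (hJ j).ne
      refine { exists_pair_ne := hnt.exists_pair_ne, eq_bot_or_eq_top_of_normal := ?_ }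
      intro N hN
      by_cases hb : N = ⊥
      · exact Or.inl hb
      right
      have hR : N.map j.1.subtype = j.1 := by
        refine (hJ j).min _ ?_ ?_ ?_
        · rintro x ⟨y, -, rfl⟩; exact y.2
        · intro h
          apply hb
          exact (Subgroup.map_eq_bot_iff_of_injective N j.1.subtype_injective).mp h
        · rintro z hz _ ⟨w, hw, rfl⟩
          obtain ⟨h1, h2⟩ := hco j z hz
          refine ⟨⟨MinM.co j.1 z, h1⟩ * w * ⟨MinM.co j.1 z, h1⟩⁻¹, hN.conj_mem w hw _, ?_⟩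
          rw [Subgroup.coe_subtype, h2 w.1 w.2]
          rfl
      rw [eq_top_iff]
      intro x _
      have hx : x.1 ∈ N.map j.1.subtype := by rw [hR]; exact x.2
      obtain ⟨y, hy, hyx⟩ := hx
      have : y = x := Subtype.ext hyx
      rw [← this]; exact hy
    · by_contra hcon
      push Not at hcon
      apply (hJ j).ne
      rw [eq_bot_iff]
      intro q hq
      exact hcen1 j q hq fun x hx => hcon q hq x hx
  · refine ⟨fun j => (hJ j).le, hsup.ge, fun j z hz => (hco j z hz).1, hmul, hself, hother, ?_, ?_,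
      ?_, ?_⟩
    · intro z hz w hw h
      have h1 : w⁻¹ * z = 1 := by
        refine MinM.centre hZ hc (Z.mul_mem (Z.inv_mem hw) hz) (hcen _ fun j x hx => ?_)
        have h2 := (hco j z hz).2 x hx
        have h3 := (hco j w hw).2 x hx
        have h0 : MinM.co j.1 z = MinM.co j.1 w := h j
        rw [h0] at h2
        have h4 := h2.trans h3.symm
        calc w⁻¹ * z * x = w⁻¹ * (z * x * z⁻¹) * z := by group
          _ = w⁻¹ * (w * x * w⁻¹) * z := by rw [h4]
          _ = x * (w⁻¹ * z) := by group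
      exact (eq_of_inv_mul_eq_one h1).symm
    · intro c hc1
      classical
      haveI : Fintype (MinM.Jt Q) := Fintype.ofFinite _
      have key : ∀ s : Finset (MinM.Jt Q), ∃ z ∈ Z, (∀ j ∈ s, MinM.co j.1 z = c j) ∧
          ∀ j ∉ s, MinM.co j.1 z = 1 := by
        intro s
        induction s using Finset.induction_on with
        | empty =>
          refine ⟨1, Z.one_mem, by simp, fun j _ => ?_⟩
          exact hself j 1 j.1.one_mem
        | insert j s hj ih =>
          obtain ⟨z, hz, hz1, hz2⟩ := ih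
          refine ⟨z * c j, Z.mul_mem hz ((hJ j).le (hc1 j)), ?_, ?_⟩
          · intro i hi
            rw [hmul i z hz _ ((hJ j).le (hc1 j))]
            by_cases hij : i = j
            · subst hij
              rw [hz2 i hj, hself i _ (hc1 i), one_mul]
            · rw [hother i j hij _ (hc1 j), mul_one]
              exact hz1 i (Finset.mem_of_mem_insert_of_ne hi hij)
          · intro i hi
            rw [Finset.mem_insert, not_or] at hi
            rw [hmul i z hz _ ((hJ j).le (hc1 j)), hother i j hi.1 _ (hc1 j), mul_one]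
            exact hz2 i hi.2
      obtain ⟨z, hz, hz1, -⟩ := key Finset.univ
      exact ⟨z, hz, fun j => hz1 j (Finset.mem_univ j)⟩
    · intro k j q hq
      change k * q * k⁻¹ ∈ (k • j).1
      rw [hsm, MinM.mem_cj]
      have : k⁻¹ * (k * q * k⁻¹) * k = q := by group
      rwa [this]
    · intro k j z hz
      change MinM.co (k • j).1 (k * z * k⁻¹) = k * MinM.co j.1 z * k⁻¹
      obtain ⟨h1, h2⟩ := hco j z hz
      refine huni (k • j) _ (hZ.normal.conj_mem z hz k) _ ?_ ?_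
      · rw [hsm, MinM.mem_cj]
        have : k⁻¹ * (k * MinM.co j.1 z * k⁻¹) * k = MinM.co j.1 z := by group
        rwa [this]
      · intro x hx
        rw [hsm, MinM.mem_cj] at hx
        have h3 := h2 _ hx
        calc k * z * k⁻¹ * x * (k * z * k⁻¹)⁻¹ = k * (z * (k⁻¹ * x * k) * z⁻¹) * k⁻¹ := by group
          _ = k * (MinM.co j.1 z * (k⁻¹ * x * k) * (MinM.co j.1 z)⁻¹) * k⁻¹ := by rw [h3]
          _ = k * MinM.co j.1 z * k⁻¹ * x * (k * MinM.co j.1 z * k⁻¹)⁻¹ := by group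

end Pool.Agent.Lib.MP66ef6b
end

section
/-! # OUT: from almost simple to simple quotients -/
set_option autoImplicit false

namespace Pool.Agent.Lib.MP66ef6b

universe u

namespace OutM

theorem sup_finite {G : Type u} [Group G] (hG : LocFin G) (A B : Subgroup G) (hA : Finite A)
    (hB : Finite B) : Finite ↥(A ⊔ B) := by
  classical
  have h1 : ((A : Set G) ∪ (B : Set G)).Finite :=
    (Set.toFinite (A : Set G)).union (Set.toFinite (B : Set G))
  have h2 := hG h1.toFinset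
  have h3 : Subgroup.closure ((h1.toFinset : Finset G) : Set G) = A ⊔ B := by
    rw [Set.Finite.coe_toFinset, Subgroup.closure_union, Subgroup.closure_eq,
      Subgroup.closure_eq]
  rw [h3] at h2
  exact h2

theorem socle_top {Y : Type u} [Group Y] {Q : Subgroup Y} (hQ : IsSocle Q) :
    IsSocle (⊤ : Subgroup Q) where
  normal := inferInstance
  simple := by
    have := hQ.simple
    exact IsSimpleGroup.isSimpleGroup_of_surjective
      (Subgroup.topEquiv (G := Q)).symm.toMonoidHom (Subgroup.topEquiv (G := Q)).symm.surjective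
  noncomm := by
    obtain ⟨a, ha, b, hb, hab⟩ := hQ.noncomm
    exact ⟨⟨a, ha⟩, trivial, ⟨b, hb⟩, trivial, fun h => hab (congrArg Subtype.val h)⟩
  cent := by
    rw [eq_bot_iff]
    intro q hq
    rw [Subgroup.mem_bot]
    apply Subtype.ext
    have h1 : (q : Y) ∈ Subgroup.centralizer (Q : Set Y) := by
      rw [Subgroup.mem_centralizer_iff]
      intro y hy
      have h2 := Subgroup.mem_centralizer_iff.mp hq ⟨y, hy⟩ trivial
      exact congrArg Subtype.val h2
    rw [hQ.cent, Subgroup.mem_bot] at h1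
    exact h1

/-- passage to the preimage of the socle -/
theorem restrict {G : Type u} [Group G] {F E E₁ : Subgroup G} {Y : Type u} [Group Y]
    {Q : Subgroup Y} (X : Subgroup G) (ρ : X →* Y) (S : Subgroup Y) (hX : Finite X)
    (hρ : Function.Surjective ρ) (hinj : ∀ x : X, (x : G) ∈ E₁ → ρ x = 1 → x = 1)
    (hQ : IsSocle Q) (hS : ¬ Q ≤ S)
    (hF : ∀ y : Y, ∃ x : X, (x : G) ∈ F ∧ x ≠ 1 ∧ y * ρ x * y⁻¹ ∈ S) (hFE : F ≤ E)
    (hE : E ≤ E₁) (hEX : E ≤ X) (hEQ : ∀ x : X, (x : G) ∈ E → ρ x ∈ Q) :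
    Visible F E Q ⊤ := by
  have hle : (Q.comap ρ).map X.subtype ≤ X := by
    rintro _ ⟨x, -, rfl⟩
    exact x.2
  have hmem : ∀ x : ↥((Q.comap ρ).map X.subtype), ρ ⟨x, hle x.2⟩ ∈ Q := by
    rintro ⟨_, x, hx, rfl⟩
    exact hx
  refine ⟨(Q.comap ρ).map X.subtype,
    (ρ.comp (Subgroup.inclusion hle)).codRestrict Q hmem, S.subgroupOf Q, ?_, ?_, ?_, ?_,
    socle_top hQ, ?_, ?_⟩
  · exact Finite.of_injective _ (Subgroup.inclusion_injective hle)
  · intro x hx
    exact ⟨⟨x, hEX hx⟩, hEQ ⟨x, hEX hx⟩ hx, rfl⟩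
  · rintro ⟨q, hq⟩
    obtain ⟨x, rfl⟩ := hρ q
    exact ⟨⟨x, x, hq, rfl⟩, rfl⟩
  · intro x hx h1
    have h2 : ρ ⟨x, hle x.2⟩ = 1 := congrArg Subtype.val h1
    have h3 := hinj ⟨x, hle x.2⟩ (hE hx) h2
    apply Subtype.ext
    show (x : G) = 1
    exact congrArg (fun z : X => (z : G)) h3
  · intro h
    apply hS
    intro q hq
    exact h (x := ⟨q, hq⟩) trivial
  · rintro ⟨q, hq⟩
    obtain ⟨x, hx, hx1, hxS⟩ := hF q
    refine ⟨⟨x, x, hEQ x (hFE hx), rfl⟩, hx, ?_, hxS⟩
    intro h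
    apply hx1
    apply Subtype.ext
    show (x : G) = 1
    exact congrArg (fun z : ↥((Q.comap ρ).map X.subtype) => (z : G)) h

end OutM

open OutM in
theorem specOUT (hT : SpecTOWER.{u}) : SpecOUT.{u} := by
  intro G _ _ hG ⟨E₀, hE₀, hOut⟩ ⟨F, hFf, hAS⟩
  refine ⟨F, hFf, fun E hE hFE => ?_⟩
  have hf1 : Finite ↥(E ⊔ E₀) := sup_finite hG E E₀ hE hE₀
  obtain ⟨E', hE', hle, htow⟩ := hT G hG (E ⊔ E₀) hf1
  obtain ⟨Y, _, Q, X, ρ, S, hX, hEX, hρ, hinj, hQ, hS, hF⟩ :=
    hAS E' hE' (hFE.trans (le_sup_left.trans hle))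
  have hn := hQ.normal
  have hY : Finite Y := Finite.of_surjective ρ hρ
  refine ⟨Q, inferInstance, ?_⟩
  by_cases hex : ∃ x : X, (x : G) ∈ E ⊔ E₀ ∧ x ≠ 1 ∧ ρ x ∈ Q
  · obtain ⟨x, hx, hx1, hxQ⟩ := hex
    have h1 := htow x hx (fun h => hx1 (Subtype.ext h))
    have h2 : Subgroup.closure {y | ∃ g ∈ E', y = g * (x : G) * g⁻¹} ≤
        (Q.comap ρ).map X.subtype := by
      rw [Subgroup.closure_le]
      rintro _ ⟨g, hg, rfl⟩
      refine ⟨⟨g, hEX hg⟩ * x * ⟨g, hEX hg⟩⁻¹, ?_, rfl⟩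
      show ρ (⟨g, hEX hg⟩ * x * ⟨g, hEX hg⟩⁻¹) ∈ Q
      rw [map_mul, map_mul, map_inv]
      exact hn.conj_mem _ hxQ _
    refine restrict X ρ S hX hρ hinj hQ hS hF hFE (le_sup_left.trans hle)
      ((le_sup_left.trans hle).trans hEX) ?_
    intro y hy
    obtain ⟨z, hz, hzy⟩ := h2 (h1 ((le_sup_left : E ≤ E ⊔ E₀) hy))
    have : z = y := Subtype.ext hzy
    rw [← this]
    exact hz
  · exfalso
    push Not at hex
    have hE₀X : E₀ ≤ X := (le_sup_right.trans hle).trans hEX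
    apply hOut Y Q hQ ((QuotientGroup.mk' Q).comp (ρ.comp (Subgroup.inclusion hE₀X)))
    rw [injective_iff_map_eq_one]
    intro e he
    have h1 : ρ (Subgroup.inclusion hE₀X e) ∈ Q := by
      rw [← QuotientGroup.eq_one_iff]
      exact he
    by_contra hne
    apply hex (Subgroup.inclusion hE₀X e) ((le_sup_right : E₀ ≤ E ⊔ E₀) e.2) ?_ h1
    intro h2
    apply hne
    apply Subtype.ext
    show (e : G) = 1
    exact congrArg (fun z : X => (z : G)) h2

end Pool.Agent.Lib.MP66ef6b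
end

section
/-!
# MP_66ef6b_al: module PART (existence of partners)
-/
set_option autoImplicit false

namespace Pool.Agent.Lib.MP66ef6b

universe u

namespace PartM

variable {K : Type u} [Group K]

/-- A subgroup which meets a simple group non-trivially in a normal subgroup contains it. -/
theorem le_of_simple {Q : Subgroup K} (hs : IsSimpleGroup Q) (N : Subgroup K)
    (hN : ∀ q ∈ Q, ∀ n ∈ N, n ∈ Q → q * n * q⁻¹ ∈ N) (h : ∃ q ∈ Q, q ∈ N ∧ q ≠ 1) : Q ≤ N := by
  have hn : (N.subgroupOf Q).Normal := by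
    refine ⟨fun n hn g => ?_⟩
    rw [Subgroup.mem_subgroupOf] at hn ⊢
    exact hN g g.2 n hn n.2
  rcases hn.eq_bot_or_eq_top with hb | ht
  · obtain ⟨q, hq, hqN, hq1⟩ := h
    exfalso
    apply hq1
    have h1 : (⟨q, hq⟩ : Q) ∈ N.subgroupOf Q := by
      rw [Subgroup.mem_subgroupOf]
      exact hqN
    rw [hb, Subgroup.mem_bot] at h1
    exact congrArg Subtype.val h1
  · exact Subgroup.subgroupOf_eq_top.1 ht

/-- The centre of a non-abelian simple group is trivial. -/
theorem exists_not_comm {Q : Subgroup K} (hs : IsSimpleGroup Q)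
    (hn : ∃ a ∈ Q, ∃ b ∈ Q, a * b ≠ b * a) {a : K} (ha : a ∈ Q) (ha1 : a ≠ 1) :
    ∃ b ∈ Q, a * b ≠ b * a := by
  by_contra hc
  push Not at hc
  have hle : Q ≤ Subgroup.centralizer (Q : Set K) := by
    refine le_of_simple hs _ (fun q hq n hn hnQ => ?_) ⟨a, ha, ?_, ha1⟩
    · rw [Subgroup.mem_centralizer_iff] at hn
      have h1 : q * n = n * q := hn q hq
      have h2 : q * n * q⁻¹ = n := by rw [h1]; group
      rw [h2, Subgroup.mem_centralizer_iff]
      exact hn
    · rw [Subgroup.mem_centralizer_iff]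
      intro b hb
      exact (hc b hb).symm
  obtain ⟨x, hx, y, hy, hxy⟩ := hn
  have := hle hy
  rw [Subgroup.mem_centralizer_iff] at this
  exact hxy (this x hx)

variable {Z R : Subgroup K} {J : Type u} [MulAction K J] {Q : J → Subgroup K} {π : J → K → K}

/-- `{π i r : r ∈ R, π j r = 1}`. -/
def img (h : Coords Z Q π) (hR : R ≤ Z) (j i : J) : Subgroup K where
  carrier := {x | ∃ r ∈ R, π j r = 1 ∧ π i r = x}
  one_mem' := ⟨1, R.one_mem, h.one j, h.one i⟩
  mul_mem' := by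
    rintro _ _ ⟨r, hr, h1, rfl⟩ ⟨r', hr', h1', rfl⟩
    exact ⟨r * r', R.mul_mem hr hr', by rw [h.mul j _ (hR hr) _ (hR hr'), h1, h1', one_mul],
      h.mul i _ (hR hr) _ (hR hr')⟩
  inv_mem' := by
    rintro _ ⟨r, hr, h1, rfl⟩
    exact ⟨r⁻¹, R.inv_mem hr, by rw [h.inv j (hR hr), h1, inv_one], h.inv i (hR hr)⟩

theorem mem_img {h : Coords Z Q π} {hR : R ≤ Z} {j i : J} {x : K} :
    x ∈ img h hR j i ↔ ∃ r ∈ R, π j r = 1 ∧ π i r = x := Iff.rfl

/-- If the coordinate `i` does not depend on the coordinate `j`, elements of `R` have arbitrary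
coordinates at `j` and coordinate `1` at `i`. -/
theorem exists_sep (h : Coords Z Q π) (hs : SimpleFam Q) (hR : R ≤ Z) (hsub : IsSubdirect Q π R)
    {j i : J} (hb : ∃ r ∈ R, π j r = 1 ∧ π i r ≠ 1) {q : K} (hq : q ∈ Q j) :
    ∃ r ∈ R, π i r = 1 ∧ π j r = q := by
  have hle : Q i ≤ img h hR j i := by
    refine le_of_simple (hs i).1 _ ?_ ?_
    · rintro p hp _ ⟨r, hr, h1, rfl⟩ -
      obtain ⟨r', hr', rfl⟩ := hsub i p hp
      refine mem_img.2 ⟨r' * r * r'⁻¹, R.mul_mem (R.mul_mem hr' hr) (R.inv_mem hr'), ?_, ?_⟩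
      · rw [h.mul j _ (Z.mul_mem (hR hr') (hR hr)) _ (Z.inv_mem (hR hr')),
          h.mul j _ (hR hr') _ (hR hr), h1, h.inv j (hR hr')]
        group
      · rw [h.mul i _ (Z.mul_mem (hR hr') (hR hr)) _ (Z.inv_mem (hR hr')),
          h.mul i _ (hR hr') _ (hR hr), h.inv i (hR hr')]
    · obtain ⟨r, hr, h1, h2⟩ := hb
      exact ⟨π i r, h.mem i r (hR hr), ⟨r, hr, h1, rfl⟩, h2⟩
  obtain ⟨r₀, hr₀, rfl⟩ := hsub j q hq
  obtain ⟨r₁, hr₁, h1, h2⟩ := mem_img.1 (hle (h.mem i r₀ (hR hr₀)))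
  refine ⟨r₁⁻¹ * r₀, R.mul_mem (R.inv_mem hr₁) hr₀, ?_, ?_⟩
  · rw [h.mul i _ (Z.inv_mem (hR hr₁)) _ (hR hr₀), h.inv i (hR hr₁), h2, inv_mul_cancel]
  · rw [h.mul j _ (Z.inv_mem (hR hr₁)) _ (hR hr₀), h.inv j (hR hr₁), h1, inv_one, one_mul]

theorem exists_kill (h : Coords Z Q π) (hs : SimpleFam Q) (hR : R ≤ Z) (hsub : IsSubdirect Q π R)
    {j : J} (hb : ∀ i, i ≠ j → ∃ r ∈ R, π j r = 1 ∧ π i r ≠ 1) (I : Finset J) :
    (∀ i ∈ I, i ≠ j) → ∃ r ∈ R, π j r ≠ 1 ∧ ∀ i ∈ I, π i r = 1 := by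
  classical
  induction I using Finset.induction_on with
  | empty =>
    intro _
    obtain ⟨q, hq, hq1⟩ := Coords.exists_ne_one hs j
    obtain ⟨r, hr, h1⟩ := hsub j q hq
    exact ⟨r, hr, by rw [h1]; exact hq1, by simp⟩
  | insert i₀ I hi₀ ih =>
    intro hI
    obtain ⟨r, hr, hr1, hrI⟩ := ih fun i hi => hI i (Finset.mem_insert_of_mem hi)
    obtain ⟨b, hb', hab⟩ := exists_not_comm (hs j).1 (hs j).2 (h.mem j r (hR hr)) hr1
    obtain ⟨r', hr', h1, h2⟩ :=
      exists_sep h hs hR hsub (hb i₀ (hI i₀ (Finset.mem_insert_self _ _))) hb'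
    have hrZ := hR hr
    have hrZ' := hR hr'
    have hform : ∀ i, π i (r * r' * r⁻¹ * r'⁻¹) = π i r * π i r' * (π i r)⁻¹ * (π i r')⁻¹ := by
      intro i
      rw [h.mul i _ (Z.mul_mem (Z.mul_mem hrZ hrZ') (Z.inv_mem hrZ)) _ (Z.inv_mem hrZ'),
        h.mul i _ (Z.mul_mem hrZ hrZ') _ (Z.inv_mem hrZ), h.mul i _ hrZ _ hrZ', h.inv i hrZ,
        h.inv i hrZ']
    refine ⟨r * r' * r⁻¹ * r'⁻¹,
      R.mul_mem (R.mul_mem (R.mul_mem hr hr') (R.inv_mem hr)) (R.inv_mem hr'), ?_, ?_⟩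
    · rw [hform, h2]
      intro he
      apply hab
      rw [mul_inv_eq_one, mul_inv_eq_iff_eq_mul] at he
      exact he
    · intro i hi
      rw [hform]
      rcases Finset.mem_insert.1 hi with rfl | hi
      · rw [h1]; group
      · rw [hrI i hi]; group

end PartM

open PartM in
theorem specPART : SpecPART.{u} := by
  classical
  intro K _ J _ _ Z R Q π h hs hR hsub j hj
  have : Fintype J := Fintype.ofFinite J
  by_cases hg : ∃ i, i ≠ j ∧ ∀ r ∈ R, π j r = 1 → π i r = 1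
  · obtain ⟨i, hij, hg⟩ := hg
    have hwd : ∀ r ∈ R, ∀ r' ∈ R, π j r = π j r' → π i r = π i r' := by
      intro r hr r' hr' he
      have h1 : π j (r⁻¹ * r') = 1 := by
        rw [h.mul j _ (Z.inv_mem (hR hr)) _ (hR hr'), h.inv j (hR hr), he, inv_mul_cancel]
      have h2 := hg _ (R.mul_mem (R.inv_mem hr) hr') h1
      rw [h.mul i _ (Z.inv_mem (hR hr)) _ (hR hr'), h.inv i (hR hr), inv_mul_eq_one] at h2
      exact h2
    have hex : ∀ q : K, ∃ t : K, q ∈ Q j → ∃ r ∈ R, π j r = q ∧ π i r = t := by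
      intro q
      by_cases hq : q ∈ Q j
      · obtain ⟨r, hr, h1⟩ := hsub j q hq
        exact ⟨π i r, fun _ => ⟨r, hr, h1, rfl⟩⟩
      · exact ⟨1, fun h => absurd h hq⟩
    choose θ hθ using hex
    have hθr : ∀ r ∈ R, π i r = θ (π j r) := by
      intro r hr
      obtain ⟨r', hr', h1, h2⟩ := hθ (π j r) (h.mem j r (hR hr))
      rw [← h2]
      exact hwd r hr r' hr' h1.symm
    refine ⟨i, θ, ⟨hij, ?_, ?_, ?_, hθr⟩⟩
    · intro q hq
      obtain ⟨r, hr, -, h2⟩ := hθ q hq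
      rw [← h2]
      exact h.mem i r (hR hr)
    · intro q hq q' hq'
      obtain ⟨r, hr, h1, h2⟩ := hθ q hq
      obtain ⟨r', hr', h1', h2'⟩ := hθ q' hq'
      rw [← h2, ← h2', ← h.mul i _ (hR hr) _ (hR hr'), hθr _ (R.mul_mem hr hr'),
        h.mul j _ (hR hr) _ (hR hr'), h1, h1']
    · intro q hq hq1
      by_contra hne
      have hle : Q j ≤ img h hR i j := by
        refine le_of_simple (hs j).1 _ ?_ ?_
        · rintro p hp _ ⟨r, hr, h1, rfl⟩ -
          obtain ⟨r', hr', rfl⟩ := hsub j p hp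
          refine mem_img.2 ⟨r' * r * r'⁻¹, R.mul_mem (R.mul_mem hr' hr) (R.inv_mem hr'), ?_, ?_⟩
          · rw [h.mul i _ (Z.mul_mem (hR hr') (hR hr)) _ (Z.inv_mem (hR hr')),
              h.mul i _ (hR hr') _ (hR hr), h1, h.inv i (hR hr')]
            group
          · rw [h.mul j _ (Z.mul_mem (hR hr') (hR hr)) _ (Z.inv_mem (hR hr')),
              h.mul j _ (hR hr') _ (hR hr), h.inv j (hR hr')]
        · obtain ⟨r, hr, h1, h2⟩ := hθ q hq
          exact ⟨q, hq, ⟨r, hr, by rw [h2, hq1], h1⟩, hne⟩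
      obtain ⟨p, hp, hp1⟩ := Coords.exists_ne_one hs i
      obtain ⟨r, hr, h1⟩ := hsub i p hp
      obtain ⟨r', hr', h3, h4⟩ := mem_img.1 (hle (h.mem j r (hR hr)))
      apply hp1
      rw [← h1, ← h3]
      exact hwd r hr r' hr' h4.symm
  · exfalso
    push Not at hg
    obtain ⟨r, hr, hr1, hrI⟩ := exists_kill h hs hR hsub hg (Finset.univ.erase j)
      fun i hi => (Finset.mem_erase.1 hi).1
    have hrj : π j r = r := by
      refine h.ext _ (h.memZ j (hR hr)) _ (hR hr) fun i => ?_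
      by_cases hij : i = j
      · subst hij
        exact h.self i _ (h.mem i r (hR hr))
      · rw [h.other i j hij _ (h.mem j r (hR hr)), hrI i (Finset.mem_erase.2 ⟨hij, Finset.mem_univ _⟩)]
    have hrQ : r ∈ Q j := by
      rw [← hrj]
      exact h.mem j r (hR hr)
    apply hj
    refine le_of_simple (hs j).1 R ?_ ⟨r, hrQ, hr, by rw [← hrj]; exact hr1⟩
    intro q hq n hn hnQ
    obtain ⟨r', hr', rfl⟩ := hsub j q hq
    rw [← h.conjZ j (hR hr') hnQ]
    exact R.mul_mem (R.mul_mem hr' hn) (R.inv_mem hr')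

end Pool.Agent.Lib.MP66ef6b
end

section
/-!
# MP_66ef6b_al: POSA, position 1 in case (a)
-/
set_option autoImplicit false

namespace Pool.Agent.Lib.MP66ef6b

universe u

namespace PosaM

variable {K : Type u} [Group K] {Z : Subgroup K} {J : Type u} [MulAction K J]
  {Q : J → Subgroup K} {π : J → K → K}

/-- If `f = u m` is bad for `z` then `m⁻¹ z⁻¹ f z` is in `M ⊓ Z`, and these are its
coordinates. -/
theorem key (hZ : Z.Normal) (hc : Coords Z Q π) {M : Subgroup K} {f u m z : K}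
    (hf : f = u * m) (hu : u ∈ Z) (hm : m ∈ M) (hz : z ∈ Z) (hbad : z⁻¹ * f * z ∈ M) :
    ∃ r ∈ M ⊓ Z, ∀ k : J, π k r =
      f⁻¹ * (π (f • k) u * (π (f • k) z)⁻¹) * f * π k z := by
  have e1 : m⁻¹ * (z⁻¹ * f * z) = f⁻¹ * (u * z⁻¹) * f * z := by
    subst hf
    group
  have huz : u * z⁻¹ ∈ Z := Z.mul_mem hu (Z.inv_mem hz)
  have h2 : f⁻¹ * (u * z⁻¹) * f ∈ Z := by
    have := hZ.conj_mem _ huz f⁻¹
    rwa [inv_inv] at this
  refine ⟨f⁻¹ * (u * z⁻¹) * f * z, ⟨?_, Z.mul_mem h2 hz⟩, fun k => ?_⟩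
  · rw [← e1]
    exact M.mul_mem (M.inv_mem hm) hbad
  · rw [hc.mul k _ h2 z hz]
    congr 1
    have h3 := hc.conj f⁻¹ (f • k) (u * z⁻¹) huz
    rw [inv_smul_smul, inv_inv] at h3
    rw [h3, hc.mul _ _ hu _ (Z.inv_mem hz), hc.inv _ hz]

/-- Elements of `Z` with given coordinates on a regular orbit. -/
theorem assign (hc : Coords Z Q π) {F : Subgroup K} {j : J}
    (free : ∀ f ∈ F, f • j = j → f = 1) (v : K → K) (hv : ∀ f ∈ F, v f ∈ Q (f • j)) :
    ∃ z ∈ Z, (∀ f ∈ F, π (f • j) z = v f) ∧ ∀ k, (∀ f ∈ F, f • j ≠ k) → π k z = 1 := by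
  classical
  obtain ⟨z, hz, hz'⟩ := hc.surj
    (fun k => if h : ∃ f, f ∈ F ∧ f • j = k then v h.choose else 1) (by
      intro k
      by_cases h : ∃ f, f ∈ F ∧ f • j = k
      · simp only [h, dif_pos]
        have h1 := hv h.choose h.choose_spec.1
        rwa [h.choose_spec.2] at h1
      · simp only [h, dif_neg, not_false_iff]
        exact (Q k).one_mem)
  refine ⟨z, hz, fun f hf => ?_, fun k hk => ?_⟩
  · have h : ∃ g, g ∈ F ∧ g • j = f • j := ⟨f, hf, rfl⟩
    rw [hz' (f • j), dif_pos h]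
    congr 1
    have h1 := h.choose_spec
    have h2 : f⁻¹ * h.choose = 1 := by
      apply free _ (F.mul_mem (F.inv_mem hf) h1.1)
      rw [mul_smul, h1.2, inv_smul_smul]
    exact (inv_mul_eq_one.mp h2).symm
  · rw [hz' k, dif_neg]
    rintro ⟨f, hf, h⟩
    exact hk f hf h

theorem conj_mem (hc : Coords Z Q π) {f q : K} {j : J} (hq : q ∈ Q j) :
    f * q * f⁻¹ ∈ Q (f • j) := hc.conjQ f j q hq

theorem conj_mem' (hc : Coords Z Q π) {f q : K} {j : J} (hq : q ∈ Q (f • j)) :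
    f⁻¹ * q * f ∈ Q j := by
  have := hc.conjQ f⁻¹ (f • j) q hq
  rwa [inv_smul_smul, inv_inv] at this

end PosaM

open PosaM in
theorem specPOSA : SpecPOSA.{u} := by
  intro K _ _ J _ _ Z F M Q π hZ hc _hs hF hP j hj free
  classical
  obtain ⟨q, hq, hqM⟩ := SetLike.not_le_iff_exists.mp hj
  choose! u hu m hm hum using hF
  obtain ⟨z, hz, hz1, -⟩ := assign hc free
    (fun f => if f = 1 then 1 else (f * q * f⁻¹)⁻¹ * π (f • j) (u f)) (by
      intro f hf
      by_cases h1 : f = 1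
      · simp only [h1, if_true]
        exact (Q _).one_mem
      · simp only [h1, if_false]
        exact (Q _).mul_mem ((Q _).inv_mem (conj_mem hc hq)) (hc.mem _ _ (hu f hf)))
  have hzj : π j z = 1 := by
    have := hz1 1 F.one_mem
    simpa using this
  refine ⟨z, hz, fun f hf hf1 hbad => ?_⟩
  obtain ⟨r, hr, hr'⟩ := key hZ hc (hum f hf) (hu f hf) (hm f hf) hz hbad
  have h1 := (hP r hr.2).mp hr j
  rw [hr' j, hz1 f hf, hzj] at h1
  simp only [hf1, if_false] at h1
  apply hqM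
  have h2 : f⁻¹ * (π (f • j) (u f) * ((f * q * f⁻¹)⁻¹ * π (f • j) (u f))⁻¹) * f * 1 = q := by
    group
  rw [h2] at h1
  exact h1.1

end Pool.Agent.Lib.MP66ef6b
end

section
/-!
# MP_66ef6b_al: module QUOT
-/
set_option autoImplicit false

namespace Pool.Agent.Lib.MP66ef6b

universe u

namespace QuotM

/-- Lexicographic maximum of two functions on a non-empty set of subgroups. -/
theorem exists_lex {α : Type u} [Finite α] (S : α → Prop) (h : ∃ a, S a) (a b : α → ℕ) :
    ∃ m, S m ∧ ∀ m', S m' → a m' ≤ a m ∧ (a m' = a m → b m' ≤ b m) := by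
  classical
  have := Fintype.ofFinite α
  obtain ⟨a₀, ha₀⟩ := h
  obtain ⟨m₁, hm₁, hmax₁⟩ := (Finset.univ.filter S).exists_max_image a
    ⟨a₀, Finset.mem_filter.mpr ⟨Finset.mem_univ _, ha₀⟩⟩
  obtain ⟨m₂, hm₂, hmax₂⟩ := ((Finset.univ.filter S).filter fun m => a m = a m₁).exists_max_image b
    ⟨m₁, Finset.mem_filter.mpr ⟨hm₁, rfl⟩⟩
  have h2 := Finset.mem_filter.mp hm₂
  refine ⟨m₂, (Finset.mem_filter.mp h2.1).2, fun m' hm' => ?_⟩
  have h3 : m' ∈ Finset.univ.filter S := Finset.mem_filter.mpr ⟨Finset.mem_univ _, hm'⟩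
  refine ⟨(hmax₁ m' h3).trans h2.2.ge, fun h4 => ?_⟩
  exact hmax₂ m' (Finset.mem_filter.mpr ⟨h3, h4.trans h2.2⟩)

theorem ne_bot_of {K : Type u} [Group K] {W E : Subgroup K} {e : K} (h1 : e ∈ W) (h2 : e ∈ E)
    (h3 : e ≠ 1) : W ⊓ E ≠ ⊥ := by
  intro h
  have : e ∈ W ⊓ E := ⟨h1, h2⟩
  rw [h, Subgroup.mem_bot] at this
  exact h3 this

theorem exists_of_ne_bot {K K' : Type u} [Group K] [Group K'] {E : Subgroup K} {φ : K →* K'}
    {W : Subgroup K'} (h : W ⊓ E.map φ ≠ ⊥) : ∃ e ∈ E, e ≠ 1 ∧ φ e ∈ W := by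
  obtain ⟨⟨x, hx⟩, hx1⟩ := Subgroup.ne_bot_iff_exists_ne_one.mp h
  obtain ⟨e, he, rfl⟩ := hx.2
  refine ⟨e, he, ?_, hx.1⟩
  rintro rfl
  exact hx1 (Subtype.ext (map_one φ))

end QuotM

open QuotM in
theorem specQUOT : SpecQUOT.{u} := by
  intro K _ _ F E E₂ X M₀ hX hFE hEE hEX h1 h2 hXM₀ hConf₀
  obtain ⟨M, ⟨hXM, hConf⟩, hmax⟩ := exists_lex
    (fun M : Subgroup K => ¬ X ≤ M ∧ Conf F M) ⟨M₀, hXM₀, hConf₀⟩
    (fun M => Nat.card M.normalCore) (fun M => Nat.card M)
  set N : Subgroup K := M.normalCore with hN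
  have hNM : N ≤ M := Subgroup.normalCore_le M
  have hNn : N.Normal := Subgroup.normalCore_normal M
  have hsurj : Function.Surjective (QuotientGroup.mk' N) := QuotientGroup.mk'_surjective N
  have hker : (QuotientGroup.mk' N).ker = N := QuotientGroup.ker_mk' N
  have hkE : (QuotientGroup.mk' N).ker ⊓ E₂ = ⊥ := by
    by_contra h
    rw [hker] at h
    exact hXM ((h1 N hNn h).trans hNM)
  have hone : ∀ e ∈ E₂, e ≠ 1 → QuotientGroup.mk' N e ≠ 1 := by
    intro e he he1 h
    have : e ∈ (QuotientGroup.mk' N).ker ⊓ E₂ := ⟨MonoidHom.mem_ker.mpr h, he⟩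
    rw [hkE, Subgroup.mem_bot] at this
    exact he1 this
  have hcm : (M.map (QuotientGroup.mk' N)).comap (QuotientGroup.mk' N) = M := by
    rw [Subgroup.comap_map_eq, hker]
    exact sup_eq_left.mpr hNM
  -- subgroups of the quotient which are in the set `SS` come from members of `SS`
  have hback : ∀ M' : Subgroup (K ⧸ N), ¬ X.map (QuotientGroup.mk' N) ≤ M' →
      Conf (F.map (QuotientGroup.mk' N)) M' →
      ¬ X ≤ M'.comap (QuotientGroup.mk' N) ∧ Conf F (M'.comap (QuotientGroup.mk' N)) := by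
    intro M' hM' hc
    refine ⟨fun h => hM' (Subgroup.map_le_iff_le_comap.mpr h), fun k => ?_⟩
    obtain ⟨_, ⟨f, hf, rfl⟩, hf1, hk⟩ := hc (QuotientGroup.mk' N k)
    refine ⟨f, hf, ?_, ?_⟩
    · rintro rfl
      exact hf1 (map_one _)
    · rw [Subgroup.mem_comap]
      simpa using hk
  refine ⟨K ⧸ N, inferInstance, inferInstance, QuotientGroup.mk' N, M.map (QuotientGroup.mk' N),
    hsurj, hkE, ?_, ?_, ?_, ?_, ?_, ?_⟩
  · intro W hW hWE
    obtain ⟨e, he, he1, heW⟩ := exists_of_ne_bot hWE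
    exact Subgroup.map_le_iff_le_comap.mpr
      (h1 (W.comap _) (hW.comap _) (ne_bot_of (Subgroup.mem_comap.mpr heW) he he1))
  · intro W hWX hnb hWE
    obtain ⟨e, he, he1, heW⟩ := exists_of_ne_bot hWE
    refine Subgroup.map_le_iff_le_comap.mpr ?_
    have h3 := h2 (W.comap (QuotientGroup.mk' N) ⊓ X) inf_le_right ?_
      (ne_bot_of ⟨Subgroup.mem_comap.mpr heW, hEX (hEE he)⟩ he he1)
    · exact h3.trans inf_le_left
    · rintro x hx w ⟨hw, hwX⟩
      refine ⟨?_, X.mul_mem (X.mul_mem hx hwX) (X.inv_mem hx)⟩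
      have h4 := hnb (QuotientGroup.mk' N x) (Subgroup.mem_map_of_mem _ hx)
        (QuotientGroup.mk' N w) hw
      have h5 : QuotientGroup.mk' N (x * w * x⁻¹) ∈ W := by simpa using h4
      exact h5
  · intro h
    have h3 := Subgroup.map_le_iff_le_comap.mp h
    rw [hcm] at h3
    exact hXM h3
  · intro k'
    obtain ⟨k, rfl⟩ := hsurj k'
    obtain ⟨f, hf, hf1, hk⟩ := hConf k
    refine ⟨_, Subgroup.mem_map_of_mem _ hf, hone f (hEE (hFE hf)) hf1, ?_⟩
    have := Subgroup.mem_map_of_mem (QuotientGroup.mk' N) hk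
    simpa using this
  · intro M' hlt
    by_contra hXM'
    have hle : M ≤ M'.comap (QuotientGroup.mk' N) := by
      rw [← hcm]
      exact Subgroup.comap_mono hlt.le
    have hne : M ≠ M'.comap (QuotientGroup.mk' N) := by
      intro h
      have h3 : M.map (QuotientGroup.mk' N) = M' := by
        rw [h, Subgroup.map_comap_eq_self_of_surjective hsurj]
      exact hlt.ne h3
    have hin : ¬ X ≤ M'.comap (QuotientGroup.mk' N) ∧
        Conf F (M'.comap (QuotientGroup.mk' N)) := by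
      refine ⟨fun h => hXM' (Subgroup.map_le_iff_le_comap.mpr h), fun k => ?_⟩
      obtain ⟨f, hf, hf1, hk⟩ := hConf k
      exact ⟨f, hf, hf1, hle hk⟩
    obtain ⟨h3, h4⟩ := hmax _ hin
    have h5 : Nat.card M.normalCore ≤ Nat.card (M'.comap (QuotientGroup.mk' N)).normalCore :=
      Nat.card_le_card_of_injective _
        (Subgroup.inclusion_injective (Subgroup.normalCore_mono hle))
    have h6 := h4 (le_antisymm h3 h5)
    have h7 : M = M'.comap (QuotientGroup.mk' N) :=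
      Subgroup.eq_of_le_of_card_ge hle h6
    exact hne h7
  · intro M' hXM' hc
    have hin := hback M' hXM' hc
    obtain ⟨h3, -⟩ := hmax _ hin
    have h5 : N ≤ (M'.comap (QuotientGroup.mk' N)).normalCore := by
      refine (Subgroup.normal_le_normalCore).mpr ?_
      exact hker.symm.le.trans (MonoidHom.ker_le_comap _ _)
    have h6 : N = (M'.comap (QuotientGroup.mk' N)).normalCore :=
      Subgroup.eq_of_le_of_card_ge h5 h3
    have h7 : M'.normalCore.comap (QuotientGroup.mk' N) ≤ N := by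
      refine le_trans ?_ h6.symm.le
      have hn : (M'.normalCore.comap (QuotientGroup.mk' N)).Normal :=
        (Subgroup.normalCore_normal M').comap _
      exact Subgroup.normal_le_normalCore.mpr (Subgroup.comap_mono (Subgroup.normalCore_le M'))
    rw [← Subgroup.map_comap_eq_self_of_surjective hsurj M'.normalCore, eq_bot_iff]
    refine (Subgroup.map_mono h7).trans ?_
    rw [Subgroup.map_le_iff_le_comap]
    exact hker.symm.le

end Pool.Agent.Lib.MP66ef6b
end

section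
/-!
# MP_66ef6b_al: module TOWER
-/
set_option autoImplicit false

namespace Pool.Agent.Lib.MP66ef6b

universe u

namespace TowerM

/-- An element of the normal closure of `x` is in the closure of finitely many conjugates. -/
theorem exists_finite {G : Type u} [Group G] (x y : G)
    (hy : y ∈ Subgroup.normalClosure ({x} : Set G)) :
    ∃ T : Set G, T.Finite ∧ y ∈ Subgroup.closure {z | ∃ g ∈ T, z = g * x * g⁻¹} := by
  have hmono : ∀ T₁ T₂ : Set G, T₁ ⊆ T₂ →
      Subgroup.closure {z | ∃ g ∈ T₁, z = g * x * g⁻¹} ≤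
        Subgroup.closure {z | ∃ g ∈ T₂, z = g * x * g⁻¹} := fun T₁ T₂ h =>
    Subgroup.closure_mono fun z ⟨g, hg, hz⟩ => ⟨g, h hg, hz⟩
  unfold Subgroup.normalClosure at hy
  induction hy using Subgroup.closure_induction with
  | mem z hz =>
    obtain ⟨a, ha, hc⟩ := Group.mem_conjugatesOfSet_iff.mp hz
    rw [Set.mem_singleton_iff] at ha
    subst ha
    obtain ⟨g, hg⟩ := isConj_iff.mp hc
    exact ⟨{g}, Set.finite_singleton g, Subgroup.subset_closure ⟨g, rfl, hg.symm⟩⟩
  | one => exact ⟨∅, Set.finite_empty, Subgroup.one_mem _⟩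
  | mul a b _ _ iha ihb =>
    obtain ⟨T₁, h1, ha⟩ := iha
    obtain ⟨T₂, h2, hb⟩ := ihb
    exact ⟨T₁ ∪ T₂, h1.union h2, Subgroup.mul_mem _ (hmono T₁ _ Set.subset_union_left ha)
      (hmono T₂ _ Set.subset_union_right hb)⟩
  | inv a _ iha =>
    obtain ⟨T₁, h1, ha⟩ := iha
    exact ⟨T₁, h1, Subgroup.inv_mem _ ha⟩

end TowerM

open TowerM in
theorem specTOWER : SpecTOWER.{u} := by
  intro G _ _ hLF E hE
  have h1 : ∀ x y : G, x ≠ 1 → ∃ T : Set G, T.Finite ∧
      y ∈ Subgroup.closure {z | ∃ g ∈ T, z = g * x * g⁻¹} := by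
    intro x y hx
    refine exists_finite x y ?_
    rcases (Subgroup.normalClosure_normal (s := ({x} : Set G))).eq_bot_or_eq_top with h | h
    · exact absurd (Subgroup.mem_bot.mp (h ▸ Subgroup.subset_normalClosure rfl)) hx
    · rw [h]; trivial
  choose T hTfin hT using h1
  have hEs : (E : Set G).Finite := Set.toFinite _
  let U : Set G := (E : Set G) ∪ ⋃ x ∈ (E : Set G), ⋃ y ∈ (E : Set G), ⋃ hx : x ≠ 1, T x y hx
  have hU : U.Finite := by
    refine hEs.union (hEs.biUnion fun x _ => hEs.biUnion fun y _ => ?_)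
    exact Set.finite_iUnion fun hx => hTfin x y hx
  refine ⟨Subgroup.closure U, ?_, ?_, ?_⟩
  · have := hLF hU.toFinset
    rwa [hU.coe_toFinset] at this
  · exact fun x hx => Subgroup.subset_closure (Or.inl hx)
  · intro x hx hx1 y hy
    refine Subgroup.closure_mono ?_ (hT x y hx1)
    rintro z ⟨g, hg, rfl⟩
    refine ⟨g, Subgroup.subset_closure (Or.inr ?_), rfl⟩
    simp only [Set.mem_iUnion]
    exact ⟨x, hx, y, hy, hx1, hg⟩

end Pool.Agent.Lib.MP66ef6b
end
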