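import Mathlib

/-!
# MP_66ef6b_al: simple locally finite groups of finite type - definitions

Text with all proofs: `/team-store/MP_66ef6b_al_FINITETYPE.md`.
-/

set_option autoImplicit false

namespace Pool.Agent.Lib.MP66ef6b

universe u

/-- `G` is locally finite. -/
def LocFin (G : Type u) [Group G] : Prop :=
  ∀ s : Finset G, Finite (Subgroup.closure (s : Set G))

/-- `G` is of finite type: `G` has a non-trivial permutation representation `Ω` and a finite
subgroup `F` such that every point of `Ω` has a non-trivial stabiliser in `F`. -/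
def FiniteType (G : Type u) [Group G] : Prop :=
  ∃ (Ω : Type u) (_ : MulAction G Ω) (F : Subgroup G), (∃ (g : G) (ω : Ω), g • ω ≠ ω) ∧
    Finite F ∧ ∀ ω : Ω, ∃ f ∈ F, f ≠ 1 ∧ f • ω = ω

/-- `G` acts non-trivially by affine maps on an elementary abelian `p`-group `V`, the linear part
of every element minus the identity has finite image, and some finite subgroup `F` has no regular
orbit on `V`. -/
def AffineType (G : Type u) [Group G] : Prop :=
  ∃ (p : ℕ) (V : Type u) (_ : AddCommGroup V) (_ : MulAction G V) (F : Subgroup G),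
    p.Prime ∧ (∀ v : V, p • v = 0) ∧
    (∀ g : G, ∃ A : V →+ V, ∀ v w : V, g • (v + w) = g • v + A w) ∧
    (∀ g : G, (Set.range fun v : V => g • v - v).Finite) ∧
    (∃ (g : G) (v : V), g • v ≠ v) ∧ Finite F ∧ ∀ v : V, ∃ f ∈ F, f ≠ 1 ∧ f • v = v

/-- `Q` is the socle of the almost simple group `Y`: a non-abelian simple normal subgroup with
trivial centraliser. -/
structure IsSocle {Y : Type u} [Group Y] (Q : Subgroup Y) : Prop where
  normal : Q.Normal
  simple : IsSimpleGroup Q
  noncomm : ∃ a ∈ Q, ∃ b ∈ Q, a * b ≠ b * a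
  cent : Subgroup.centralizer (Q : Set Y) = ⊥

/-- `Y` with socle `Q` is a quotient of a finite subgroup `X ≥ E` of `G`, by a normal subgroup which
meets `E` trivially, and `Y` has a subgroup `S` not containing `Q` which meets non-trivially all
conjugates of the image of `F`. -/
def Visible {G : Type u} [Group G] (F E : Subgroup G) (Y : Type u) [Group Y] (Q : Subgroup Y) :
    Prop :=
  ∃ (X : Subgroup G) (ρ : X →* Y) (S : Subgroup Y), Finite X ∧ E ≤ X ∧ Function.Surjective ρ ∧
    (∀ x : X, (x : G) ∈ E → ρ x = 1 → x = 1) ∧ IsSocle Q ∧ ¬ Q ≤ S ∧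
    ∀ y : Y, ∃ x : X, (x : G) ∈ F ∧ x ≠ 1 ∧ y * ρ x * y⁻¹ ∈ S

/-- The almost simple case: every finite subgroup `E` of `G` is contained in a finite subgroup `X`
with an almost simple quotient in which `E` embeds and the finite subgroup `F` meets all
conjugates of a subgroup not containing the socle. -/
def AlmostSimpleType (G : Type u) [Group G] : Prop :=
  ∃ F : Subgroup G, Finite F ∧ ∀ E : Subgroup G, Finite E → F ≤ E →
    ∃ (Y : Type u) (_ : Group Y) (Q : Subgroup Y), Visible F E Y Q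

/-- The same with simple quotients (the pairs `(X, ker ρ)` form a Kegel cover of `G`). -/
def SimpleType (G : Type u) [Group G] : Prop :=
  ∃ F : Subgroup G, Finite F ∧ ∀ E : Subgroup G, Finite E → F ≤ E →
    ∃ (Y : Type u) (_ : Group Y), Visible F E Y ⊤

/-- `E` does not embed in `Y / Q` for any finite almost simple group `Y` with socle `Q`, i.e. in the
outer automorphism group of a finite simple group. -/
def NotInOut (E : Type u) [Group E] : Prop :=
  ∀ (Y : Type u) [Group Y] [Finite Y] (Q : Subgroup Y) [Q.Normal], IsSocle Q →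
    ∀ φ : E →* Y ⧸ Q, ¬ Function.Injective φ

/-- All non-abelian composition factors of `K` of order larger than `b` are alternating groups. -/
def AltFactors (b : ℕ) (K : Type u) [Group K] : Prop :=
  ∀ (A : Subgroup K) (B : Subgroup A) [B.Normal], A.IsSubnormal → IsSimpleGroup (A ⧸ B) →
    (∃ x y : A ⧸ B, x * y ≠ y * x) → b < Nat.card (A ⧸ B) →
    ∃ n : ℕ, Nonempty ((A ⧸ B) ≃* alternatingGroup (Fin n))

/-- For some `b`, every finite subgroup of `G` is contained in a finite subgroup whose non-abelian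
composition factors of order larger than `b` are alternating groups. -/
def LocAlt (G : Type u) [Group G] : Prop :=
  ∃ b : ℕ, ∀ E : Subgroup G, Finite E → ∃ K : Subgroup G, Finite K ∧ E ≤ K ∧ AltFactors b K

/-- `G` has a Kegel cover `(X, ker ρ)` with factors `Alt(n)`, and a finite subgroup `F` without
regular orbit on the sets of `n` points. -/
def AltType (G : Type u) [Group G] : Prop :=
  ∃ F : Subgroup G, Finite F ∧ ∀ E : Subgroup G, Finite E → F ≤ E →
    ∃ (X : Subgroup G) (n : ℕ) (ρ : X →* Equiv.Perm (Fin n)), Finite X ∧ E ≤ X ∧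
      ρ.range = alternatingGroup (Fin n) ∧ (∀ x : X, (x : G) ∈ E → ρ x = 1 → x = 1) ∧
      ∀ ω : Fin n, ∃ x : X, (x : G) ∈ F ∧ x ≠ 1 ∧ ρ x ω = ω

/-! ## Auxiliary notions -/

/-- `P` is isomorphic to a factor of a subnormal series of `K`. -/
def CompFactor (K : Type u) [Group K] (P : Type u) [Group P] : Prop :=
  ∃ (A : Subgroup K) (B : Subgroup A) (_ : B.Normal), A.IsSubnormal ∧ Nonempty (A ⧸ B ≃* P)

/-- Every conjugate of `M` meets `F` non-trivially. -/
def Conf {K : Type u} [Group K] (F M : Subgroup K) : Prop :=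
  ∀ k : K, ∃ f ∈ F, f ≠ 1 ∧ k * f * k⁻¹ ∈ M

/-- `W` is normalised by `X`. -/
def NormBy {K : Type u} [Group K] (X W : Subgroup K) : Prop :=
  ∀ x ∈ X, ∀ w ∈ W, x * w * x⁻¹ ∈ W

/-- Coordinates on a normal subgroup `Z` which is the direct product of the subgroups `Q j`,
permuted by `K`: `π j z` is the component of `z ∈ Z` in `Q j`. -/
structure Coords {K : Type u} [Group K] (Z : Subgroup K) {J : Type u} [MulAction K J]
    (Q : J → Subgroup K) (π : J → K → K) : Prop where
  le : ∀ j, Q j ≤ Z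
  gen : Z ≤ ⨆ j, Q j
  mem : ∀ j, ∀ z ∈ Z, π j z ∈ Q j
  mul : ∀ j, ∀ z ∈ Z, ∀ w ∈ Z, π j (z * w) = π j z * π j w
  self : ∀ j, ∀ q ∈ Q j, π j q = q
  other : ∀ i j, i ≠ j → ∀ q ∈ Q j, π i q = 1
  ext : ∀ z ∈ Z, ∀ w ∈ Z, (∀ j, π j z = π j w) → z = w
  surj : ∀ c : J → K, (∀ j, c j ∈ Q j) → ∃ z ∈ Z, ∀ j, π j z = c j
  conjQ : ∀ (k : K) (j : J), ∀ q ∈ Q j, k * q * k⁻¹ ∈ Q (k • j)
  conj : ∀ (k : K) (j : J), ∀ z ∈ Z, π (k • j) (k * z * k⁻¹) = k * π j z * k⁻¹

/-- The elements of `Q j` do not all commute and `Q j` has no normal subgroups. -/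
def SimpleFam {K : Type u} [Group K] {J : Type u} (Q : J → Subgroup K) : Prop :=
  ∀ j, IsSimpleGroup (Q j) ∧ ∃ a ∈ Q j, ∃ b ∈ Q j, a * b ≠ b * a

/-- Case (a): `R` is the product of its intersections with the `Q j`. -/
def IsProd {K : Type u} [Group K] {J : Type u} (Z : Subgroup K) (π : J → K → K)
    (R : Subgroup K) : Prop :=
  ∀ z ∈ Z, z ∈ R ↔ ∀ j, π j z ∈ R

/-- Case (c): `R` projects onto every `Q j`. -/
def IsSubdirect {K : Type u} [Group K] {J : Type u} (Q : J → Subgroup K) (π : J → K → K)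
    (R : Subgroup K) : Prop :=
  ∀ j, ∀ q ∈ Q j, ∃ r ∈ R, π j r = q

/-- `i` is a partner of `j`: the projection of `R` to `Q j × Q i` is the graph of the injective
homomorphism `θ`. -/
structure Partner {K : Type u} [Group K] {J : Type u} (Q : J → Subgroup K) (π : J → K → K)
    (R : Subgroup K) (j i : J) (θ : K → K) : Prop where
  ne : i ≠ j
  mem : ∀ q ∈ Q j, θ q ∈ Q i
  mul : ∀ q ∈ Q j, ∀ q' ∈ Q j, θ (q * q') = θ q * θ q'
  inj : ∀ q ∈ Q j, θ q = 1 → q = 1
  graph : ∀ r ∈ R, π i r = θ (π j r)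

/-- The affine data of Case I at a finite subgroup `E` of `G`. -/
def DataI {G : Type u} [Group G] (F E : Subgroup G) : Prop :=
  ∃ (X : Subgroup G) (p : ℕ) (V : Type u) (_ : AddCommGroup V) (_ : MulAction X V),
    E ≤ X ∧ p.Prime ∧ p ≤ Nat.card F ∧ (∀ v : V, p • v = 0) ∧
    (∀ g : X, ∃ A : V →+ V, ∀ v w : V, g • (v + w) = g • v + A w) ∧
    (∀ x : X, (x : G) ∈ F → x ≠ 1 → ∃ v : V, x • v ≠ v) ∧
    (∀ v : V, ∃ x : X, (x : G) ∈ F ∧ x ≠ 1 ∧ x • v = v) ∧
    ∃ x : X, (x : G) ∈ F ∧ x ≠ 1 ∧ (Set.range fun v : V => x • v - v).Finite ∧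
      (Set.range fun v : V => x • v - v).ncard ≤ Nat.card F

end Pool.Agent.Lib.MP66ef6b
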