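import Pool.Agent.Lib.MP_66ef6b_al.Spec
import Pool.Agent.Lib.MP_66ef6b_al.Tower
import Pool.Agent.Lib.MP_66ef6b_al.Alt

section
/-!
# AUTN: the automorphism group of `Alt(n)`, `n ≥ 7`
-/
set_option autoImplicit false

namespace Pool.Agent.Lib.MP66ef6b

universe u

namespace AutnM

open Equiv Equiv.Perm

/-! ### 3-cycles -/

section

variable {α : Type*}

/-- `f` is the 3-cycle `p → q → r → p` -/
structure Is3 (f : Perm α) (p q r : α) : Prop where
  pq : f p = q
  qr : f q = r
  rp : f r = p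
  npq : p ≠ q
  nqr : q ≠ r
  nrp : r ≠ p
  fix : ∀ x, x ≠ p → x ≠ q → x ≠ r → f x = x

theorem Is3.rot {f : Perm α} {p q r : α} (h : Is3 f p q r) : Is3 f q r p :=
  ⟨h.qr, h.rp, h.pq, h.nqr, h.nrp, h.npq, fun x h1 h2 h3 => h.fix x h3 h1 h2⟩

theorem Is3.inv {f : Perm α} {p q r : α} (h : Is3 f p q r) : Is3 f⁻¹ p r q where
  pq := by rw [Perm.inv_eq_iff_eq]; exact h.rp.symm
  qr := by rw [Perm.inv_eq_iff_eq]; exact h.qr.symm
  rp := by rw [Perm.inv_eq_iff_eq]; exact h.pq.symm
  npq := h.nrp.symm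
  nqr := h.nqr.symm
  nrp := h.npq.symm
  fix x h1 h2 h3 := by rw [Perm.inv_eq_iff_eq]; exact (h.fix x h1 h3 h2).symm

theorem Is3.ext {f g : Perm α} {p q r : α} (hf : Is3 f p q r) (hg : Is3 g p q r) : f = g := by
  ext x
  by_cases h1 : x = p
  · rw [h1, hf.pq, hg.pq]
  by_cases h2 : x = q
  · rw [h2, hf.qr, hg.qr]
  by_cases h3 : x = r
  · rw [h3, hf.rp, hg.rp]
  rw [hf.fix x h1 h2 h3, hg.fix x h1 h2 h3]

theorem Is3.mul {A B : Perm α} {w a b c : α} (hA : Is3 A w a b) (hB : Is3 B w b c)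
    (hac : a ≠ c) : Is3 (A * B) a b c where
  pq := by
    rw [Perm.mul_apply, hB.fix a hA.npq.symm hA.nqr hac, hA.qr]
  qr := by
    rw [Perm.mul_apply, hB.qr, hA.fix c hB.nrp hac.symm hB.nqr.symm]
  rp := by
    rw [Perm.mul_apply, hB.rp, hA.pq]
  npq := hA.nqr
  nqr := hB.nqr
  nrp := hac.symm
  fix x h1 h2 h3 := by
    rw [Perm.mul_apply]
    by_cases hw : x = w
    · rw [hw, hB.pq, hA.rp]
    · rw [hB.fix x hw h2 h3, hA.fix x hw h1 h2]

theorem is3_swap [DecidableEq α] {p q r : α} (h1 : p ≠ q) (h2 : q ≠ r) (h3 : r ≠ p) :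
    Is3 (swap q p * swap q r) p q r where
  pq := by
    rw [Perm.mul_apply, swap_apply_of_ne_of_ne h1 h3.symm, swap_apply_right]
  qr := by
    rw [Perm.mul_apply, swap_apply_left, swap_apply_of_ne_of_ne h2.symm h3]
  rp := by
    rw [Perm.mul_apply, swap_apply_right, swap_apply_left]
  npq := h1
  nqr := h2
  nrp := h3
  fix x hp hq hr := by
    rw [Perm.mul_apply, swap_apply_of_ne_of_ne hq hr, swap_apply_of_ne_of_ne hq hp]

theorem is3_of_isThreeCycle [Fintype α] [DecidableEq α] {f : Perm α} (hf : f.IsThreeCycle) {p : α}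
    (hp : f p ≠ p) : Is3 f p (f p) (f (f p)) := by
  have hf3 : f ^ 3 = 1 := by rw [← hf.orderOf, pow_orderOf_eq_one]
  have h3 : f (f (f p)) = p := by
    have := congrArg (fun g : Perm α => g p) hf3
    simpa [pow_succ] using this
  have hqr : f p ≠ f (f p) := fun h => hp (f.injective h).symm
  have hrp : f (f p) ≠ p := by
    intro h
    rw [h] at h3
    exact hp h3
  refine ⟨rfl, rfl, h3, hp.symm, hqr, hrp, fun x h1 h2 h3' => ?_⟩
  by_contra hx
  have hcard := hf.card_support
  have hsub : ({x, p, f p, f (f p)} : Finset α) ⊆ f.support := by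
    intro y hy
    simp only [Finset.mem_insert, Finset.mem_singleton] at hy
    rw [Perm.mem_support]
    rcases hy with rfl | rfl | rfl | rfl
    · exact hx
    · exact hp
    · exact hqr.symm
    · rw [h3]; exact hrp.symm
  have h4 : ({x, p, f p, f (f p)} : Finset α).card = 4 := by
    rw [Finset.card_insert_of_notMem, Finset.card_insert_of_notMem, Finset.card_insert_of_notMem,
      Finset.card_singleton]
    · simpa using hqr
    · simp only [Finset.mem_insert, Finset.mem_singleton, not_or]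
      exact ⟨hp.symm, hrp.symm⟩
    · simp only [Finset.mem_insert, Finset.mem_singleton, not_or]
      exact ⟨h1, h2, h3'⟩
  have := Finset.card_le_card hsub
  omega

theorem Is3.eq_of [Fintype α] [DecidableEq α] {f : Perm α} (hf : f.IsThreeCycle) {p q : α}
    (hp : f p = q) (hpq : p ≠ q) : Is3 f p q (f q) := by
  subst hp
  exact is3_of_isThreeCycle hf hpq.symm

/-- two 3-cycles with product of order 2: some point is moved by the first one only -/
theorem share [Fintype α] [DecidableEq α] {f g : Perm α} (hf : f.IsThreeCycle)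
    (hg : g.IsThreeCycle) (h1 : f * g * (f * g) = 1) (h2 : f * g ≠ 1) (h3 : f ≠ g) :
    ∃ r, f r ≠ r ∧ g r = r ∧ g (f r) = f (f r) := by
  have hex : ∃ r, f r ≠ r ∧ g r = r := by
    by_contra hc
    push Not at hc
    have hne : f ≠ 1 := by
      rintro rfl
      exact (Perm.IsThreeCycle.ne_one hf) rfl
    obtain ⟨p, hp⟩ : ∃ p, f p ≠ p := by
      by_contra hcc
      push Not at hcc
      exact hne (Perm.ext hcc)
    have F := is3_of_isThreeCycle hf hp
    set q := f p with hq
    set r := f q with hr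
    have gp := hc p hp
    have gq := hc q (by rw [← hr]; exact F.nqr.symm)
    have gr := hc r (by rw [F.rp]; exact F.nrp.symm)
    have G := is3_of_isThreeCycle hg gp
    have mem : ∀ x, g x ≠ x → x = p ∨ x = g p ∨ x = g (g p) := by
      intro x hx
      by_contra hcon
      push Not at hcon
      exact hx (G.fix x hcon.1 hcon.2.1 hcon.2.2)
    rcases mem q gq with h | h | h
    · exact F.npq h.symm
    · -- `g p = q`
      rcases mem r gr with h' | h' | h'
      · exact F.nrp h'
      · exact F.nqr (h.trans h'.symm)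
      · apply h3
        have G' : Is3 g p q r := by rw [h, h']; rw [← h]; rw [h]; exact G
        exact F.ext G'
    · rcases mem r gr with h' | h' | h'
      · exact F.nrp h'
      · apply h2
        have G' : Is3 g p r q := by rw [h, h']; exact G
        have := F.inv.ext G'
        rw [← this, mul_inv_cancel]
      · exact F.nqr (h.trans h'.symm)
  obtain ⟨r, hr, hgr⟩ := hex
  refine ⟨r, hr, hgr, ?_⟩
  have F := is3_of_isThreeCycle hf hr
  have h4 := congrArg (fun x : Perm α => x r) h1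
  simp only [Perm.mul_apply, Perm.one_apply, hgr] at h4
  -- `f (g (f r)) = r = f (f (f r))`
  exact f.injective (h4.trans F.rp.symm)

theorem share3 [Fintype α] [DecidableEq α] {f g h : Perm α} {p q r s : α} (hf : f.IsThreeCycle)
    (hg : g.IsThreeCycle) (hh : h.IsThreeCycle) (F : Is3 f p q r) (G : Is3 g p q s) (hrs : r ≠ s)
    (h1 : f * h * (f * h) = 1) (h2 : f * h ≠ 1) (h3 : f ≠ h)
    (h4 : g * h * (g * h) = 1) (h5 : g * h ≠ 1) (h6 : g ≠ h) : h p = q := by
  obtain ⟨x, hx1, hx2, hx3⟩ := share hf hh h1 h2 h3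
  obtain ⟨y, hy1, hy2, hy3⟩ := share hg hh h4 h5 h6
  have hx : x = p ∨ x = q ∨ x = r := by
    by_contra hcon
    push Not at hcon
    exact hx1 (F.fix x hcon.1 hcon.2.1 hcon.2.2)
  have hy : y = p ∨ y = q ∨ y = s := by
    by_contra hcon
    push Not at hcon
    exact hy1 (G.fix y hcon.1 hcon.2.1 hcon.2.2)
  rcases hx with rfl | rfl | rfl
  · rw [F.pq, F.qr] at hx3
    rcases hy with rfl | rfl | rfl
    · rw [G.pq, G.qr] at hy3
      exact absurd (hx3.symm.trans hy3) hrs
    · exact absurd (hy2.symm.trans hx3) F.nqr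
    · rw [G.rp, G.pq] at hy3
      exact hy3
  · rw [F.qr, F.rp] at hx3
    rcases hy with rfl | rfl | rfl
    · exact absurd (h.injective (hx3.trans hy2.symm)) F.nrp
    · rw [G.qr, G.rp] at hy3
      exact absurd (h.injective (hx3.trans hy3.symm)) hrs
    · rw [G.rp, G.pq] at hy3
      exact hy3
  · rw [F.rp, F.pq] at hx3
    exact hx3

end

/-! ### automorphisms preserve 3-cycles -/

theorem ineq_aux (m : ℕ) : 2 * (3 ^ (m + 3) * (m + 3).factorial) < 3 * (3 * m + 6).factorial := by
  induction m with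
  | zero => decide
  | succ m ih =>
    have h1 : 3 * (m + 1) + 6 = 3 * m + 6 + 1 + 1 + 1 := by ring
    have h2 : m + 1 + 3 = m + 3 + 1 := by ring
    rw [h1, h2, Nat.factorial_succ (3 * m + 6 + 1 + 1), Nat.factorial_succ (3 * m + 6 + 1),
      Nat.factorial_succ (3 * m + 6), Nat.factorial_succ (m + 3), pow_succ]
    have h3 : 3 * (m + 3 + 1) ≤
        (3 * m + 6 + 1 + 1 + 1) * ((3 * m + 6 + 1 + 1) * (3 * m + 6 + 1)) := by
      calc 3 * (m + 3 + 1) ≤ (3 * m + 6 + 1 + 1 + 1) * 2 := by omega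
        _ ≤ _ := Nat.mul_le_mul_left _ (by nlinarith)
    calc 2 * (3 ^ (m + 3) * 3 * ((m + 3 + 1) * (m + 3).factorial))
        = (3 * (m + 3 + 1)) * (2 * (3 ^ (m + 3) * (m + 3).factorial)) := by ring
      _ < (3 * (m + 3 + 1)) * (3 * (3 * m + 6).factorial) :=
          Nat.mul_lt_mul_of_pos_left ih (by positivity)
      _ ≤ ((3 * m + 6 + 1 + 1 + 1) * ((3 * m + 6 + 1 + 1) * (3 * m + 6 + 1))) *
          (3 * (3 * m + 6).factorial) := Nat.mul_le_mul_right _ h3
      _ = _ := by ring

theorem ineq (n k : ℕ) (hn : 7 ≤ n) (hk : 2 ≤ k) (hkn : 3 * k ≤ n) :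
    2 * ((n - 3 * k).factorial * 3 ^ k * k.factorial) < (n - 3).factorial * 3 := by
  obtain ⟨d, rfl⟩ := Nat.exists_eq_add_of_le hkn
  have h1 : 3 * k + d - 3 * k = d := by omega
  have h2 : 3 * k + d - 3 = d + (3 * k - 3) := by omega
  rw [h1, h2, ← Nat.add_choose_mul_factorial_mul_factorial]
  have hd := Nat.factorial_pos d
  rcases Nat.eq_or_lt_of_le hk with h | h
  · subst h
    have hd1 : 1 ≤ d := by omega
    have hc : 4 ≤ (d + 3).choose 3 := by
      calc 4 = (1 + 3).choose 3 := by decide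
        _ ≤ (d + 3).choose 3 := Nat.choose_le_choose 3 (by omega)
    have e : 3 * 2 - 3 = 3 := by norm_num
    rw [e]
    have e1 : Nat.factorial 3 = 6 := by decide
    have e2 : Nat.factorial 2 = 2 := by decide
    rw [e1, e2]
    have h3 := Nat.mul_le_mul_right d.factorial hc
    calc 2 * (d.factorial * 3 ^ 2 * 2) = 36 * d.factorial := by ring
      _ < 18 * (4 * d.factorial) := by omega
      _ ≤ 18 * ((d + 3).choose 3 * d.factorial) := Nat.mul_le_mul_left _ h3
      _ = _ := by ring
  · obtain ⟨m, rfl⟩ := Nat.exists_eq_add_of_le h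
    have e : 3 * (Nat.succ 2 + m) - 3 = 3 * m + 6 := by omega
    have e' : Nat.succ 2 + m = m + 3 := by omega
    rw [e, e']
    have hc : 1 ≤ (d + (3 * m + 6)).choose (3 * m + 6) := Nat.choose_pos (by omega)
    have := ineq_aux m
    calc 2 * (d.factorial * 3 ^ (m + 3) * (m + 3).factorial)
        = d.factorial * (2 * (3 ^ (m + 3) * (m + 3).factorial)) := by ring
      _ < d.factorial * (3 * (3 * m + 6).factorial) := Nat.mul_lt_mul_of_pos_left this hd
      _ = 1 * d.factorial * (3 * m + 6).factorial * 3 := by ring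
      _ ≤ (d + (3 * m + 6)).choose (3 * m + 6) * d.factorial * (3 * m + 6).factorial * 3 := by
          gcongr

variable {n : ℕ}

theorem card_le (c : alternatingGroup (Fin n)) :
    Nat.card (Subgroup.centralizer {c}) ≤ Nat.card (Subgroup.centralizer {(c : Perm (Fin n))}) := by
  refine Nat.card_le_card_of_injective
    (fun x : Subgroup.centralizer {c} => (⟨x.1.1, ?_⟩ : Subgroup.centralizer {(c : Perm (Fin n))}))
    ?_
  · have := x.2
    rw [Subgroup.mem_centralizer_singleton_iff] at this ⊢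
    exact congrArg Subtype.val this
  · intro x y h
    apply Subtype.ext
    apply Subtype.ext
    exact congrArg (fun z : Subgroup.centralizer {(c : Perm (Fin n))} => z.1) h

theorem card_ge (hn : 7 ≤ n) (c : alternatingGroup (Fin n)) :
    Nat.card (Subgroup.centralizer {(c : Perm (Fin n))}) ≤
      2 * Nat.card (Subgroup.centralizer {c}) := by
  have : Nontrivial (Fin n) := Fin.nontrivial_iff_two_le.mpr (by omega)
  set C := Subgroup.centralizer {(c : Perm (Fin n))} with hC
  have h1 := ((alternatingGroup (Fin n)).subgroupOf C).card_mul_index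
  have h2 : ((alternatingGroup (Fin n)).subgroupOf C).index ≤ 2 := by
    have := Subgroup.relIndex_dvd_index_of_normal (alternatingGroup (Fin n)) C
    rw [alternatingGroup.index_eq_two] at this
    exact Nat.le_of_dvd (by norm_num) this
  have h3 : Nat.card ((alternatingGroup (Fin n)).subgroupOf C) ≤
      Nat.card (Subgroup.centralizer {c}) := by
    refine Nat.card_le_card_of_injective
      (fun x : (alternatingGroup (Fin n)).subgroupOf C =>
        (⟨⟨x.1.1, Subgroup.mem_subgroupOf.mp x.2⟩, ?_⟩ : Subgroup.centralizer {c})) ?_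
    · rw [Subgroup.mem_centralizer_singleton_iff]
      exact Subtype.ext (Subgroup.mem_centralizer_singleton_iff.mp x.1.2)
    · intro x y h
      apply Subtype.ext
      apply Subtype.ext
      exact congrArg (fun z : Subgroup.centralizer {c} => z.1.1) h
  rw [← h1]
  calc _ ≤ Nat.card (Subgroup.centralizer {c}) * 2 := Nat.mul_le_mul h3 h2
    _ = _ := Nat.mul_comm _ _

theorem card_cent {c : Perm (Fin n)} {k : ℕ} (hk : k ≠ 0)
    (h : c.cycleType = Multiset.replicate k 3) :
    Nat.card (Subgroup.centralizer {c}) = (n - 3 * k).factorial * 3 ^ k * k.factorial := by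
  rw [Perm.nat_card_centralizer, h, Multiset.sum_replicate, Multiset.prod_replicate,
    Multiset.toFinset_replicate, if_neg hk, Finset.prod_singleton, Multiset.count_replicate_self,
    Fintype.card_fin, smul_eq_mul, mul_comm k 3]

theorem map_three (hn : 7 ≤ n) (φ : MulAut (alternatingGroup (Fin n)))
    (a : alternatingGroup (Fin n)) (ha : (a : Perm (Fin n)).IsThreeCycle) :
    ((φ a : alternatingGroup (Fin n)) : Perm (Fin n)).IsThreeCycle := by
  have hord : orderOf ((φ a : alternatingGroup (Fin n)) : Perm (Fin n)) = 3 := by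
    rw [Subgroup.orderOf_coe, MulEquiv.orderOf_eq, ← Subgroup.orderOf_coe]
    exact ha.orderOf
  obtain ⟨m, hm⟩ := Perm.cycleType_prime_order (σ := ((φ a : alternatingGroup (Fin n)) :
    Perm (Fin n))) (by rw [hord]; norm_num)
  rw [hord] at hm
  rcases Nat.eq_zero_or_pos m with h0 | h0
  · rw [h0] at hm
    exact hm
  exfalso
  have hsum : 3 * (m + 1) ≤ n := by
    have h1 := Perm.sum_cycleType ((φ a : alternatingGroup (Fin n)) : Perm (Fin n))
    rw [hm, Multiset.sum_replicate, smul_eq_mul] at h1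
    have h2 := Finset.card_le_univ (((φ a : alternatingGroup (Fin n)) : Perm (Fin n)).support)
    rw [Fintype.card_fin] at h2
    omega
  have hc1 := card_cent (c := (a : Perm (Fin n))) (k := 1) one_ne_zero (by
    rw [ha]; rfl)
  have hc2 := card_cent (c := ((φ a : alternatingGroup (Fin n)) : Perm (Fin n))) (k := m + 1)
    (Nat.succ_ne_zero m) hm
  have heq : Nat.card (Subgroup.centralizer {a}) = Nat.card (Subgroup.centralizer {φ a}) := by
    refine Nat.card_congr (φ.toEquiv.subtypeEquiv fun x => ?_)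
    rw [Subgroup.mem_centralizer_singleton_iff, Subgroup.mem_centralizer_singleton_iff]
    constructor
    · intro h
      have := congrArg φ h
      simpa using this
    · intro h
      apply φ.injective
      simpa using h
  have h3 := card_ge hn a
  have h4 := card_le (φ a)
  have h5 := ineq n (m + 1) hn (by omega) hsum
  rw [hc1] at h3
  rw [hc2] at h4
  simp only [mul_one, pow_one, Nat.factorial_one] at h3
  rw [heq] at h3
  omega

/-! ### generation -/

theorem gen (W : Subgroup (Perm (Fin n))) (z w : Fin n) (hzw : z ≠ w)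
    (h : ∀ (f : Perm (Fin n)) (i : Fin n), Is3 f z w i → f ∈ W) :
    alternatingGroup (Fin n) ≤ W := by
  rw [← Perm.closure_three_cycles_eq_alternating, Subgroup.closure_le]
  -- 3-cycles through `z`
  have h1 : ∀ (f : Perm (Fin n)) (a b : Fin n), Is3 f z a b → f ∈ W := by
    intro f a b hf
    by_cases ha : a = w
    · subst ha; exact h f b hf
    by_cases hb : b = w
    · subst hb
      have := h f⁻¹ a hf.inv
      exact W.inv_mem_iff.mp this
    · have hA : Is3 (swap w z * swap w b) z w b := is3_swap hzw (fun e => hb e.symm) hf.nrp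
      have hB : Is3 (swap w z * swap w a) z w a :=
        is3_swap hzw (fun e => ha e.symm) hf.npq.symm
      -- `A = (w b z)`, `B⁻¹ = (w z a)`
      have hAB := hA.rot.mul hB.inv.rot.rot hf.nqr.symm
      have := hAB.rot.ext hf
      rw [← this]
      exact W.mul_mem (h _ _ hA) (W.inv_mem (h _ _ hB))
  intro f hf
  have hf' : f.IsThreeCycle := hf
  have hne : ∃ p, f p ≠ p := by
    by_contra hcc
    push Not at hcc
    exact hf'.ne_one (Perm.ext hcc)
  obtain ⟨p, hp⟩ := hne
  have F := is3_of_isThreeCycle hf' hp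
  set q := f p
  set r := f q
  by_cases e1 : p = z
  · subst e1; exact h1 f _ _ F
  by_cases e2 : q = z
  · rw [e2] at F; exact h1 f _ _ F.rot
  by_cases e3 : r = z
  · rw [e3] at F; exact h1 f _ _ F.rot.rot
  have hA : Is3 (swap p z * swap p q) z p q :=
    is3_swap (fun e => e1 e.symm) F.npq e2
  have hB : Is3 (swap q z * swap q r) z q r :=
    is3_swap (fun e => e2 e.symm) F.nqr e3
  have hAB := hA.mul hB F.nrp.symm
  rw [← hAB.ext F]
  exact W.mul_mem (h1 _ _ _ hA) (h1 _ _ _ hB)

/-! ### the theorem -/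

theorem surj (hn : 7 ≤ n) :
    Function.Surjective (MulAut.conjNormal : Perm (Fin n) →* MulAut (alternatingGroup (Fin n))) := by
  intro φ
  set z : Fin n := ⟨0, by omega⟩ with hz
  set w : Fin n := ⟨1, by omega⟩ with hw
  set i2 : Fin n := ⟨2, by omega⟩ with hi2
  set i3 : Fin n := ⟨3, by omega⟩ with hi3
  have hzw : z ≠ w := by simp [hz, hw, Fin.ext_iff]
  have hz2 : i2 ≠ z := by simp [hz, hi2, Fin.ext_iff]
  have hw2 : i2 ≠ w := by simp [hw, hi2, Fin.ext_iff]
  have hz3 : i3 ≠ z := by simp [hz, hi3, Fin.ext_iff]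
  have hw3 : i3 ≠ w := by simp [hw, hi3, Fin.ext_iff]
  have h23 : i2 ≠ i3 := by simp [hi2, hi3, Fin.ext_iff]
  -- the 3-cycles `(z w i)`
  have htc : ∀ i : Fin n, i ≠ z → i ≠ w → (swap w z * swap w i).IsThreeCycle := fun i h1 h2 =>
    Perm.isThreeCycle_swap_mul_swap_same hzw.symm h2.symm h1.symm
  let t : ∀ i : Fin n, i ≠ z → i ≠ w → alternatingGroup (Fin n) := fun i h1 h2 =>
    ⟨swap w z * swap w i, (htc i h1 h2).mem_alternatingGroup⟩
  have ht : ∀ i h1 h2, Is3 (t i h1 h2 : Perm (Fin n)) z w i := fun i h1 h2 =>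
    is3_swap hzw (Ne.symm h2) h1
  have hF : ∀ i h1 h2, ((φ (t i h1 h2) : alternatingGroup (Fin n)) : Perm (Fin n)).IsThreeCycle :=
    fun i h1 h2 => map_three hn φ _ (htc i h1 h2)
  have hrel : ∀ i h1 h2 j h3 h4, i ≠ j →
      t i h1 h2 * t j h3 h4 * (t i h1 h2 * t j h3 h4) = 1 := by
    intro i h1 h2 j h3 h4 hij
    apply Subtype.ext
    have A := ht i h1 h2
    have B := ht j h3 h4
    ext x
    simp only [Subgroup.coe_mul, Perm.mul_apply, Subgroup.coe_one, Perm.one_apply]
    by_cases e1 : x = z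
    · rw [e1, B.pq, A.qr, B.fix i h1 h2 hij, A.rp]
    by_cases e2 : x = w
    · rw [e2, B.qr, A.fix j h3 h4 hij.symm, B.rp, A.pq]
    by_cases e3 : x = i
    · rw [e3, B.fix i h1 h2 hij, A.rp, B.pq, A.qr]
    by_cases e4 : x = j
    · rw [e4, B.rp, A.pq, B.qr, A.fix j h3 h4 hij.symm]
    rw [B.fix x e1 e2 e4, A.fix x e1 e2 e3, B.fix x e1 e2 e4, A.fix x e1 e2 e3]
  have hprod : ∀ i h1 h2 j h3 h4, i ≠ j → t i h1 h2 * t j h3 h4 ≠ 1 := by
    intro i h1 h2 j h3 h4 hij h
    have A := ht i h1 h2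
    have B := ht j h3 h4
    have h5 := congrArg (fun g : alternatingGroup (Fin n) => (g : Perm (Fin n)) z) h
    simp only [Subgroup.coe_mul, Perm.mul_apply, Subgroup.coe_one, Perm.one_apply] at h5
    rw [B.pq, A.qr] at h5
    exact h1 h5
  have hdiff : ∀ i h1 h2 j h3 h4, i ≠ j → t i h1 h2 ≠ t j h3 h4 := by
    intro i h1 h2 j h3 h4 hij h
    have A := ht i h1 h2
    have B := ht j h3 h4
    rw [h] at A
    exact hij (A.qr.symm.trans B.qr)
  -- the same for the images
  have hrel' : ∀ i h1 h2 j h3 h4, i ≠ j →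
      ((φ (t i h1 h2) : alternatingGroup (Fin n)) : Perm (Fin n)) * (φ (t j h3 h4)).1 *
        (((φ (t i h1 h2) : alternatingGroup (Fin n)) : Perm (Fin n)) * (φ (t j h3 h4)).1) = 1 := by
    intro i h1 h2 j h3 h4 hij
    have := congrArg (fun g => (φ g).1) (hrel i h1 h2 j h3 h4 hij)
    simpa using this
  have hprod' : ∀ i h1 h2 j h3 h4, i ≠ j →
      ((φ (t i h1 h2) : alternatingGroup (Fin n)) : Perm (Fin n)) * (φ (t j h3 h4)).1 ≠ 1 := by
    intro i h1 h2 j h3 h4 hij h
    apply hprod i h1 h2 j h3 h4 hij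
    apply φ.injective
    rw [map_one]
    apply Subtype.ext
    rw [map_mul]
    exact h
  have hdiff' : ∀ i h1 h2 j h3 h4, i ≠ j →
      ((φ (t i h1 h2) : alternatingGroup (Fin n)) : Perm (Fin n)) ≠ (φ (t j h3 h4)).1 := by
    intro i h1 h2 j h3 h4 hij h
    exact hdiff i h1 h2 j h3 h4 hij (φ.injective (Subtype.ext h))
  -- the first two images
  obtain ⟨r, hr1, hr2, hr3⟩ := share (hF i2 hz2 hw2) (hF i3 hz3 hw3)
    (hrel' i2 hz2 hw2 i3 hz3 hw3 h23) (hprod' i2 hz2 hw2 i3 hz3 hw3 h23)
    (hdiff' i2 hz2 hw2 i3 hz3 hw3 h23)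
  set f := ((φ (t i2 hz2 hw2) : alternatingGroup (Fin n)) : Perm (Fin n)) with hf
  set g := ((φ (t i3 hz3 hw3) : alternatingGroup (Fin n)) : Perm (Fin n)) with hg
  have F0 : Is3 f r (f r) (f (f r)) := is3_of_isThreeCycle (hF i2 hz2 hw2) hr1
  set p := f r with hp
  set q := f p with hq
  have F : Is3 f p q r := F0.rot
  have G : Is3 g p q (g q) := Is3.eq_of (hF i3 hz3 hw3) hr3 F.npq
  have hrs : r ≠ g q := by
    intro h
    have h1 : g r = g q := by rw [hr2]; exact h
    exact F.nqr (g.injective h1).symm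
  have hall : ∀ i h1 h2, ((φ (t i h1 h2) : alternatingGroup (Fin n)) : Perm (Fin n)) p = q := by
    intro i h1 h2
    by_cases e2 : i = i2
    · subst e2; exact F.pq
    by_cases e3 : i = i3
    · subst e3; exact G.pq
    exact share3 (hF i2 hz2 hw2) (hF i3 hz3 hw3) (hF i h1 h2) F G hrs
      (hrel' i2 hz2 hw2 i h1 h2 (Ne.symm e2)) (hprod' i2 hz2 hw2 i h1 h2 (Ne.symm e2))
      (hdiff' i2 hz2 hw2 i h1 h2 (Ne.symm e2))
      (hrel' i3 hz3 hw3 i h1 h2 (Ne.symm e3)) (hprod' i3 hz3 hw3 i h1 h2 (Ne.symm e3))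
      (hdiff' i3 hz3 hw3 i h1 h2 (Ne.symm e3))
  have hall3 : ∀ i h1 h2, Is3 ((φ (t i h1 h2) : alternatingGroup (Fin n)) : Perm (Fin n)) p q
      ((φ (t i h1 h2)).1 q) := fun i h1 h2 => Is3.eq_of (hF i h1 h2) (hall i h1 h2) F.npq
  -- the permutation
  let sg : Fin n → Fin n := fun i =>
    if h1 : i = z then p else if h2 : i = w then q else (φ (t i h1 h2)).1 q
  have sz : sg z = p := by simp [sg]
  have sw : sg w = q := by simp [sg, hzw.symm]
  have si : ∀ i h1 h2, sg i = (φ (t i h1 h2)).1 q := fun i h1 h2 => by simp [sg, h1, h2]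
  have hinj : Function.Injective sg := by
    intro i j hij
    by_cases i1 : i = z
    · by_cases j1 : j = z
      · rw [i1, j1]
      by_cases j2 : j = w
      · rw [i1, j2, sz, sw] at hij
        exact absurd hij F.npq
      · rw [i1, sz, si j j1 j2] at hij
        exact absurd hij.symm (hall3 j j1 j2).nrp
    by_cases i2' : i = w
    · by_cases j1 : j = z
      · rw [i2', j1, sz, sw] at hij
        exact absurd hij.symm F.npq
      by_cases j2 : j = w
      · rw [i2', j2]
      · rw [i2', sw, si j j1 j2] at hij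
        exact absurd hij (hall3 j j1 j2).nqr
    · by_cases j1 : j = z
      · rw [j1, sz, si i i1 i2'] at hij
        exact absurd hij (hall3 i i1 i2').nrp
      by_cases j2 : j = w
      · rw [j2, sw, si i i1 i2'] at hij
        exact absurd hij.symm (hall3 i i1 i2').nqr
      · by_contra hne
        rw [si i i1 i2', si j j1 j2] at hij
        have A := hall3 i i1 i2'
        have B := hall3 j j1 j2
        rw [hij] at A
        exact hdiff' i i1 i2' j j1 j2 hne (A.ext B)
  let σ : Perm (Fin n) := Equiv.ofBijective sg (Finite.injective_iff_bijective.mp hinj)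
  have hσ : ∀ i, σ i = sg i := fun i => rfl
  refine ⟨σ, ?_⟩
  -- the two automorphisms agree on the `t i`
  have hagree : ∀ i h1 h2, MulAut.conjNormal σ (t i h1 h2) = φ (t i h1 h2) := by
    intro i h1 h2
    apply Subtype.ext
    rw [MulAut.conjNormal_apply, mul_inv_eq_iff_eq_mul]
    have A := ht i h1 h2
    have B := hall3 i h1 h2
    refine Equiv.ext fun x => ?_
    change sg ((t i h1 h2 : Perm (Fin n)) x) = (φ (t i h1 h2)).1 (sg x)
    by_cases e1 : x = z
    · rw [e1, A.pq, sz, sw, B.pq]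
    by_cases e2 : x = w
    · rw [e2, A.qr, sw, si i h1 h2]
    by_cases e3 : x = i
    · rw [e3, A.rp, sz, si i h1 h2, B.rp]
    rw [A.fix x e1 e2 e3, B.fix]
    · intro h
      exact e1 (hinj (h.trans sz.symm))
    · intro h
      exact e2 (hinj (h.trans sw.symm))
    · intro h
      exact e3 (hinj (h.trans (si i h1 h2).symm))
  have hW := gen ((MonoidHom.eqLocus (MulAut.conjNormal σ : MulAut _).toMonoidHom
    φ.toMonoidHom).map (alternatingGroup (Fin n)).subtype) z w hzw (by
      intro f' i hf'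
      have h1 : i ≠ z := hf'.nrp
      have h2 : i ≠ w := hf'.nqr.symm
      refine ⟨t i h1 h2, hagree i h1 h2, ?_⟩
      exact (ht i h1 h2).ext hf')
  ext x : 1
  obtain ⟨y, hy, hyx⟩ := hW x.2
  have : y = x := Subtype.ext hyx
  rw [← this]
  exact hy

end AutnM

theorem specAUTN : SpecAUTN := by
  intro n hn
  have h1 := Nat.card_le_card_of_surjective _ (AutnM.surj hn)
  rwa [Nat.card_eq_fintype_card (α := Equiv.Perm (Fin n)), Fintype.card_perm,
    Fintype.card_fin] at h1

end Pool.Agent.Lib.MP66ef6b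
end

section
/-! # AUTY: almost simple groups with alternating socle -/
set_option autoImplicit false

namespace Pool.Agent.Lib.MP66ef6b

universe u

namespace AutyM

/-- conjugation action on a normal subgroup with trivial centraliser is faithful -/
theorem conj_injective {Y : Type u} [Group Y] (Q : Subgroup Y) [Q.Normal]
    (hc : Subgroup.centralizer (Q : Set Y) = ⊥) :
    Function.Injective (MulAut.conjNormal : Y →* MulAut Q) := by
  rw [injective_iff_map_eq_one]
  intro g hg
  have h1 : g ∈ Subgroup.centralizer (Q : Set Y) := by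
    rw [Subgroup.mem_centralizer_iff]
    intro q hq
    have h2 := congrArg (fun φ : MulAut Q => ((φ ⟨q, hq⟩ : Q) : Y)) hg
    simp only [MulAut.conjNormal_apply, MulAut.one_apply] at h2
    rw [mul_inv_eq_iff_eq_mul] at h2
    exact h2.symm
  rw [hc] at h1
  exact Subgroup.mem_bot.mp h1

/-- two subgroups with trivial intersection -/
theorem card_mul_le {Y : Type u} [Group Y] [Finite Y] (E Q : Subgroup Y) (h : E ⊓ Q = ⊥) :
    Nat.card E * Nat.card Q ≤ Nat.card Y := by
  rw [← Nat.card_prod]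
  apply Nat.card_le_card_of_injective (fun p : E × Q => (p.1 : Y) * (p.2 : Y))
  rintro ⟨e, q⟩ ⟨e', q'⟩ h1
  simp only at h1
  have h2 : (e' : Y)⁻¹ * e = (q' : Y) * (q : Y)⁻¹ := by
    rw [inv_mul_eq_iff_eq_mul, ← mul_assoc, eq_mul_inv_iff_mul_eq, h1]
  have h3 : (e' : Y)⁻¹ * e ∈ E ⊓ Q :=
    ⟨E.mul_mem (E.inv_mem e'.2) e.2, by rw [h2]; exact Q.mul_mem q'.2 (Q.inv_mem q.2)⟩
  rw [h, Subgroup.mem_bot] at h3
  have h4 : e = e' := by
    apply Subtype.ext
    rw [inv_mul_eq_one] at h3
    exact h3.symm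
  have h5 : q = q' := by
    apply Subtype.ext
    rw [h3] at h2
    exact (mul_inv_eq_one.mp h2.symm).symm
  rw [h4, h5]

end AutyM

open AutyM in
theorem specAUTY (h : SpecAUTN) : SpecAUTY.{u} := by
  intro Y _ _ Q n hn hQ ⟨φ⟩ E hE
  have := hQ.normal
  have h1 : Nat.card Y ≤ Nat.card (MulAut Q) :=
    Nat.card_le_card_of_injective _ (conj_injective Q hQ.cent)
  have h2 : Nat.card (MulAut Q) = Nat.card (MulAut (alternatingGroup (Fin n))) :=
    Nat.card_congr (MulAut.congr φ).toEquiv
  have h3 := h n hn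
  have h4 := card_mul_le E Q hE
  have h5 : Nat.card Q = Nat.card (alternatingGroup (Fin n)) := Nat.card_congr φ.toEquiv
  have : Nontrivial (Fin n) := Fin.nontrivial_iff_two_le.mpr (by omega)
  have h6 := two_mul_nat_card_alternatingGroup (α := Fin n)
  rw [Nat.card_perm, Nat.card_fin] at h6
  have h7 : 0 < Nat.card Q := Nat.card_pos
  by_contra hc
  push Not at hc
  have h8 : 3 * Nat.card Q ≤ Nat.card E * Nat.card Q := Nat.mul_le_mul_right _ hc
  omega

end Pool.Agent.Lib.MP66ef6b
end

section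
/-!
# BACK: the almost simple case and the alternating case imply finite type
-/
set_option autoImplicit false

namespace Pool.Agent.Lib.MP66ef6b

universe u

namespace BackM

/-- a non-trivial normal subgroup contains the socle -/
theorem socle_le {Y : Type u} [Group Y] {Q N : Subgroup Y} (hQ : IsSocle Q) (hN : N.Normal)
    (hN1 : N ≠ ⊥) : Q ≤ N := by
  have hQn := hQ.normal
  have := hQ.simple
  have h1 : ∃ a ∈ N, a ∈ Q ∧ a ≠ 1 := by
    by_contra hcon
    push Not at hcon
    apply hN1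
    rw [Subgroup.eq_bot_iff_forall]
    intro n hn
    have : n ∈ Subgroup.centralizer (Q : Set Y) := by
      rw [Subgroup.mem_centralizer_iff]
      intro q hq
      have h2 : q * n * q⁻¹ * n⁻¹ = 1 := by
        apply hcon
        · exact N.mul_mem (hN.conj_mem n hn q) (N.inv_mem hn)
        · have h3 := hQn.conj_mem q⁻¹ (Q.inv_mem hq) n
          have h4 := Q.mul_mem hq h3
          have e : q * (n * q⁻¹ * n⁻¹) = q * n * q⁻¹ * n⁻¹ := by group
          rwa [e] at h4
      have h3 : q * n * q⁻¹ * n⁻¹ * (n * q) = 1 * (n * q) := by rw [h2]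
      have e : q * n * q⁻¹ * n⁻¹ * (n * q) = q * n := by group
      rw [e, one_mul] at h3
      exact h3
    rw [hQ.cent] at this
    exact Subgroup.mem_bot.1 this
  obtain ⟨a, haN, haQ, ha1⟩ := h1
  have hn : (N.subgroupOf Q).Normal := hN.subgroupOf Q
  rcases hn.eq_bot_or_eq_top with h | h
  · exfalso
    apply ha1
    have : (⟨a, haQ⟩ : Q) ∈ N.subgroupOf Q := Subgroup.mem_subgroupOf.2 haN
    rw [h, Subgroup.mem_bot] at this
    exact congrArg Subtype.val this
  · exact Subgroup.subgroupOf_eq_top.1 h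

/-- the preimage in `G` of a subgroup of `Y` -/
def pre {G : Type u} [Group G] {X : Subgroup G} {Y : Type*} [Group Y] (ρ : X →* Y)
    (S : Subgroup Y) : Subgroup G :=
  (S.comap ρ).map X.subtype

theorem mem_pre {G : Type u} [Group G] {X : Subgroup G} {Y : Type*} [Group Y] (ρ : X →* Y)
    (S : Subgroup Y) (x : X) : (x : G) ∈ pre ρ S ↔ ρ x ∈ S := by
  unfold pre
  constructor
  · rintro ⟨y, hy, hyx⟩
    have : y = x := Subtype.ext hyx
    rw [← this]
    exact hy
  · intro h
    exact ⟨x, h, rfl⟩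

theorem three_le {n : ℕ} {σ : Equiv.Perm (Fin n)} (h : σ ∈ alternatingGroup (Fin n))
    (h1 : σ ≠ 1) : 3 ≤ n := by
  by_contra hcon
  apply h1
  rw [Equiv.Perm.mem_alternatingGroup] at h
  have hn : n < 3 := by omega
  interval_cases n
  · exact Subsingleton.elim _ _
  · exact Subsingleton.elim _ _
  · revert σ
    decide

theorem trans {n : ℕ} (hn : 3 ≤ n) (a b : Fin n) : ∃ σ ∈ alternatingGroup (Fin n), σ a = b := by
  by_cases hab : a = b
  · exact ⟨1, Subgroup.one_mem _, by simp [hab]⟩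
  · have hc : ∃ c : Fin n, c ∉ ({a, b} : Finset (Fin n)) := by
      by_contra hcon
      push Not at hcon
      have h1 : (Finset.univ : Finset (Fin n)) ⊆ {a, b} := fun x _ => hcon x
      have h2 := Finset.card_le_card h1
      rw [Finset.card_univ, Fintype.card_fin] at h2
      have h3 := Finset.card_le_two (a := a) (b := b)
      omega
    obtain ⟨c, hc⟩ := hc
    rw [Finset.mem_insert, Finset.mem_singleton, not_or] at hc
    refine ⟨Equiv.swap a c * Equiv.swap a b, ?_, ?_⟩
    · rw [Equiv.Perm.mem_alternatingGroup, map_mul, Equiv.Perm.sign_swap (Ne.symm hc.1),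
        Equiv.Perm.sign_swap hab]
      rfl
    · rw [Equiv.Perm.mul_apply, Equiv.swap_apply_left,
        Equiv.swap_apply_of_ne_of_ne (Ne.symm hab) (Ne.symm hc.2)]

end BackM

open BackM

theorem specBACK (hU : SpecULIM.{u}) : SpecBACK.{u} := by
  intro G _ _ hG
  refine ⟨?_, ?_⟩
  · rintro ⟨F, hF, h⟩
    refine hU G hG F hF fun E hE hFE => ?_
    obtain ⟨Y, _, Q, X, ρ, S, hX, hEX, hsurj, hinj, hsoc, hQS, hconf⟩ := h E hE hFE
    refine ⟨X, pre ρ S, hEX, ?_, ?_⟩
    · intro x hx
      obtain ⟨f, hfF, hf1, hfS⟩ := hconf (ρ ⟨x, hx⟩)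
      refine ⟨f, hfF, ?_, ?_⟩
      · intro hcon
        exact hf1 (Subtype.ext hcon)
      · have h1 := (mem_pre ρ S (⟨x, hx⟩ * f * ⟨x, hx⟩⁻¹)).2 (by
          rw [map_mul, map_mul, map_inv]
          exact hfS)
        exact h1
    · intro e he he1
      by_contra hcon
      push Not at hcon
      have heX : e ∈ X := hEX he
      have hρ : ρ ⟨e, heX⟩ ≠ 1 := by
        intro h1
        exact he1 (congrArg Subtype.val (hinj ⟨e, heX⟩ he h1))
      apply hQS
      have hN : Subgroup.normalClosure {ρ ⟨e, heX⟩} ≤ S := by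
        rw [Subgroup.normalClosure, Subgroup.closure_le]
        intro y hy
        rw [Group.mem_conjugatesOfSet_iff] at hy
        obtain ⟨a, ha, hay⟩ := hy
        rw [Set.mem_singleton_iff] at ha
        subst ha
        rw [isConj_iff] at hay
        obtain ⟨c, rfl⟩ := hay
        obtain ⟨x, rfl⟩ := hsurj c
        have h1 := hcon x x.2
        have h2 := (mem_pre ρ S (x * ⟨e, heX⟩ * x⁻¹)).1 h1
        rw [map_mul, map_mul, map_inv] at h2
        exact h2
      refine le_trans (socle_le hsoc Subgroup.normalClosure_normal ?_) hN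
      intro hbot
      apply hρ
      rw [← Subgroup.mem_bot, ← hbot]
      exact Subgroup.subset_normalClosure rfl
  · rintro ⟨F, hF, h⟩
    classical
    refine hU G hG F hF fun E hE hFE => ?_
    obtain ⟨g₀, hg₀⟩ := exists_ne (1 : G)
    have hEfin : (E : Set G).Finite := Set.toFinite _
    let E' : Subgroup G := Subgroup.closure ((hEfin.toFinset ∪ {g₀} : Finset G) : Set G)
    have hEE' : E ≤ E' := by
      intro x hx
      apply Subgroup.subset_closure
      simp [hx]
    have hgE' : g₀ ∈ E' := by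
      apply Subgroup.subset_closure
      simp
    obtain ⟨X, n, ρ, hX, hEX, hrange, hinj, hconf⟩ := h E' (hG _) (hFE.trans hEE')
    have hρ : ∀ e (he : e ∈ E'), e ≠ 1 → ρ ⟨e, hEX he⟩ ≠ 1 := by
      intro e he he1 h1
      exact he1 (congrArg Subtype.val (hinj ⟨e, hEX he⟩ he h1))
    have hn : 3 ≤ n := by
      refine three_le (σ := ρ ⟨g₀, hEX hgE'⟩) ?_ (hρ g₀ hgE' hg₀)
      rw [← hrange]
      exact ⟨_, rfl⟩
    let ω₀ : Fin n := ⟨0, by omega⟩
    refine ⟨X, pre ρ (MulAction.stabilizer (Equiv.Perm (Fin n)) ω₀), hEE'.trans hEX, ?_, ?_⟩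
    · intro x hx
      obtain ⟨f, hfF, hf1, hfω⟩ := hconf ((ρ ⟨x, hx⟩)⁻¹ ω₀)
      refine ⟨f, hfF, ?_, ?_⟩
      · intro hcon
        exact hf1 (Subtype.ext hcon)
      · have h1 := (mem_pre ρ (MulAction.stabilizer (Equiv.Perm (Fin n)) ω₀)
          (⟨x, hx⟩ * f * ⟨x, hx⟩⁻¹)).2 (by
          rw [map_mul, map_mul, map_inv, MulAction.mem_stabilizer_iff, Equiv.Perm.smul_def,
            Equiv.Perm.mul_apply, Equiv.Perm.mul_apply, hfω, ← Equiv.Perm.mul_apply,
            mul_inv_cancel, Equiv.Perm.one_apply])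
        exact h1
    · intro e he he1
      have heX : e ∈ X := hEX (hEE' he)
      have h1 : ∃ ω, ρ ⟨e, heX⟩ ω ≠ ω := by
        by_contra hcon
        push Not at hcon
        exact hρ e (hEE' he) he1 (Equiv.ext hcon)
      obtain ⟨ω, hω⟩ := h1
      obtain ⟨σ, hσ, hσω⟩ := trans hn ω ω₀
      rw [← hrange] at hσ
      obtain ⟨x, rfl⟩ := hσ
      refine ⟨x, x.2, ?_⟩
      intro hcon
      have h2 := (mem_pre ρ (MulAction.stabilizer (Equiv.Perm (Fin n)) ω₀)
        (x * ⟨e, heX⟩ * x⁻¹)).1 hcon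
      rw [map_mul, map_mul, map_inv, MulAction.mem_stabilizer_iff, Equiv.Perm.smul_def,
        Equiv.Perm.mul_apply, Equiv.Perm.mul_apply] at h2
      have h3 : (ρ x)⁻¹ ω₀ = ω := by
        rw [← hσω, ← Equiv.Perm.mul_apply, inv_mul_cancel, Equiv.Perm.one_apply]
      rw [h3, ← hσω] at h2
      exact hω ((ρ x).injective h2)

end Pool.Agent.Lib.MP66ef6b
end

section
/-!
# MP_66ef6b_al: LARGE, simple groups with many automorphisms
-/
set_option autoImplicit false

namespace Pool.Agent.Lib.MP66ef6b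

universe u

namespace LargeM

/-- A group acting faithfully by conjugation on `Q` has order at most `|Q|!`. -/
theorem card_le {K : Type u} [Group K] [Finite K] (Q E : Subgroup K)
    (hn : ∀ e ∈ E, ∀ q ∈ Q, e * q * e⁻¹ ∈ Q)
    (hf : ∀ e ∈ E, (∀ q ∈ Q, e * q = q * e) → e = 1) :
    Nat.card E ≤ (Nat.card Q).factorial := by
  rw [← Nat.card_perm]
  refine Nat.card_le_card_of_injective
    (fun e : E => (⟨fun q : Q => ⟨(e : K) * q * (e : K)⁻¹, hn e e.2 q q.2⟩,
      fun q : Q => ⟨(e : K)⁻¹ * q * (e : K), by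
        have := hn (e : K)⁻¹ (E.inv_mem e.2) q q.2
        rwa [inv_inv] at this⟩,
      fun q => by ext; simp [mul_assoc], fun q => by ext; simp [mul_assoc]⟩ : Equiv.Perm Q)) ?_
  intro a b hab
  have h1 : ∀ q : Q, (a : K) * q * (a : K)⁻¹ = (b : K) * q * (b : K)⁻¹ := by
    intro q
    exact congrArg (fun e : Equiv.Perm Q => ((e q : Q) : K)) hab
  have h2 : (b : K)⁻¹ * a = 1 := by
    apply hf _ (E.mul_mem (E.inv_mem b.2) a.2)
    intro q hq
    have h3 := h1 ⟨q, hq⟩
    simp only at h3
    have h4 : (b : K)⁻¹ * a * q = (b : K)⁻¹ * ((a : K) * q * (a : K)⁻¹) * a := by group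
    rw [h4, h3]
    group
  exact Subtype.ext (inv_mul_eq_one.mp h2).symm

/-- A simple group has order at most `(index)!`. -/
theorem card_le_index {Q : Type u} [Group Q] [Finite Q] [IsSimpleGroup Q] (H : Subgroup Q)
    (hH : H ≠ ⊤) : Nat.card Q ≤ H.index.factorial := by
  have hker : (MulAction.toPermHom Q (Q ⧸ H)).ker = ⊥ := by
    rw [← Subgroup.normalCore_eq_ker]
    rcases (inferInstance : H.normalCore.Normal).eq_bot_or_eq_top with h | h
    · exact h
    · exact absurd (top_le_iff.mp (h ▸ H.normalCore_le)) hH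
  rw [Subgroup.index, ← Nat.card_perm]
  exact Nat.card_le_card_of_injective _ ((MonoidHom.ker_eq_bot_iff _).mp hker)

end LargeM

open LargeM in
theorem specLARGE : SpecLARGE.{u} := by
  intro K _ _ Q E N hQ hn hf hN H hH
  by_contra hcon
  push Not at hcon
  have h1 := card_le Q E hn hf
  have hne : H.subgroupOf Q ≠ ⊤ := by
    intro h
    exact hH.not_ge (Subgroup.subgroupOf_eq_top.mp h)
  have h2 := card_le_index (H.subgroupOf Q) hne
  have h3 : (H.subgroupOf Q).index * Nat.card (H.subgroupOf Q) = Nat.card Q :=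
    Subgroup.index_mul_card _
  have h4 : Nat.card (H.subgroupOf Q) = Nat.card H :=
    Nat.card_congr (Subgroup.subgroupOfEquivOfLe hH.le).toEquiv
  rw [h4] at h3
  have h5 : (H.subgroupOf Q).index < N := by
    rw [← h3] at hcon
    exact lt_of_mul_lt_mul_right hcon (Nat.zero_le _)
  have h6 : Nat.card Q ≤ N.factorial := h2.trans (Nat.factorial_le h5.le)
  exact absurd (h1.trans (Nat.factorial_le h6)) (not_le.mpr hN)

end Pool.Agent.Lib.MP66ef6b
end

section
/-!
# MP_66ef6b_al, module MAIN: assembly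
-/
set_option autoImplicit false

namespace Pool.Agent.Lib.MP66ef6b

universe u

/-- From actions to confined subgroups. -/
theorem FiniteType.exists_conf {G : Type u} [Group G] (h : FiniteType G) :
    ∃ F H : Subgroup G, Finite F ∧ H ≠ ⊤ ∧ Conf F H := by
  obtain ⟨Ω, _, F, ⟨g, ω, hg⟩, hF, hreg⟩ := h
  refine ⟨F, MulAction.stabilizer G ω, hF, ?_, ?_⟩
  · intro h
    apply hg
    have : g ∈ MulAction.stabilizer G ω := by
      rw [h]
      trivial
    exact this
  · intro k
    obtain ⟨f, hf, hf1, hfω⟩ := hreg (k⁻¹ • ω)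
    refine ⟨f, hf, hf1, ?_⟩
    rw [MulAction.mem_stabilizer_iff, mul_smul, mul_smul, hfω, smul_inv_smul]

theorem AffineType.finiteType {G : Type u} [Group G] (h : AffineType G) : FiniteType G := by
  obtain ⟨p, V, _, iA, F, -, -, -, -, hnt, hF, hreg⟩ := h
  exact ⟨V, iA, F, hnt, hF, hreg⟩

theorem SimpleType.almostSimpleType {G : Type u} [Group G] (h : SimpleType G) :
    AlmostSimpleType G := by
  obtain ⟨F, hF, h⟩ := h
  exact ⟨F, hF, fun E hE hFE => by
    obtain ⟨Y, iY, hV⟩ := h E hE hFE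
    exact ⟨Y, iY, ⊤, hV⟩⟩

/-- The global alternative. -/
theorem alternative {G : Type u} [Group G] [IsSimpleGroup G] [Infinite G] (hG : LocFin G)
    (hLOCAL : SpecLOCAL.{u}) (hULTA : SpecULTA.{u}) (h : FiniteType G)
    (P : Subgroup G → Prop)
    (hP : ∀ E : Subgroup G, Finite E → ∃ K : Subgroup G, Finite K ∧ E ≤ K ∧ P K) :
    AffineType G ∨ ∃ F : Subgroup G, Finite F ∧ ∀ E : Subgroup G, Finite E → F ≤ E →
      ∃ (K : Subgroup G) (Y : Type u) (_ : Group Y) (T : Subgroup Y),
        P K ∧ Visible F E Y T ∧ CompFactor K T := by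
  obtain ⟨F, H, hF, hH, hconf⟩ := h.exists_conf
  have hl := hLOCAL G hG F H hF hH hconf P hP
  by_cases hI : ∀ E : Subgroup G, Finite E → F ≤ E → DataI F E
  · exact Or.inl (hULTA G hG F hF hI)
  · push Not at hI
    obtain ⟨E₀, hE₀, hFE₀, hI⟩ := hI
    refine Or.inr ⟨F, hF, fun E hE hFE => ?_⟩
    have hfin : Finite (E ⊔ E₀ : Subgroup G) := by
      classical
      have h1 : (E ⊔ E₀ : Subgroup G) ≤ Subgroup.closure
          (((Set.toFinite (E : Set G)).toFinset ∪ (Set.toFinite (E₀ : Set G)).toFinset : Finset G) :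
            Set G) := by
        refine sup_le (fun x hx => ?_) fun x hx => ?_
        · apply Subgroup.subset_closure
          simp [hx]
        · apply Subgroup.subset_closure
          simp [hx]
      have h2 := hG ((Set.toFinite (E : Set G)).toFinset ∪ (Set.toFinite (E₀ : Set G)).toFinset)
      exact Finite.of_injective _ (Subgroup.inclusion_injective h1)
    rcases hl (E ⊔ E₀) hfin (hFE.trans le_sup_left) with h | ⟨K, Y, _, T, hPK, hV, hcf⟩
    · exact absurd (h.mono le_sup_right) hI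
    · exact ⟨K, Y, _, T, hPK, hV.mono le_sup_left, hcf⟩

theorem specMAIN (hLOCAL : SpecLOCAL.{u}) (hULTA : SpecULTA.{u}) (hBACK : SpecBACK.{u})
    (hOUT : SpecOUT.{u}) (hALT : SpecALT.{u}) : SpecMAIN.{u} := by
  intro G _ _ _ hG
  have hback := hBACK G hG
  refine ⟨⟨fun h => ?_, fun h => ?_⟩, fun hE => ⟨hOUT G hG hE, fun h => h.almostSimpleType⟩,
    fun hL => ⟨fun h => ?_, fun h => ?_⟩⟩
  · rcases alternative hG hLOCAL hULTA h (fun _ => True)
      (fun E hE => ⟨E, hE, le_rfl, trivial⟩) with h | ⟨F, hF, h⟩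
    · exact Or.inl h
    · refine Or.inr ⟨F, hF, fun E hE hFE => ?_⟩
      obtain ⟨K, Y, _, T, -, hV, -⟩ := h E hE hFE
      exact ⟨Y, _, T, hV⟩
  · exact h.elim (fun h => h.finiteType) hback.1
  · obtain ⟨b, hL⟩ := hL
    rcases alternative hG hLOCAL hULTA h (fun K => AltFactors b K) hL with h | ⟨F, hF, h⟩
    · exact Or.inl h
    · refine Or.inr (hALT G hG F hF fun E hE hFE => ?_)
      obtain ⟨E', hE'f, hEE', hbig⟩ := exists_big hG E b.factorial
      obtain ⟨K, Y, _, T, hK, hV, A, B, _, hA, ⟨e⟩⟩ := h E' hE'f (hFE.trans hEE')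
      have hV' := hV
      obtain ⟨X, ρ, S, hXf, hEX, hρs, hρi, hT, -⟩ := hV'
      have hTn : T.Normal := hT.normal
      have hYf : Finite Y := Finite.of_surjective ρ hρs
      have hs : IsSimpleGroup T := hT.simple
      have hs' : IsSimpleGroup (A ⧸ B) := e.isSimpleGroup
      have hnc : ∃ a b : A ⧸ B, a * b ≠ b * a := by
        obtain ⟨a, ha, b, hb, hab⟩ := hT.noncomm
        refine ⟨e.symm ⟨a, ha⟩, e.symm ⟨b, hb⟩, fun h => hab ?_⟩
        rw [← map_mul, ← map_mul] at h
        exact congrArg Subtype.val (e.symm.injective h)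
      have hcard : b < Nat.card (A ⧸ B) := by
        rw [Nat.card_congr e.toEquiv]
        by_contra hle
        have h1 : Nat.card E' ≤ Nat.card ((E'.subgroupOf X).map ρ) := by
          refine Nat.card_le_card_of_injective
            (fun x : E' => (⟨ρ ⟨x, hEX x.2⟩, ⟨x, hEX x.2⟩, Subgroup.mem_subgroupOf.mpr x.2, rfl⟩ :
              (E'.subgroupOf X).map ρ)) ?_
          intro x y hxy
          have h2 : ρ ⟨x, hEX x.2⟩ = ρ ⟨y, hEX y.2⟩ := congrArg Subtype.val hxy
          have h3 := hρi (⟨x, hEX x.2⟩ * (⟨y, hEX y.2⟩ : X)⁻¹)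
            (E'.mul_mem x.2 (E'.inv_mem y.2)) (by rw [map_mul, map_inv, h2, mul_inv_cancel])
          rw [mul_inv_eq_one] at h3
          exact Subtype.ext (congrArg (fun x : X => (x : G)) h3)
        have h2 := AltM.card_le_factorial hT.cent ((E'.subgroupOf X).map ρ)
        have h3 : (Nat.card T).factorial ≤ b.factorial := Nat.factorial_le (not_lt.mp hle)
        omega
      obtain ⟨n, ⟨e'⟩⟩ := hK A B hA hs' hnc hcard
      exact ⟨n, Y, _, T, hV.mono hEE', ⟨e.symm.trans e'⟩⟩
  · exact h.elim (fun h => h.finiteType) hback.2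

end Pool.Agent.Lib.MP66ef6b
end
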