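import Pool.Agent.Lib.MP_66ef6b_al.Spec
import Pool.Agent.Lib.MP_66ef6b_al.Tower

section
/-!
# MP_66ef6b_al: POS2, position 2
-/
set_option autoImplicit false

namespace Pool.Agent.Lib.MP66ef6b

universe u

namespace Pos2M

variable {K : Type u} [Group K]

/-- The centraliser of `Q` in `X`. -/
def Cen (X Q : Subgroup K) : Subgroup X where
  carrier := {x | ∀ q ∈ Q, (x : K) * q = q * x}
  one_mem' := fun q _ => by simp
  mul_mem' := fun {a b} ha hb q hq => by
    change ((a : K) * b) * q = q * ((a : K) * b)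
    rw [mul_assoc, hb q hq, ← mul_assoc, ha q hq, mul_assoc]
  inv_mem' := fun {a} ha q hq => by
    change (a : K)⁻¹ * q = q * (a : K)⁻¹
    have := ha q hq
    rw [inv_mul_eq_iff_eq_mul, ← mul_assoc, this, mul_assoc, mul_inv_cancel, mul_one]

theorem mem_Cen {X Q : Subgroup K} {x : X} :
    x ∈ Cen X Q ↔ ∀ q ∈ Q, (x : K) * q = q * x := Iff.rfl

theorem Cen_normal {X Q : Subgroup K} (hn : ∀ x ∈ X, ∀ q ∈ Q, x * q * x⁻¹ ∈ Q) :
    (Cen X Q).Normal := by
  constructor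
  intro c hc g q hq
  change ((g : K) * c * (g : K)⁻¹) * q = q * ((g : K) * c * (g : K)⁻¹)
  have h1 := hn (g : K)⁻¹ (X.inv_mem g.2) q hq
  have h2 := hc _ h1
  rw [inv_inv] at h2
  have h3 : ((g : K) * c * (g : K)⁻¹) * q =
      (g : K) * ((c : K) * ((g : K)⁻¹ * q * g)) * (g : K)⁻¹ := by group
  rw [h3, h2]
  group

theorem centre_trivial {Q : Subgroup K} (hs : IsSimpleGroup Q)
    (hab : ∃ a ∈ Q, ∃ b ∈ Q, a * b ≠ b * a) :
    ∀ c ∈ Q, (∀ q ∈ Q, c * q = q * c) → c = 1 := by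
  intro c hc hcen
  obtain ⟨a, ha, b, hb, hab⟩ := hab
  rcases (inferInstance : (Subgroup.center Q).Normal).eq_bot_or_eq_top with h | h
  · have h1 : (⟨c, hc⟩ : Q) ∈ Subgroup.center Q := by
      rw [Subgroup.mem_center_iff]
      intro g
      exact Subtype.ext (hcen g g.2).symm
    rw [h, Subgroup.mem_bot] at h1
    exact congrArg Subtype.val h1
  · exfalso
    apply hab
    have h1 : (⟨b, hb⟩ : Q) ∈ Subgroup.center Q := by
      rw [h]
      exact Subgroup.mem_top _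
    rw [Subgroup.mem_center_iff] at h1
    exact congrArg Subtype.val (h1 ⟨a, ha⟩)

/-- The quotient `X / C_X(Q)` is almost simple. -/
theorem visible [Finite K] {X F E M Q : Subgroup K} (hQX : Q ≤ X) (hEX : E ≤ X)
    (hFX : F ≤ X) (hs : IsSimpleGroup Q) (hab : ∃ a ∈ Q, ∃ b ∈ Q, a * b ≠ b * a)
    (hn : ∀ x ∈ X, ∀ q ∈ Q, x * q * x⁻¹ ∈ Q)
    (hE : ∀ e ∈ E, (∀ q ∈ Q, e * q = q * e) → e = 1) (hF : Conf F M)
    (hS : ¬ ∀ q ∈ Q, ∃ m ∈ M, m ∈ X ∧ ∃ c ∈ X, (∀ q ∈ Q, c * q = q * c) ∧ q = m * c) :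
    ∃ (Y : Type u) (_ : Group Y) (P : Subgroup Y), Visible F E Y P ∧ Nonempty (Q ≃* P) := by
  have hCn : (Cen X Q).Normal := Cen_normal hn
  have hz := centre_trivial hs hab
  -- `Q ∩ C = 1`
  have hQC : ∀ q (hq : q ∈ Q), (⟨q, hQX hq⟩ : X) ∈ Cen X Q → q = 1 := fun q hq h => hz q hq h
  let ρ : X →* X ⧸ Cen X Q := QuotientGroup.mk' (Cen X Q)
  have hρs : Function.Surjective ρ := QuotientGroup.mk'_surjective _
  have hρ1 : ∀ x : X, ρ x = 1 ↔ x ∈ Cen X Q := by
    intro x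
    exact QuotientGroup.eq_one_iff x
  let ι : Q →* X ⧸ Cen X Q := ρ.comp (Subgroup.inclusion hQX)
  have hι : Function.Injective ι := by
    rw [injective_iff_map_eq_one]
    intro q hq
    exact Subtype.ext (hQC q q.2 ((hρ1 _).mp hq))
  have hQP : Nonempty (Q ≃* ι.range) := ⟨MonoidHom.ofInjective hι⟩
  obtain ⟨e⟩ := hQP
  refine ⟨X ⧸ Cen X Q, inferInstance, ι.range, ⟨X, ρ, (M.subgroupOf X).map ρ, inferInstance,
    hEX, hρs, ?_, ⟨?_, ?_, ?_, ?_⟩, ?_, ?_⟩, ⟨e⟩⟩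
  · intro x hx h
    exact Subtype.ext (hE x hx ((hρ1 x).mp h))
  · -- normal
    constructor
    rintro _ ⟨q, rfl⟩ y
    obtain ⟨x, rfl⟩ := hρs y
    refine ⟨⟨(x : K) * q * (x : K)⁻¹, hn x x.2 q q.2⟩, ?_⟩
    change ρ _ = ρ x * ρ _ * (ρ x)⁻¹
    rw [← map_inv, ← map_mul, ← map_mul]
    rfl
  · have := hs
    exact e.symm.isSimpleGroup
  · obtain ⟨a, ha, b, hb, hab⟩ := hab
    refine ⟨ι ⟨a, ha⟩, ⟨_, rfl⟩, ι ⟨b, hb⟩, ⟨_, rfl⟩, fun h => hab ?_⟩
    rw [← map_mul, ← map_mul] at h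
    exact congrArg Subtype.val (hι h)
  · rw [eq_bot_iff]
    intro y hy
    obtain ⟨x, rfl⟩ := hρs y
    rw [Subgroup.mem_bot, hρ1]
    intro q hq
    have h1 := (Subgroup.mem_centralizer_iff.mp hy) (ι ⟨q, hq⟩) ⟨_, rfl⟩
    have h2 : ρ (x * ⟨q, hQX hq⟩ * x⁻¹ * (⟨q, hQX hq⟩ : X)⁻¹) = 1 := by
      rw [map_mul, map_mul, map_mul, map_inv, map_inv]
      change ι ⟨q, hq⟩ * ρ x = ρ x * ι ⟨q, hq⟩ at h1
      change ρ x * ι ⟨q, hq⟩ * (ρ x)⁻¹ * (ι ⟨q, hq⟩)⁻¹ = 1
      rw [← h1]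
      group
    have h3 : (x : K) * q * (x : K)⁻¹ * q⁻¹ ∈ Q :=
      Q.mul_mem (hn x x.2 q hq) (Q.inv_mem hq)
    have h4 := hQC _ h3 ((hρ1 _).mp h2)
    rw [mul_inv_eq_one, mul_inv_eq_iff_eq_mul] at h4
    exact h4
  · intro hle
    apply hS
    intro q hq
    obtain ⟨m, hm, hmq⟩ := hle (x := ι ⟨q, hq⟩) ⟨_, rfl⟩
    have h1 : m⁻¹ * ⟨q, hQX hq⟩ ∈ Cen X Q := by
      rw [← hρ1, map_mul, map_inv]
      change (ρ m)⁻¹ * ι ⟨q, hq⟩ = 1
      rw [← hmq, inv_mul_cancel]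
    refine ⟨m, Subgroup.mem_subgroupOf.mp hm, m.2, (m : K)⁻¹ * q,
      X.mul_mem (X.inv_mem m.2) (hQX hq), h1, by group⟩
  · intro y
    obtain ⟨x, rfl⟩ := hρs y
    obtain ⟨f, hf, hf1, hfM⟩ := hF x
    refine ⟨⟨f, hFX hf⟩, hf, fun h => hf1 (congrArg Subtype.val h), ?_⟩
    rw [← map_inv, ← map_mul, ← map_mul]
    refine Subgroup.mem_map_of_mem ρ ?_
    rw [Subgroup.mem_subgroupOf]
    exact hfM

end Pos2M

open PosaM Pos2M in
theorem specPOS2 (hCOUNT : SpecCOUNT.{u}) (hLARGE : SpecLARGE.{u}) : SpecPOS2.{u} := by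
  intro K _ _ J _ _ X Z F E M Q π _hXn hZ hZX hFE hEX hc hs hConf hXM hcase hfix j hj hE hcard
  have hQX : Q j ≤ X := (hc.le j).trans hZX
  have hn : ∀ x ∈ X, ∀ q ∈ Q j, x * q * x⁻¹ ∈ Q j := by
    intro x hx q hq
    have := hc.conjQ x j q hq
    rwa [hfix x hx j] at this
  have hFX := hFE.trans hEX
  have hz := centre_trivial (hs j).1 (hs j).2
  -- the counting principle
  have hcount : ∀ Bad : K → K → Prop,
      (∀ f ∈ F, f ≠ 1 → ∀ q ∈ Q j, ∀ r ∈ Q j, Bad f q → Bad f r →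
        q⁻¹ * f * q = r⁻¹ * f * r) → ∃ q ∈ Q j, ∀ f ∈ F, f ≠ 1 → ¬ Bad f q := by
    intro Bad hBad
    refine hCOUNT K (Q j) F Bad ?_ ?_ hBad
    · intro f hf hf1
      by_contra hcon
      push Not at hcon
      exact hf1 (hE f (hFE hf) hcon)
    · exact hLARGE K (Q j) E (Nat.card F) (hs j).1
        (fun e he => hn e (hEX he)) hE hcard
  -- contradiction principle
  have hcontra : (∀ f ∈ F, f ≠ 1 → ∀ q ∈ Q j, ∀ r ∈ Q j, q⁻¹ * f * q ∈ M → r⁻¹ * f * r ∈ M →
        q⁻¹ * f * q = r⁻¹ * f * r) → False := by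
    intro h
    obtain ⟨q, hq, hq'⟩ := hcount (fun f q => q⁻¹ * f * q ∈ M) h
    obtain ⟨f, hf, hf1, hfM⟩ := hConf q⁻¹
    rw [inv_inv] at hfM
    exact hq' f hf hf1 hfM
  rcases hcase with hP | hpart
  · -- case (a)
    by_cases hS : ∀ q ∈ Q j, ∃ m ∈ M, m ∈ X ∧ ∃ c ∈ X, (∀ q ∈ Q j, c * q = q * c) ∧ q = m * c
    · exfalso
      -- `M ⊓ Q j` is normal in `Q j`
      have hnor : ((M ⊓ Q j).subgroupOf (Q j)).Normal := by
        constructor
        intro a ha q
        rw [Subgroup.mem_subgroupOf] at ha ⊢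
        obtain ⟨m, hm, hmX, c, hcX, hcc, hq⟩ := hS q q.2
        have e1 : ((q * a * q⁻¹ : Q j) : K) = m * a * m⁻¹ := by
          change (q : K) * a * (q : K)⁻¹ = _
          rw [hq]
          have := hcc a a.2
          have e2 : m * c * (a : K) * (m * c)⁻¹ = m * (c * a) * c⁻¹ * m⁻¹ := by group
          rw [e2, this]
          group
        rw [e1]
        exact ⟨M.mul_mem (M.mul_mem hm ha.1) (M.inv_mem hm), hn m hmX a a.2⟩
      have hbot : ∀ q ∈ Q j, q ∈ M → q = 1 := by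
        have := (hs j).1
        rcases hnor.eq_bot_or_eq_top with h | h
        · intro q hq hqM
          have h1 : (⟨q, hq⟩ : Q j) ∈ (M ⊓ Q j).subgroupOf (Q j) :=
            Subgroup.mem_subgroupOf.mpr ⟨hqM, hq⟩
          rw [h, Subgroup.mem_bot] at h1
          exact congrArg Subtype.val h1
        · exact absurd ((Subgroup.subgroupOf_eq_top.mp h).trans inf_le_left) hj
      apply hcontra
      intro f hf _ q hq r hr hqM hrM
      obtain ⟨u, hu, m, hm, hum⟩ := hXM f (hFX hf)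
      have hgen : ∀ q ∈ Q j, q⁻¹ * f * q ∈ M → q⁻¹ * f * q = (π j u)⁻¹ * f := by
        intro q hq hqM
        obtain ⟨s, hs1, hs2⟩ := key hZ hc hum hu hm (hc.le j hq) hqM
        have h1 := (hP s hs1.2).mp hs1 j
        have h2 := hbot _ (hc.mem j s hs1.2) h1.1
        rw [hs2 j, hfix f (hFX hf), hc.self j q hq] at h2
        have h3 : q⁻¹ * f * q = (π j u)⁻¹ * f * (f⁻¹ * (π j u * q⁻¹) * f * q) := by group
        rw [h3, h2, mul_one]
      rw [hgen q hq hqM, hgen r hr hrM]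
    · exact visible hQX hEX hFX (hs j).1 (hs j).2 hn hE hConf hS
  · -- case (c)
    exfalso
    obtain ⟨i, θ, hθ⟩ := hpart j hj
    apply hcontra
    intro f hf _ q hq r hr hqM hrM
    obtain ⟨u, hu, m, hm, hum⟩ := hXM f (hFX hf)
    have hgen : ∀ q ∈ Q j, q⁻¹ * f * q ∈ M →
        f⁻¹ * (π j u * q⁻¹) * f * q ∈ Q j ∧
        θ (f⁻¹ * (π j u * q⁻¹) * f * q) = f⁻¹ * (π i u * 1⁻¹) * f * 1 := by
      intro q hq hqM
      obtain ⟨s, hs1, hs2⟩ := key hZ hc hum hu hm (hc.le j hq) hqM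
      have h1 := hθ.graph s hs1
      have h4 := hc.mem j s hs1.2
      rw [hs2 j, hfix f (hFX hf), hc.self j q hq] at h4
      rw [hs2 j, hs2 i, hfix f (hFX hf), hfix f (hFX hf), hc.self j q hq,
        hc.other i j hθ.ne q hq] at h1
      exact ⟨h4, h1.symm⟩
    obtain ⟨hq1, hq2⟩ := hgen q hq hqM
    obtain ⟨hr1, hr2⟩ := hgen r hr hrM
    have hinv : ∀ q ∈ Q j, θ q⁻¹ = (θ q)⁻¹ := by
      intro q hq
      have h1 : θ 1 = 1 := by
        have := hθ.mul 1 (Q j).one_mem 1 (Q j).one_mem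
        rw [mul_one] at this
        exact (mul_eq_left.mp this.symm)
      have h2 := hθ.mul q⁻¹ ((Q j).inv_mem hq) q hq
      rw [inv_mul_cancel, h1] at h2
      exact eq_inv_of_mul_eq_one_left h2.symm
    have h1 : θ ((f⁻¹ * (π j u * q⁻¹) * f * q) * (f⁻¹ * (π j u * r⁻¹) * f * r)⁻¹) = 1 := by
      rw [hθ.mul _ hq1 _ ((Q j).inv_mem hr1), hinv _ hr1, hq2, hr2, mul_inv_cancel]
    have h2 := hθ.inj _ ((Q j).mul_mem hq1 ((Q j).inv_mem hr1)) h1
    rw [mul_inv_eq_one] at h2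
    have h3 : q⁻¹ * f * q = (π j u)⁻¹ * f * (f⁻¹ * (π j u * q⁻¹) * f * q) := by group
    have h4 : r⁻¹ * f * r = (π j u)⁻¹ * f * (f⁻¹ * (π j u * r⁻¹) * f * r) := by group
    rw [h3, h4, h2]

end Pool.Agent.Lib.MP66ef6b
end

section
/-!
# MP_66ef6b_al: POSC, position 1 in case (c)
-/
set_option autoImplicit false

namespace Pool.Agent.Lib.MP66ef6b

universe u

namespace PoscM

/-- Greedy choice: every new value has to avoid at most two values. -/
theorem greedy {ι α : Type*} [DecidableEq ι] (S : Finset ι) (A : ι → Set α) (σ : ι → ι)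
    (B : ι → α → α → Prop) (z0 : ι → α)
    (hA : ∀ g ∈ S, ∀ a b, ∃ x ∈ A g, x ≠ a ∧ x ≠ b)
    (hσ : ∀ f, σ f ≠ f) (hσi : Function.Injective σ)
    (hB1 : ∀ f y, ∃ b, ∀ x, B f x y → x = b)
    (hB2 : ∀ f x, ∃ b, ∀ y, B f x y → y = b) :
    ∃ z : ι → α, (∀ g, g ∉ S → z g = z0 g) ∧ (∀ g ∈ S, z g ∈ A g) ∧
      ∀ f, (f ∈ S ∨ σ f ∈ S) → ¬ B f (z f) (z (σ f)) := by
  classical
  induction S using Finset.induction_on with
  | empty => exact ⟨z0, fun _ _ => rfl, by simp, by simp⟩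
  | insert g S hg ih =>
    obtain ⟨z, hz0, hzA, hzB⟩ := ih (fun g' hg' => hA g' (Finset.mem_insert_of_mem hg'))
    obtain ⟨b1, hb1⟩ := hB1 g (z (σ g))
    have h2 : ∃ b2, ∀ f, σ f = g → ∀ y, B f (z f) y → y = b2 := by
      by_cases h : ∃ f, σ f = g
      · obtain ⟨f, hf⟩ := h
        obtain ⟨b, hb⟩ := hB2 f (z f)
        refine ⟨b, fun f' hf' y hy => ?_⟩
        obtain rfl : f' = f := hσi (hf'.trans hf.symm)
        exact hb y hy
      · exact ⟨z0 g, fun f hf => absurd ⟨f, hf⟩ h⟩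
    obtain ⟨b2, hb2⟩ := h2
    obtain ⟨x, hxA, hx1, hx2⟩ := hA g (Finset.mem_insert_self g S) b1 b2
    refine ⟨Function.update z g x, ?_, ?_, ?_⟩
    · intro g' hg'
      rw [Finset.mem_insert, not_or] at hg'
      rw [Function.update_of_ne hg'.1]
      exact hz0 g' hg'.2
    · intro g' hg'
      rcases eq_or_ne g' g with rfl | hne
      · rw [Function.update_self]
        exact hxA
      · rw [Function.update_of_ne hne]
        exact hzA g' ((Finset.mem_insert.mp hg').resolve_left hne)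
    · intro f hf hbad
      rcases eq_or_ne f g with rfl | hne
      · rw [Function.update_self, Function.update_of_ne (hσ f)] at hbad
        exact hx1 (hb1 x hbad)
      · rw [Function.update_of_ne hne] at hbad
        rcases eq_or_ne (σ f) g with hσf | hσf
        · rw [hσf, Function.update_self] at hbad
          exact hx2 (hb2 f hσf x hbad)
        · rw [Function.update_of_ne hσf] at hbad
          refine hzB f ?_ hbad
          rcases hf with hf | hf
          · exact Or.inl ((Finset.mem_insert.mp hf).resolve_left hne)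
          · exact Or.inr ((Finset.mem_insert.mp hf).resolve_left hσf)

/-- A non-abelian group has more than two elements. -/
theorem exists_ne_ne {K : Type u} [Group K] (Q : Subgroup K)
    (hQ : ∃ a ∈ Q, ∃ b ∈ Q, a * b ≠ b * a) (c d : K) : ∃ x ∈ Q, x ≠ c ∧ x ≠ d := by
  obtain ⟨a, ha, b, hb, hab⟩ := hQ
  have h1 : (1 : K) ≠ a := by
    rintro rfl
    exact hab (by simp)
  have h2 : (1 : K) ≠ b := by
    rintro rfl
    exact hab (by simp)
  have h3 : a ≠ b := by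
    rintro rfl
    exact hab rfl
  by_contra hcon
  push Not at hcon
  have k1 := hcon 1 Q.one_mem
  have k2 := hcon a ha
  have k3 := hcon b hb
  by_cases e1 : 1 = c
  · have e2 : a = d := k2 (fun h => h1 (e1.trans h.symm))
    have e3 : b = d := k3 (fun h => h2 (e1.trans h.symm))
    exact h3 (e2.trans e3.symm)
  · have e2 := k1 e1
    have e3 : a = c := by
      by_contra h
      exact h1 (e2.trans (k2 h).symm)
    have e4 : b = c := by
      by_contra h
      exact h2 (e2.trans (k3 h).symm)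
    exact h3 (e3.trans e4.symm)

end PoscM

open PosaM PoscM in
theorem specPOSC : SpecPOSC.{u} := by
  intro K _ _ J _ _ Z F M Q π hZ hc hs hF hpart j hj free
  classical
  obtain ⟨i, θ, hθ⟩ := hpart j hj
  choose! u hu m hm hum using hF
  have hQj := (hs j).2
  -- injectivity of `θ`
  have hinv : ∀ q ∈ Q j, θ q⁻¹ = (θ q)⁻¹ := by
    intro q hq
    have h1 : θ 1 = 1 := by
      have := hθ.mul 1 (Q j).one_mem 1 (Q j).one_mem
      rw [mul_one] at this
      exact (mul_eq_left.mp this.symm)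
    have h2 := hθ.mul q⁻¹ ((Q j).inv_mem hq) q hq
    rw [inv_mul_cancel, h1] at h2
    exact eq_inv_of_mul_eq_one_left h2.symm
  have hinj : ∀ a ∈ Q j, ∀ b ∈ Q j, θ a = θ b → a = b := by
    intro a ha b hb hab
    have h1 : θ (a * b⁻¹) = 1 := by
      rw [hθ.mul a ha _ ((Q j).inv_mem hb), hinv b hb, hab, mul_inv_cancel]
    exact mul_inv_eq_one.mp (hθ.inj _ ((Q j).mul_mem ha ((Q j).inv_mem hb)) h1)
  have hmem : ∀ f ∈ F, ∀ x ∈ Q (f • j), f⁻¹ * (π (f • j) (u f) * x⁻¹) * f ∈ Q j :=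
    fun f hf x hx => conj_mem' hc ((Q _).mul_mem (hc.mem _ _ (hu f hf)) ((Q _).inv_mem hx))
  by_cases hO : ∃ h ∈ F, h • j = i
  · -- the partner is in the orbit
    obtain ⟨h, hhF, hhi⟩ := hO
    have hh1 : h ≠ 1 := by
      rintro rfl
      exact hθ.ne (by rw [← hhi, one_smul])
    -- the first choice
    have hw : ∃ w ∈ Q i, h * h = 1 →
        ¬ (h⁻¹ * (π j (u h) * 1⁻¹) * h * w = θ (h⁻¹ * (π (h • j) (u h) * w⁻¹) * h)) := by
      by_contra hcon
      push Not at hcon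
      have hhh : h * h = 1 := (hcon 1 (Q i).one_mem).1
      have e0 : ∀ w ∈ Q i, h⁻¹ * (π j (u h) * 1⁻¹) * h * w =
          θ (h⁻¹ * (π (h • j) (u h) * w⁻¹) * h) := fun w hw => (hcon w hw).2
      have hc1 : ∀ w ∈ Q i, h⁻¹ * w * h ∈ Q j := by
        intro w hw
        rw [← hhi] at hw
        exact conj_mem' hc hw
      have e1 := e0 1 (Q i).one_mem
      have hu1 : h⁻¹ * π (h • j) (u h) * h ∈ Q j := conj_mem' hc (hc.mem _ _ (hu h hhF))
      have e2 : ∀ w ∈ Q i, θ (h⁻¹ * w⁻¹ * h) = w := by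
        intro w hw
        have e3 := e0 w hw
        have e4 : h⁻¹ * (π (h • j) (u h) * w⁻¹) * h =
            (h⁻¹ * π (h • j) (u h) * h) * (h⁻¹ * w⁻¹ * h) := by group
        rw [e4, hθ.mul _ hu1 _ (hc1 _ ((Q i).inv_mem hw))] at e3
        have e5 : h⁻¹ * (π (h • j) (u h) * 1⁻¹) * h = h⁻¹ * π (h • j) (u h) * h := by group
        rw [e5, mul_one] at e1
        rw [e1] at e3
        exact (mul_left_cancel e3).symm
      obtain ⟨a, ha, b, hb, hab⟩ := (hs i).2
      apply hab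
      have e3 := e2 (a * b) ((Q i).mul_mem ha hb)
      have e4 : h⁻¹ * (a * b)⁻¹ * h = (h⁻¹ * b⁻¹ * h) * (h⁻¹ * a⁻¹ * h) := by group
      rw [e4, hθ.mul _ (hc1 _ ((Q i).inv_mem hb)) _ (hc1 _ ((Q i).inv_mem ha)), e2 a ha,
        e2 b hb] at e3
      exact e3.symm
    obtain ⟨w, hwQ, hw⟩ := hw
    -- the greedy choice
    obtain ⟨v, hv0, hvA, hvB⟩ := greedy
      (Set.toFinite {f : K | f ∈ F ∧ f ≠ 1 ∧ f ≠ h}).toFinset (fun g => (Q (g • j) : Set K))
      (fun f => f * h)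
      (fun f x y => f ∈ F ∧ x ∈ Q (f • j) ∧
        f⁻¹ * (π (f • i) (u f) * y⁻¹) * f * w = θ (f⁻¹ * (π (f • j) (u f) * x⁻¹) * f))
      (fun g => if g = h then w else 1)
      (fun g _ a b => exists_ne_ne _ (hs _).2 a b)
      (fun f hf => hh1 (mul_eq_left.mp hf))
      (mul_left_injective h)
      (by
        intro f y
        by_cases hex : ∃ x, f ∈ F ∧ x ∈ Q (f • j) ∧
          f⁻¹ * (π (f • i) (u f) * y⁻¹) * f * w = θ (f⁻¹ * (π (f • j) (u f) * x⁻¹) * f)
        · obtain ⟨x, hfF, hx, hxe⟩ := hex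
          refine ⟨x, fun x' hx' => ?_⟩
          have h1 := hinj _ (hmem f hfF x' hx'.2.1) _ (hmem f hfF x hx)
            (hx'.2.2.symm.trans hxe)
          have h2 := mul_right_cancel h1
          have h3 := mul_left_cancel (mul_left_cancel h2)
          exact inv_injective h3
        · exact ⟨1, fun x hx => absurd ⟨x, hx⟩ hex⟩)
      (by
        intro f x
        refine ⟨f * w * (θ (f⁻¹ * (π (f • j) (u f) * x⁻¹) * f))⁻¹ * f⁻¹ * π (f • i) (u f),
          fun y hy => ?_⟩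
        rw [← hy.2.2]
        group)
    have hnS : ∀ g : K, g ∉ (Set.toFinite {f : K | f ∈ F ∧ f ≠ 1 ∧ f ≠ h}).toFinset ↔
        (g ∈ F → g ≠ 1 → g = h) := by
      intro g
      rw [Set.Finite.mem_toFinset]
      simp only [Set.mem_ofPred_eq, not_and, not_not]
    have hv1 : v 1 = 1 := by
      rw [hv0 1 ((hnS 1).mpr fun _ h1 => absurd rfl h1)]
      simp only [Ne.symm hh1, if_false]
    have hvh : v h = w := by
      rw [hv0 h ((hnS h).mpr fun _ _ => rfl)]
      simp only [if_true]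
    obtain ⟨z, hz, hz1, -⟩ := assign hc free v (by
      intro f hf
      by_cases hfS : f ∈ (Set.toFinite {f : K | f ∈ F ∧ f ≠ 1 ∧ f ≠ h}).toFinset
      · exact hvA f hfS
      · by_cases h1 : f = 1
        · subst h1
          rw [hv1]
          exact (Q _).one_mem
        · obtain rfl := (hnS f).mp hfS hf h1
          rw [hvh, hhi]
          exact hwQ)
    refine ⟨z, hz, fun f hf hf1 hbad => ?_⟩
    obtain ⟨r, hr, hr'⟩ := key hZ hc (hum f hf) (hu f hf) (hm f hf) hz hbad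
    have hfh : (f * h) • j = f • i := by rw [mul_smul, hhi]
    have h1 := hθ.graph r hr
    have hzj : π j z = 1 := by
      have := hz1 1 F.one_mem
      rw [one_smul] at this
      rw [this, hv1]
    have hzi : π i z = w := by
      rw [← hhi, hz1 h hhF, hvh]
    have hzfi : π (f • i) z = v (f * h) := by
      rw [← hfh, hz1 _ (F.mul_mem hf hhF)]
    rw [hr' j, hr' i, hz1 f hf, hzj, hzi, hzfi,
      mul_one (f⁻¹ * (π (f • j) (u f) * (v f)⁻¹) * f)] at h1
    have hvf : v f ∈ Q (f • j) := by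
      rw [← hz1 f hf]
      exact hc.mem _ _ hz
    by_cases hS : f ∈ (Set.toFinite {f : K | f ∈ F ∧ f ≠ 1 ∧ f ≠ h}).toFinset ∨
        f * h ∈ (Set.toFinite {f : K | f ∈ F ∧ f ≠ 1 ∧ f ≠ h}).toFinset
    · exact hvB f hS ⟨hf, hvf, h1⟩
    · rw [not_or] at hS
      obtain rfl := (hnS f).mp hS.1 hf hf1
      have hff : f * f = 1 := by
        by_contra hne
        exact hf1 (mul_eq_left.mp ((hnS _).mp hS.2 (F.mul_mem hf hf) hne))
      rw [hff, hv1, hvh] at h1
      have hfi : f • i = j := by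
        rw [← hhi, ← mul_smul, hff, one_smul]
      rw [hfi] at h1
      exact hw hff h1
  · -- the partner is outside the orbit
    push Not at hO
    have hex : ∀ f ∈ F, ∃ x ∈ Q (f • j), f ≠ 1 →
        f⁻¹ * (π (f • i) (u f) * 1⁻¹) * f * 1 ≠ θ (f⁻¹ * (π (f • j) (u f) * x⁻¹) * f) := by
      intro f hf
      obtain ⟨a, ha, ha1⟩ := Coords.exists_ne_one hs j
      by_contra hcon
      push Not at hcon
      have hu1 := hc.mem (f • j) _ (hu f hf)
      have h1 := (hcon _ hu1).2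
      have h2 := (hcon ((f * a⁻¹ * f⁻¹) * π (f • j) (u f))
        ((Q _).mul_mem (conj_mem hc ((Q j).inv_mem ha)) hu1)).2
      have h3 := h1.symm.trans h2
      have h4 := hinj _ (hmem f hf _ hu1) _ (hmem f hf _
        ((Q _).mul_mem (conj_mem hc ((Q j).inv_mem ha)) hu1)) h3
      apply ha1
      have h5 : f⁻¹ * (π (f • j) (u f) * ((f * a⁻¹ * f⁻¹) * π (f • j) (u f))⁻¹) * f = a := by
        group
      have h6 : f⁻¹ * (π (f • j) (u f) * (π (f • j) (u f))⁻¹) * f = 1 := by group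
      rw [h5, h6] at h4
      exact h4.symm
    choose! x hx hx1 using hex
    obtain ⟨z, hz, hz1, hz2⟩ := assign hc free (fun f => if f = 1 then 1 else x f) (by
      intro f hf
      by_cases h1 : f = 1
      · simp only [h1, if_true]
        exact (Q _).one_mem
      · simp only [h1, if_false]
        exact hx f hf)
    have hzj : π j z = 1 := by
      have := hz1 1 F.one_mem
      simpa using this
    refine ⟨z, hz, fun f hf hf1 hbad => ?_⟩
    obtain ⟨r, hr, hr'⟩ := key hZ hc (hum f hf) (hu f hf) (hm f hf) hz hbad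
    have h1 := hθ.graph r hr
    rw [hr' j, hr' i, hz1 f hf, hzj, hz2 i hO, hz2 (f • i) (by
      intro g hg hgi
      apply hO (f⁻¹ * g) (F.mul_mem (F.inv_mem hf) hg)
      rw [mul_smul, hgi, inv_smul_smul])] at h1
    simp only [hf1, if_false] at h1
    rw [mul_one (f⁻¹ * (π (f • j) (u f) * (x f)⁻¹) * f)] at h1
    exact hx1 f hf hf1 h1

end Pool.Agent.Lib.MP66ef6b
end
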