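import Pool.Agent.Lib.MP_66ef6b_al.Spec

section
/-!
# MP_66ef6b_al: module TRA1
-/
set_option autoImplicit false

namespace Pool.Agent.Lib.MP66ef6b

universe u

namespace Tra1M

variable {K K' : Type u} [Group K] [Group K']

theorem eq_one {E : Subgroup K} {φ : K →* K'} (hk : φ.ker ⊓ E = ⊥) {x : K} (hx : x ∈ E)
    (h : φ x = 1) : x = 1 := by
  have h1 : x ∈ φ.ker ⊓ E := ⟨MonoidHom.mem_ker.mpr h, hx⟩
  rw [hk] at h1
  exact Subgroup.mem_bot.mp h1

theorem card_map {F E : Subgroup K} {φ : K →* K'} (hk : φ.ker ⊓ E = ⊥) (hFE : F ≤ E) :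
    Nat.card (F.map φ) = Nat.card F := by
  have hinj : Set.InjOn φ (F : Set K) := by
    intro x hx y hy hxy
    have h1 : φ (x * y⁻¹) = 1 := by rw [map_mul, map_inv, hxy, mul_inv_cancel]
    have h2 := eq_one hk (E.mul_mem (hFE hx) (E.inv_mem (hFE hy))) h1
    exact mul_inv_eq_one.mp h2
  have h1 : ((F.map φ : Subgroup K') : Set K').ncard = (F : Set K).ncard := by
    rw [Subgroup.coe_map]
    exact hinj.ncard_image
  exact h1

end Tra1M

open Tra1M in
theorem specTRA1 : SpecTRA1.{u} := by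
  intro K K' _ _ _ F E φ hsurj hk hFE
  refine ⟨?_, ?_, ?_⟩
  · rintro ⟨X', p, V, i1, i2, hE, hp, hpF, hV, haff, hfaith, hfix, x', hx'F, hx'1, hfin, hcard⟩
    have hc := card_map hk hFE
    rw [hc] at hpF hcard
    let ψ : X'.comap φ →* X' := φ.subgroupComap X'
    let i3 : MulAction (X'.comap φ) V := MulAction.compHom V ψ
    have hsm : ∀ (x : X'.comap φ) (v : V), x • v = ψ x • v := fun _ _ => rfl
    have hψ : ∀ x : X'.comap φ, ((ψ x : X') : K') = φ (x : K) := fun _ => rfl
    refine ⟨X'.comap φ, p, V, i1, i3, ?_, hp, hpF, hV, ?_, ?_, ?_, ?_⟩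
    · exact Subgroup.map_le_iff_le_comap.mp hE
    · intro g
      exact haff (ψ g)
    · intro x hxF hx1
      refine hfaith (ψ x) (by rw [hψ]; exact Subgroup.mem_map_of_mem _ hxF) fun h => hx1 ?_
      refine Subtype.ext (eq_one hk (hFE hxF) ?_)
      rw [← hψ, h]
      rfl
    · intro v
      obtain ⟨y, hyF, hy1, hyv⟩ := hfix v
      obtain ⟨f, hf, hfy⟩ := hyF
      have hfX : f ∈ X'.comap φ := by
        rw [Subgroup.mem_comap, hfy]
        exact y.2
      have h1 : ψ ⟨f, hfX⟩ = y := Subtype.ext hfy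
      refine ⟨⟨f, hfX⟩, hf, fun h => hy1 ?_, ?_⟩
      · rw [← h1, h, map_one]
      · rw [hsm, h1]
        exact hyv
    · obtain ⟨f, hf, hfy⟩ := hx'F
      have hfX : f ∈ X'.comap φ := by
        rw [Subgroup.mem_comap, hfy]
        exact x'.2
      have h1 : ψ ⟨f, hfX⟩ = x' := Subtype.ext hfy
      have h2 : (Set.range fun v : V => (⟨f, hfX⟩ : X'.comap φ) • v - v) =
          Set.range fun v : V => x' • v - v := by
        congr 1
        funext v
        rw [hsm, h1]
      refine ⟨⟨f, hfX⟩, hf, fun h => hx'1 ?_, ?_, ?_⟩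
      · rw [← h1, h, map_one]
      · rw [h2]; exact hfin
      · rw [h2]; exact hcard
  · rintro Y _ P ⟨X', ρ, S, hfinX, hE, hρ, hinj, hsoc, hPS, hconj⟩
    let ψ : X'.comap φ →* X' := φ.subgroupComap X'
    have hψ : ∀ x : X'.comap φ, ((ψ x : X') : K') = φ (x : K) := fun _ => rfl
    have hψs : Function.Surjective ψ := by
      rintro ⟨y, hy⟩
      obtain ⟨x, rfl⟩ := hsurj y
      exact ⟨⟨x, hy⟩, rfl⟩
    refine ⟨X'.comap φ, ρ.comp ψ, S, inferInstance, Subgroup.map_le_iff_le_comap.mp hE,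
      hρ.comp hψs, ?_, hsoc, hPS, ?_⟩
    · intro x hxE hx
      have h1 : ψ x = 1 := hinj (ψ x) (by rw [hψ]; exact Subgroup.mem_map_of_mem _ hxE) hx
      refine Subtype.ext (eq_one hk hxE ?_)
      rw [← hψ, h1]
      rfl
    · intro y
      obtain ⟨x', hx'F, hx'1, hx'S⟩ := hconj y
      obtain ⟨f, hf, hfy⟩ := hx'F
      have hfX : f ∈ X'.comap φ := by
        rw [Subgroup.mem_comap, hfy]
        exact x'.2
      have h1 : ψ ⟨f, hfX⟩ = x' := Subtype.ext hfy
      refine ⟨⟨f, hfX⟩, hf, fun h => hx'1 ?_, ?_⟩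
      · rw [← h1, h, map_one]
      · rw [MonoidHom.comp_apply, h1]
        exact hx'S
  · rintro P _ ⟨A', B', hB', hA', ⟨e⟩⟩
    let ψ : A'.comap φ →* A' := φ.subgroupComap A'
    have hψs : Function.Surjective ψ := by
      rintro ⟨y, hy⟩
      obtain ⟨x, rfl⟩ := hsurj y
      exact ⟨⟨x, hy⟩, rfl⟩
    have hB : (B'.comap ψ).Normal := hB'.comap ψ
    refine ⟨A'.comap φ, B'.comap ψ, hB, hA'.comap φ, ⟨?_⟩⟩
    let χ : A'.comap φ →* P := e.toMonoidHom.comp ((QuotientGroup.mk' B').comp ψ)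
    have hχs : Function.Surjective χ :=
      e.surjective.comp ((QuotientGroup.mk'_surjective B').comp hψs)
    have hχk : χ.ker = B'.comap ψ := by
      ext x
      rw [MonoidHom.mem_ker, Subgroup.mem_comap]
      change e (QuotientGroup.mk' B' (ψ x)) = 1 ↔ _
      rw [EmbeddingLike.map_eq_one_iff, QuotientGroup.mk'_apply, QuotientGroup.eq_one_iff]
    exact (QuotientGroup.quotientMulEquivOfEq hχk.symm).trans
      (QuotientGroup.quotientKerEquivOfSurjective χ hχs)

end Pool.Agent.Lib.MP66ef6b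
end

section
/-!
# TRA2: transport from subgroups
-/
set_option autoImplicit false

namespace Pool.Agent.Lib.MP66ef6b

universe u

namespace Tra2M

variable {G : Type u} [Group G] {K : Subgroup G}

/-- a subgroup of `K` is isomorphic to its image in `G` -/
noncomputable def iso (X : Subgroup K) : X ≃* X.map K.subtype :=
  X.equivMapOfInjective K.subtype K.subtype_injective

theorem coe_iso (X : Subgroup K) (x : X) : ((iso X x : X.map K.subtype) : G) = ((x : K) : G) := by
  unfold iso
  rw [Subgroup.coe_equivMapOfInjective_apply]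
  rfl

theorem coe_iso_symm (X : Subgroup K) (x : X.map K.subtype) :
    ((((iso X).symm x : X) : K) : G) = (x : G) := by
  rw [← coe_iso, MulEquiv.apply_symm_apply]

theorem le_map {E : Subgroup G} (hE : E ≤ K) {X : Subgroup K} (h : E.subgroupOf K ≤ X) :
    E ≤ X.map K.subtype := by
  intro x hx
  exact ⟨⟨x, hE hx⟩, h (Subgroup.mem_subgroupOf.2 hx), rfl⟩

theorem card_eq {F : Subgroup G} (hF : F ≤ K) : Nat.card (F.subgroupOf K) = Nat.card F :=
  Nat.card_congr (Subgroup.subgroupOfEquivOfLe hF).toEquiv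

end Tra2M

open Tra2M

theorem specTRA2 : SpecTRA2.{u} := by
  intro G _ K F E hEK hFE
  refine ⟨?_, ?_⟩
  · rintro ⟨X, p, V, iV, iA, hEX, hp, hpF, hpV, haff, hnon, hreg, x₀, hx₀F, hx₀1, hfin, hcard⟩
    refine ⟨X.map K.subtype, p, V, iV, MulAction.compHom V (iso X).symm.toMonoidHom,
      le_map hEK hEX, hp, ?_, hpV, ?_, ?_, ?_, iso X x₀, ?_, ?_, ?_, ?_⟩
    · rw [card_eq (hFE.trans hEK)] at hpF
      exact hpF
    · intro g
      exact haff ((iso X).symm g)
    · intro x hxF hx1
      refine hnon ((iso X).symm x) ?_ ?_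
      · rw [Subgroup.mem_subgroupOf, coe_iso_symm]
        exact hxF
      · intro h
        apply hx1
        rw [← (iso X).apply_symm_apply x, h, map_one]
    · intro v
      obtain ⟨x, hxF, hx1, hxv⟩ := hreg v
      refine ⟨iso X x, ?_, ?_, ?_⟩
      · rw [coe_iso]
        exact Subgroup.mem_subgroupOf.1 hxF
      · intro h
        apply hx1
        exact (iso X).injective (h.trans (map_one _).symm)
      · show (iso X).symm (iso X x) • v = v
        rw [MulEquiv.symm_apply_apply]
        exact hxv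
    · rw [coe_iso]
      exact Subgroup.mem_subgroupOf.1 hx₀F
    · intro h
      apply hx₀1
      exact (iso X).injective (h.trans (map_one _).symm)
    · have : (Set.range fun v : V => (iso X).symm (iso X x₀) • v - v).Finite := by
        rw [MulEquiv.symm_apply_apply]
        exact hfin
      exact this
    · have : (Set.range fun v : V => (iso X).symm (iso X x₀) • v - v).ncard ≤ Nat.card F := by
        rw [MulEquiv.symm_apply_apply, ← card_eq (hFE.trans hEK)]
        exact hcard
      exact this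
  · rintro Y _ P ⟨X, ρ, S, hX, hEX, hsurj, hinj, hsoc, hPS, hconf⟩
    refine ⟨X.map K.subtype, ρ.comp (iso X).symm.toMonoidHom, S, ?_, le_map hEK hEX, ?_, ?_, hsoc,
      hPS, ?_⟩
    · exact Finite.of_equiv X (iso X).toEquiv
    · exact hsurj.comp (iso X).symm.surjective
    · intro x hxE hx1
      have h := hinj ((iso X).symm x) (by
        rw [Subgroup.mem_subgroupOf, coe_iso_symm]
        exact hxE) hx1
      rw [← (iso X).apply_symm_apply x, h, map_one]
    · intro y
      obtain ⟨x, hxF, hx1, hxS⟩ := hconf y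
      refine ⟨iso X x, ?_, ?_, ?_⟩
      · rw [coe_iso]
        exact Subgroup.mem_subgroupOf.1 hxF
      · intro h
        apply hx1
        exact (iso X).injective (h.trans (map_one _).symm)
      · show y * ρ ((iso X).symm (iso X x)) * y⁻¹ ∈ S
        rw [MulEquiv.symm_apply_apply]
        exact hxS

end Pool.Agent.Lib.MP66ef6b
end

section
/-!
# ULIM: ultralimits of confined subgroups
-/
set_option autoImplicit false

namespace Pool.Agent.Lib.MP66ef6b

universe u

open Filter

theorem specULIM : SpecULIM.{u} := by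
  intro G _ _ hG F hF h
  classical
  obtain ⟨g₀, hg₀⟩ := exists_ne (1 : G)
  have hFfin : (F : Set G).Finite := Set.toFinite _
  let E : Finset G → Subgroup G := fun s =>
    Subgroup.closure ((s ∪ hFfin.toFinset ∪ {g₀} : Finset G) : Set G)
  have hsub : ∀ s (g : G), g ∈ s ∨ g ∈ F ∨ g = g₀ → g ∈ E s := by
    intro s g hg
    apply Subgroup.subset_closure
    simp only [Finset.coe_union, Set.Finite.coe_toFinset, Finset.coe_singleton, Set.mem_union,
      Set.mem_singleton_iff, SetLike.mem_coe]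
    tauto
  have hE : ∀ s, ∃ (X S : Subgroup G) (x : G), E s ≤ X ∧
      (∀ x ∈ X, ∃ f ∈ F, f ≠ 1 ∧ x * f * x⁻¹ ∈ S) ∧ x ∈ X ∧ x * g₀ * x⁻¹ ∉ S := by
    intro s
    obtain ⟨X, S, h1, h2, h3⟩ := h (E s) (hG _) (fun f hf => hsub s f (Or.inr (Or.inl hf)))
    obtain ⟨x, hx, hxS⟩ := h3 g₀ (hsub s g₀ (Or.inr (Or.inr rfl))) hg₀
    exact ⟨X, S, x, h1, h2, hx, hxS⟩
  choose X S x hEX hconf hxX hx using hE
  let U : Ultrafilter (Finset G) := Ultrafilter.of atTop
  have hU : ∀ {p : Finset G → Prop}, (∀ᶠ s in atTop, p s) → ∀ᶠ s in (U : Filter (Finset G)), p s :=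
    fun hp => (Ultrafilter.of_le atTop) hp
  let H : Subgroup G :=
    { carrier := {g | ∀ᶠ s in (U : Filter (Finset G)), x s * g * (x s)⁻¹ ∈ S s}
      mul_mem' := by
        intro a b ha hb
        filter_upwards [ha, hb] with s h1 h2
        have := (S s).mul_mem h1 h2
        have e : x s * a * (x s)⁻¹ * (x s * b * (x s)⁻¹) = x s * (a * b) * (x s)⁻¹ := by group
        rwa [e] at this
      one_mem' := by
        filter_upwards with s
        have e : x s * 1 * (x s)⁻¹ = 1 := by group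
        rw [e]
        exact (S s).one_mem
      inv_mem' := by
        intro a ha
        filter_upwards [ha] with s h1
        have := (S s).inv_mem h1
        have e : (x s * a * (x s)⁻¹)⁻¹ = x s * a⁻¹ * (x s)⁻¹ := by group
        rwa [e] at this }
  have hmem : ∀ g, g ∈ H ↔ ∀ᶠ s in (U : Filter (Finset G)), x s * g * (x s)⁻¹ ∈ S s :=
    fun g => Iff.rfl
  have hg₀H : g₀ ∉ H := by
    intro hg
    rw [hmem] at hg
    obtain ⟨s, hs⟩ := hg.exists
    exact hx s hs
  have hconfH : ∀ g : G, ∃ f ∈ F, f ≠ 1 ∧ g * f * g⁻¹ ∈ H := by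
    intro g
    have h1 : ∀ᶠ s in (U : Filter (Finset G)), ∃ f ∈ {f | f ∈ F ∧ f ≠ 1},
        x s * (g * f * g⁻¹) * (x s)⁻¹ ∈ S s := by
      apply hU
      filter_upwards [eventually_ge_atTop ({g} : Finset G)] with s hs
      have hgs : g ∈ s := hs (Finset.mem_singleton_self g)
      obtain ⟨f, hf, hf1, hfS⟩ := hconf s (x s * g)
        ((X s).mul_mem (hxX s) (hEX s (hsub s g (Or.inl hgs))))
      refine ⟨f, ⟨hf, hf1⟩, ?_⟩
      have e : x s * g * f * (x s * g)⁻¹ = x s * (g * f * g⁻¹) * (x s)⁻¹ := by group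
      rwa [e] at hfS
    rw [Ultrafilter.eventually_exists_mem_iff (hFfin.subset fun f hf => hf.1)] at h1
    obtain ⟨f, ⟨hf, hf1⟩, hfH⟩ := h1
    exact ⟨f, hf, hf1, hfH⟩
  refine ⟨G ⧸ H, inferInstance, F, ⟨g₀, ((1 : G) : G ⧸ H), ?_⟩, hF, ?_⟩
  · intro hcon
    rw [MulAction.Quotient.smul_mk, smul_eq_mul, mul_one, QuotientGroup.eq] at hcon
    apply hg₀H
    have := H.inv_mem hcon
    simpa using this
  · intro ω
    induction ω using QuotientGroup.induction_on with
    | H k =>
      obtain ⟨f, hf, hf1, hfH⟩ := hconfH k⁻¹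
      refine ⟨f, hf, hf1, ?_⟩
      rw [MulAction.Quotient.smul_coe, smul_eq_mul, QuotientGroup.eq]
      have := H.inv_mem hfH
      have e : (k⁻¹ * f * k⁻¹⁻¹)⁻¹ = (f * k)⁻¹ * k := by group
      rwa [e] at this

end Pool.Agent.Lib.MP66ef6b
end
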