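import Pool.Agent.Lib.MP_66ef6b_al.Spec
import Pool.Agent.Lib.MP_66ef6b_al.Tower
import Pool.Agent.Lib.MP_66ef6b_al.Main
import Pool.Agent.Lib.MP_66ef6b_al.Posc
import Pool.Agent.Lib.MP_66ef6b_al.Ulim
import Pool.Agent.Lib.MP_66ef6b_al.Alt

section
/-!
# MP_66ef6b_al: module ULTA (ultraproduct of affine actions)
-/
set_option autoImplicit false

namespace Pool.Agent.Lib.MP66ef6b

universe u

namespace UltaM

/-! ### the index set -/

/-- finite subgroups above `F` -/
def Idx {G : Type u} [Group G] (F : Subgroup G) : Type u := {E : Subgroup G // Finite E ∧ F ≤ E}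

instance {G : Type u} [Group G] (F : Subgroup G) : PartialOrder (Idx F) :=
  inferInstanceAs (PartialOrder {E : Subgroup G // Finite E ∧ F ≤ E})

theorem finite_sup {G : Type u} [Group G] (hG : LocFin G) (A B : Subgroup G) (hA : Finite A)
    (hB : Finite B) : Finite (A ⊔ B : Subgroup G) := by
  classical
  have hA' : (A : Set G).Finite := hA
  have hB' : (B : Set G).Finite := hB
  have h := hG (hA'.toFinset ∪ hB'.toFinset)
  have h2 : A ⊔ B = Subgroup.closure ((hA'.toFinset ∪ hB'.toFinset : Finset G) : Set G) := by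
    rw [Finset.coe_union, hA'.coe_toFinset, hB'.coe_toFinset, Subgroup.closure_union,
      Subgroup.closure_eq, Subgroup.closure_eq]
  rw [h2]
  exact h

theorem exists_ultra {G : Type u} [Group G] (hG : LocFin G) (F : Subgroup G) (hF : Finite F) :
    ∃ U : Ultrafilter (Idx F), ∀ g : G, ∀ᶠ E in (U : Filter (Idx F)), g ∈ E.1 := by
  have hne : Nonempty (Idx F) := ⟨⟨F, hF, le_rfl⟩⟩
  have hdir : IsDirectedOrder (Idx F) := ⟨fun A B =>
    ⟨⟨A.1 ⊔ B.1, finite_sup hG _ _ A.2.1 B.2.1, A.2.2.trans le_sup_left⟩,
      (le_sup_left : A.1 ≤ A.1 ⊔ B.1), (le_sup_right : B.1 ≤ A.1 ⊔ B.1)⟩⟩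
  refine ⟨Ultrafilter.of Filter.atTop, fun g => ?_⟩
  apply Ultrafilter.of_le
  have hfin : Finite (Subgroup.closure (({g} : Finset G) : Set G)) := hG {g}
  let E₀ : Idx F := ⟨F ⊔ Subgroup.closure (({g} : Finset G) : Set G),
    finite_sup hG _ _ hF hfin, le_sup_left⟩
  filter_upwards [Filter.eventually_ge_atTop E₀] with E hE
  have h1 : F ⊔ Subgroup.closure (({g} : Finset G) : Set G) ≤ E.1 := hE
  apply h1
  apply (le_sup_right : Subgroup.closure (({g} : Finset G) : Set G) ≤ _)
  exact Subgroup.subset_closure (by simp)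

/-- A function with values in a finite set is constant on an ultrafilter. -/
theorem exists_const {I : Type*} {α : Type*} (U : Ultrafilter I) (f : I → α) (s : Set α)
    (hs : s.Finite) (h : ∀ᶠ i in (U : Filter I), f i ∈ s) :
    ∃ a ∈ s, ∀ᶠ i in (U : Filter I), f i = a := by
  have h1 : s ∈ U.map f := h
  obtain ⟨a, ha, hU⟩ := Ultrafilter.eq_pure_of_finite_mem hs h1
  refine ⟨a, ha, ?_⟩
  have h2 : ({a} : Set α) ∈ U.map f := by rw [hU]; exact Ultrafilter.mem_pure.mpr rfl
  exact h2

/-! ### the ultraproduct -/

section prod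

variable {I : Type u} (U : Ultrafilter I) (V : I → Type u) [∀ i, AddCommGroup (V i)]

/-- sequences which vanish eventually -/
def ker : AddSubgroup (∀ i, V i) where
  carrier := {v | ∀ᶠ i in (U : Filter I), v i = 0}
  zero_mem' := Filter.Eventually.of_forall (fun _ => rfl)
  add_mem' := by
    intro a b ha hb
    filter_upwards [ha, hb] with i h1 h2
    rw [Pi.add_apply, h1, h2, add_zero]
  neg_mem' := by
    intro a ha
    filter_upwards [ha] with i h1
    rw [Pi.neg_apply, h1, neg_zero]

/-- the ultraproduct -/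
abbrev UV : Type u := (∀ i, V i) ⧸ ker U V

variable {U V}

theorem mk_eq {a b : ∀ i, V i} : ((a : (∀ i, V i) ⧸ ker U V) = b) ↔
    ∀ᶠ i in (U : Filter I), a i = b i := by
  rw [QuotientAddGroup.eq]
  constructor
  · intro h
    filter_upwards [h] with i hi
    rw [Pi.add_apply, Pi.neg_apply] at hi
    exact neg_add_eq_zero.mp hi
  · intro h
    change ∀ᶠ i in (U : Filter I), (-a + b) i = 0
    filter_upwards [h] with i hi
    rw [Pi.add_apply, Pi.neg_apply, hi, neg_add_cancel]

/-- a coordinatewise map -/
def lift (φ : ∀ i, V i → V i) : UV U V → UV U V :=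
  Quotient.lift (fun v : ∀ i, V i => ((fun i => φ i (v i) : ∀ i, V i) : UV U V)) (by
    intro a b hab
    have h1 : (a : UV U V) = b := Quotient.sound hab
    rw [mk_eq] at h1
    exact mk_eq.mpr (by filter_upwards [h1] with i hi; rw [hi]))

theorem lift_mk (φ : ∀ i, V i → V i) (v : ∀ i, V i) :
    lift φ (v : UV U V) = ((fun i => φ i (v i) : ∀ i, V i) : UV U V) := rfl

end prod

end UltaM

open UltaM in
theorem specULTA : SpecULTA.{u} := by
  classical
  intro G _ _ hG F hF hdata
  obtain ⟨U, hU⟩ := exists_ultra hG F hF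
  have hd : ∀ E : Idx F, DataI F E.1 := fun E => hdata E.1 E.2.1 E.2.2
  choose X p V iV iA hEX hp hpF hpv haff hfaith hfix hsmall using hd
  -- the action at `E`
  let φ : G → ∀ E : Idx F, V E → V E := fun g E v => if h : g ∈ X E then (⟨g, h⟩ : X E) • v else v
  have hφ : ∀ (g : G) (E : Idx F) (h : g ∈ X E) (v : V E), φ g E v = (⟨g, h⟩ : X E) • v := by
    intro g E h v
    exact dif_pos h
  have hgX : ∀ g : G, ∀ᶠ E in (U : Filter (Idx F)), g ∈ X E := by
    intro g
    filter_upwards [hU g] with E hE
    exact hEX E hE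
  let act : MulAction G (UV U V) :=
    { smul := fun g v => lift (φ g) v
      one_smul := by
        intro v
        induction v using QuotientAddGroup.induction_on with
        | H v =>
          change lift (φ 1) (v : UV U V) = v
          rw [lift_mk, mk_eq]
          filter_upwards [hgX 1] with E hE
          rw [hφ 1 E hE]
          exact one_smul (X E) (v E)
      mul_smul := by
        intro g h v
        induction v using QuotientAddGroup.induction_on with
        | H v =>
          change lift (φ (g * h)) (v : UV U V) = lift (φ g) (lift (φ h) (v : UV U V))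
          rw [lift_mk, lift_mk, lift_mk, mk_eq]
          filter_upwards [hgX g, hgX h] with E h1 h2
          rw [hφ (g * h) E ((X E).mul_mem h1 h2), hφ g E h1, hφ h E h2, ← mul_smul]
          rfl }
  have hsm : ∀ (g : G) (v : ∀ E, V E), g • (v : UV U V)
      = ((fun E => φ g E (v E) : ∀ E, V E) : UV U V) := fun g v => rfl
  -- the prime
  obtain ⟨p₀, -, hp₀⟩ := exists_const U p (Set.Iic (Nat.card F)) (Set.finite_Iic _)
    (Filter.Eventually.of_forall hpF)
  have hprime : p₀.Prime := by
    obtain ⟨E, hE⟩ := hp₀.exists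
    rw [← hE]; exact hp E
  -- affine law at `E`
  have haffE : ∀ (E : Idx F) (g : X E) (v w : V E), g • (v + w) = g • v + (g • w - g • (0 : V E)) := by
    intro E g v w
    obtain ⟨A, hA⟩ := haff E g
    have h1 := hA 0 w
    rw [zero_add] at h1
    rw [hA v w, h1]
    abel
  have haffV : ∀ (g : G) (v w : UV U V), g • (v + w) = g • v + (g • w - g • (0 : UV U V)) := by
    intro g v w
    induction v using QuotientAddGroup.induction_on with
    | H v =>
      induction w using QuotientAddGroup.induction_on with
      | H w =>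
        have h0 : (0 : UV U V) = ((0 : ∀ E, V E) : UV U V) := rfl
        rw [h0, ← QuotientAddGroup.mk_add, hsm, hsm, hsm, hsm, ← QuotientAddGroup.mk_sub,
          ← QuotientAddGroup.mk_add, mk_eq]
        filter_upwards [hgX g] with E hE
        simp only [Pi.add_apply, Pi.sub_apply, Pi.zero_apply]
        rw [hφ g E hE, hφ g E hE, hφ g E hE, hφ g E hE]
        exact haffE E ⟨g, hE⟩ (v E) (w E)
  -- small element
  choose x hxF hx1 hxfin hxcard using hsmall
  obtain ⟨f, hfF, hf⟩ := exists_const U (fun E => ((x E : X E) : G)) (F : Set G) hF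
    (Filter.Eventually.of_forall hxF)
  have hf1 : f ≠ 1 := by
    obtain ⟨E, hE⟩ := hf.exists
    rw [← hE]
    intro h
    exact hx1 E (Subtype.ext h)
  have hφx : ∀ E : Idx F, ((x E : X E) : G) = f → ∀ v : V E, φ f E v = x E • v := by
    intro E hE v
    have h1 : f ∈ X E := by rw [← hE]; exact (x E).2
    rw [hφ f E h1]
    congr 1
    exact Subtype.ext hE.symm
  -- the subgroup of finitary elements
  let Nf : Subgroup G :=
    { carrier := {g | (Set.range fun v : UV U V => g • v - v).Finite}
      one_mem' := by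
        apply (Set.finite_singleton (0 : UV U V)).subset
        rintro _ ⟨v, rfl⟩
        simp
      mul_mem' := by
        intro a b ha hb
        apply (Set.Finite.add ha hb).subset
        rintro _ ⟨v, rfl⟩
        refine ⟨a • (b • v) - b • v, ⟨b • v, rfl⟩, b • v - v, ⟨v, rfl⟩, ?_⟩
        change a • (b • v) - b • v + (b • v - v) = (a * b) • v - v
        rw [mul_smul]
        abel
      inv_mem' := by
        intro a ha
        apply (Set.Finite.neg ha).subset
        rintro _ ⟨v, rfl⟩
        refine ⟨a⁻¹ • v, ?_⟩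
        change a • a⁻¹ • v - a⁻¹ • v = -(a⁻¹ • v - v)
        rw [smul_inv_smul]
        abel }
  have hNmem : ∀ g, g ∈ Nf ↔ (Set.range fun v : UV U V => g • v - v).Finite := fun g => Iff.rfl
  have hNnorm : Nf.Normal := by
    constructor
    intro n hn g
    rw [hNmem] at hn ⊢
    apply (hn.image (fun u => g • u - g • (0 : UV U V))).subset
    rintro _ ⟨v, rfl⟩
    refine ⟨n • (g⁻¹ • v) - g⁻¹ • v, ⟨g⁻¹ • v, rfl⟩, ?_⟩
    have h1 := haffV g (g⁻¹ • v) (n • (g⁻¹ • v) - g⁻¹ • v)
    rw [add_sub_cancel, smul_inv_smul] at h1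
    change g • (n • (g⁻¹ • v) - g⁻¹ • v) - g • (0 : UV U V) = (g * n * g⁻¹) • v - v
    rw [mul_smul, mul_smul, h1]
    abel
  have hfN : f ∈ Nf := by
    rw [hNmem]
    -- labels
    have hlab : ∀ E : Idx F, ∃ j : V E → Fin (Nat.card F), ∀ a b : V E,
        a ∈ Set.range (fun v : V E => x E • v - v) → b ∈ Set.range (fun v : V E => x E • v - v) →
        j a = j b → a = b := by
      intro E
      have hpos : 0 < Nat.card F := Nat.card_pos
      have hfinite : Finite (Set.range fun v : V E => x E • v - v) := hxfin E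
      have hle : Nat.card (Set.range fun v : V E => x E • v - v) ≤ Nat.card (Fin (Nat.card F)) := by
        rw [Nat.card_fin]
        exact hxcard E
      have hft : Fintype (Set.range fun v : V E => x E • v - v) := Fintype.ofFinite _
      rw [Nat.card_eq_fintype_card, Nat.card_eq_fintype_card] at hle
      obtain ⟨emb⟩ := Function.Embedding.nonempty_of_card_le hle
      refine ⟨fun a => if h : a ∈ Set.range (fun v : V E => x E • v - v) then emb ⟨a, h⟩
        else ⟨0, hpos⟩, ?_⟩
      intro a b ha hb hab
      have hab' : emb ⟨a, ha⟩ = emb ⟨b, hb⟩ := by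
        simpa only [dif_pos ha, dif_pos hb] using hab
      exact congrArg Subtype.val (emb.injective hab')
    choose j hj using hlab
    -- representatives
    have hrep : ∀ r : (Set.range fun v : UV U V => f • v - v), ∃ v : ∀ E, V E,
        (r : UV U V) = ((fun E => φ f E (v E) - v E : ∀ E, V E) : UV U V) := by
      rintro ⟨_, ⟨w, rfl⟩⟩
      induction w using QuotientAddGroup.induction_on with
      | H v => exact ⟨v, rfl⟩
    choose rep hrep using hrep
    have hconst : ∀ r : (Set.range fun v : UV U V => f • v - v), ∃ i : Fin (Nat.card F),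
        ∀ᶠ E in (U : Filter (Idx F)), j E (φ f E (rep r E) - rep r E) = i := by
      intro r
      obtain ⟨i, _, hi⟩ := exists_const U (fun E => j E (φ f E (rep r E) - rep r E)) Set.univ
        Set.finite_univ (Filter.Eventually.of_forall (fun _ => Set.mem_univ _))
      exact ⟨i, hi⟩
    choose lab hlab using hconst
    have hinj : Function.Injective lab := by
      intro r s hrs
      apply Subtype.ext
      rw [hrep r, hrep s, mk_eq]
      filter_upwards [hlab r, hlab s, hf] with E h1 h2 h3
      apply hj E
      · exact ⟨rep r E, by rw [hφx E h3]⟩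
      · exact ⟨rep s E, by rw [hφx E h3]⟩
      · rw [h1, h2, hrs]
    exact Finite.of_injective lab hinj
  have hNtop : Nf = ⊤ := by
    rcases hNnorm.eq_bot_or_eq_top with h | h
    · exfalso
      rw [h, Subgroup.mem_bot] at hfN
      exact hf1 hfN
    · exact h
  refine ⟨p₀, UV U V, inferInstance, act, F, hprime, ?_, ?_, ?_, ?_, hF, ?_⟩
  · intro v
    induction v using QuotientAddGroup.induction_on with
    | H v =>
      have h0 : (0 : UV U V) = ((0 : ∀ E, V E) : UV U V) := rfl
      rw [← QuotientAddGroup.mk_nsmul, h0, mk_eq]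
      filter_upwards [hp₀] with E hE
      rw [Pi.smul_apply, ← hE, Pi.zero_apply]
      exact hpv E (v E)
  · intro g
    refine ⟨AddMonoidHom.mk' (fun w => g • w - g • (0 : UV U V)) ?_, ?_⟩
    · intro a b
      rw [haffV g a b]
      abel
    · intro v w
      exact haffV g v w
  · intro g
    have : g ∈ Nf := by rw [hNtop]; exact Subgroup.mem_top g
    exact this
  · -- non-trivial
    have h1 : ∀ E : Idx F, ∃ v : V E, ((x E : X E) : G) = f → x E • v ≠ v := by
      intro E
      obtain ⟨v, hv⟩ := hfaith E (x E) (hxF E) (hx1 E)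
      exact ⟨v, fun _ => hv⟩
    choose v hv using h1
    refine ⟨f, (v : UV U V), ?_⟩
    intro h
    rw [hsm, mk_eq] at h
    obtain ⟨E, h2, h3⟩ := (h.and hf).exists
    exact hv E h3 (by rw [← hφx E h3]; exact h2)
  · intro v
    induction v using QuotientAddGroup.induction_on with
    | H v =>
      have h1 : ∀ E : Idx F, ∃ y : X E, (y : G) ∈ F ∧ y ≠ 1 ∧ y • v E = v E := fun E => hfix E (v E)
      choose y hyF hy1 hyv using h1
      obtain ⟨a, haF, ha⟩ := exists_const U (fun E => ((y E : X E) : G)) (F : Set G) hF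
        (Filter.Eventually.of_forall hyF)
      refine ⟨a, haF, ?_, ?_⟩
      · obtain ⟨E, hE⟩ := ha.exists
        rw [← hE]
        intro h
        exact hy1 E (Subtype.ext h)
      · rw [hsm, mk_eq]
        filter_upwards [ha] with E hE
        have h1 : a ∈ X E := by rw [← hE]; exact (y E).2
        rw [hφ a E h1]
        have h2 : (⟨a, h1⟩ : X E) = y E := Subtype.ext hE.symm
        rw [h2]
        exact hyv E

end Pool.Agent.Lib.MP66ef6b
end

section
/-!
# MP_66ef6b_al: final assembly
-/
set_option autoImplicit false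

namespace Pool.Agent.Lib.MP66ef6b

universe u

theorem main : SpecMAIN.{u} := by
  have hFG : SpecFG.{u} := specFG specMIN specDICH specPART specPOSA specPOSC
    (specPOS2 specCOUNT specLARGE) specCASE1
  have hLOCAL : SpecLOCAL.{u} := specLOCAL hFG specQUOT specTRA1 specTRA2 specTOWER
  exact specMAIN hLOCAL specULTA (specBACK specULIM) (specOUT specTOWER)
    (specALT (specAUTY specAUTN) specCYC specTOWER)

end Pool.Agent.Lib.MP66ef6b
end
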